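import Mathlib

set_option autoImplicit false

open Set
open scoped NNReal

namespace Pool.Agent.H659Z.Cub

/-- majority vote of three bits -/
def maj (a b c : Bool) : Bool := (a && b) || (b && c) || (c && a)

/-- Two vertices of the cube `{0,1}^H` are equal or adjacent. -/
def Adj {H : Type} (a b : H → Bool) : Prop := ∃ h, ∀ k, k ≠ h → a k = b k

/-- A CAT(0) cube complex, presented by its vertex set: a nonempty set `V` of vertices of the cube
`{0,1}^H` that is closed under medians and connected by edges, that is, a median graph.  The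
complex is the union of all cubes of `[0,1]^H` whose vertices lie in `V`. -/
structure CubeComplex (H : Type) where
  V : Set (H → Bool)
  nonempty : V.Nonempty
  median : ∀ u ∈ V, ∀ v ∈ V, ∀ w ∈ V, (fun h => maj (u h) (v h) (w h)) ∈ V
  connected : ∀ u ∈ V, ∀ v ∈ V, Relation.ReflTransGen (fun a b => b ∈ V ∧ Adj a b) u v

/-- The face of `[0,1]^H` with free coordinates `A` through the vertex `v`. -/
def cell {H : Type} (v : H → Bool) (A : Finset H) : Set (H → ℝ) :=
  {x | (∀ h ∈ A, x h ∈ Icc (0 : ℝ) 1) ∧ ∀ h ∉ A, x h = if v h then 1 else 0}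

namespace CubeComplex

variable {H : Type} (C : CubeComplex H)

/-- `cell v A` is a cube of the complex: all its vertices lie in `V`. -/
def IsCube (v : H → Bool) (A : Finset H) : Prop := ∀ w : H → Bool, (∀ h ∉ A, w h = v h) → w ∈ C.V

/-- The points of the complex. -/
def Pt : Type := {x : H → ℝ // ∃ v A, C.IsCube v A ∧ x ∈ cell v A}

/-- `Chain p x y l`: there is a chain of points from `x` to `y`, consecutive ones in a common
cube, whose `l^p` lengths, measured in these cubes, add up to `l`. -/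
inductive Chain (p : ℝ) : C.Pt → C.Pt → ℝ → Prop
  | refl (x : C.Pt) : Chain p x x 0
  | step (x y z : C.Pt) (l : ℝ) (v : H → Bool) (A : Finset H) (hc : C.IsCube v A)
      (hx : x.1 ∈ cell v A) (hy : y.1 ∈ cell v A) (h : Chain p y z l) :
      Chain p x z ((∑ h ∈ A, |x.1 h - y.1 h| ^ p) ^ (1 / p) + l)

/-- The piecewise `l^p` metric `d_p`. -/
noncomputable def dist (p : ℝ) (x y : C.Pt) : ℝ := sInf {l | C.Chain p x y l}

/-- Every vertex has finitely many neighbours. -/
def LocallyFinite : Prop := ∀ v ∈ C.V, {w | w ∈ C.V ∧ Adj v w}.Finite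

/-- A permutation of the coordinates that preserves `V`; it acts on the complex as a cubical
automorphism. -/
def IsAut (φ : Equiv.Perm H) : Prop := ∀ v : H → Bool, v ∘ φ ∈ C.V ↔ v ∈ C.V

/-- The group of these automorphisms acts cocompactly: finitely many cubes meet every orbit. -/
def Cocompact : Prop :=
  ∃ F : Set ((H → Bool) × Finset H), F.Finite ∧ (∀ c ∈ F, C.IsCube c.1 c.2) ∧
    ∀ x : C.Pt, ∃ φ : Equiv.Perm H, C.IsAut φ ∧ ∃ c ∈ F, x.1 ∘ φ ∈ cell c.1 c.2

end CubeComplex

section boundary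

variable {Y : Type} (d : Y → Y → ℝ) (σ : Y → Y → ℝ → Y) (o : Y)

/-- A geodesic bicombing: `σ x y` is a constant speed geodesic from `x` to `y` on `[0,1]`. -/
def IsBicombing : Prop :=
  ∀ x y, σ x y 0 = x ∧ σ x y 1 = y ∧
    ∀ s ∈ Icc (0 : ℝ) 1, ∀ t ∈ Icc (0 : ℝ) 1, d (σ x y s) (σ x y t) = |s - t| * d x y

/-- The `σ`-rays from `o`: geodesic rays whose initial segments are `σ`-geodesics. -/
def Ray : Type :=
  {c : ℝ≥0 → Y // c 0 = o ∧ (∀ s t : ℝ≥0, d (c s) (c t) = |(s : ℝ) - t|) ∧
    ∀ T : ℝ≥0, 0 < T → ∀ s ≤ T, c s = σ o (c T) (s / T)}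

/-- The space together with its boundary. -/
def Bar : Type := Y ⊕ Ray d σ o

/-- The points and rays whose `σ`-geodesic from `o` passes, at distance `R` from `o`, within `ε`
of `c R`. -/
def coneNhd (c : Ray d σ o) (R : ℝ≥0) (ε : ℝ) : Set (Bar d σ o) :=
  Sum.inl '' {x | R < d o x ∧ d (σ o x (R / d o x)) (c.1 R) < ε} ∪
    Sum.inr '' {c' | d (c'.1 R) (c.1 R) < ε}

/-- The cone topology, generated by the open balls of `Y` and the sets `coneNhd`. -/
def coneTop : TopologicalSpace (Bar d σ o) :=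
  TopologicalSpace.generateFrom
    ({U | ∃ (x : Y) (ε : ℝ), 0 < ε ∧ U = Sum.inl '' {y | d x y < ε}} ∪
      {U | ∃ (c : Ray d σ o) (R : ℝ≥0) (ε : ℝ), 0 < R ∧ 0 < ε ∧ U = coneNhd d σ o c R ε})

end boundary

/-- The identity of `Y` extends to a continuous map between the two cone compactifications. -/
def IdExtends {Y : Type} (d : Y → Y → ℝ) (σ : Y → Y → ℝ → Y) (d' : Y → Y → ℝ)
    (σ' : Y → Y → ℝ → Y) (o : Y) : Prop :=
  ∃ F : Bar d σ o → Bar d' σ' o, @Continuous _ _ (coneTop d σ o) (coneTop d' σ' o) F ∧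
    ∀ x : Y, F (Sum.inl x) = Sum.inl x

end Pool.Agent.H659Z.Cub
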