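import Mathlib

set_option autoImplicit false

open Set

namespace Pool.Agent.H659Z.Cub

/-- the `l^p` norm of the plane -/
noncomputable def N (p : ℝ) (u : Bool → ℝ) : ℝ := (∑ i, |u i| ^ p) ^ (1 / p)

variable {p : ℝ}

theorem N_nonneg (u : Bool → ℝ) : 0 ≤ N p u := by unfold N; positivity

theorem N_pow (hp : 1 < p) (u : Bool → ℝ) : N p u ^ p = ∑ i, |u i| ^ p := by
  unfold N
  rw [← Real.rpow_mul (by positivity), one_div_mul_cancel (by linarith), Real.rpow_one]

theorem N_add (hp : 1 < p) (u v : Bool → ℝ) : N p (u + v) ≤ N p u + N p v :=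
  Real.Lp_add_le Finset.univ u v hp.le

theorem N_smul (hp : 1 < p) (a : ℝ) (u : Bool → ℝ) : N p (a • u) = |a| * N p u := by
  unfold N
  simp only [Pi.smul_apply, smul_eq_mul, abs_mul]
  simp only [Real.mul_rpow (abs_nonneg _) (abs_nonneg _)]
  rw [← Finset.mul_sum, Real.mul_rpow (by positivity) (by positivity), ← Real.rpow_mul (abs_nonneg _),
    mul_one_div_cancel (by linarith), Real.rpow_one]

theorem N_zero (hp : 1 < p) : N p 0 = 0 := by
  simpa using N_smul hp 0 0

theorem N_neg (u : Bool → ℝ) : N p (-u) = N p u := by simp [N]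

theorem N_sub_comm (u v : Bool → ℝ) : N p (u - v) = N p (v - u) := by rw [← N_neg, neg_sub]

theorem abs_le_N (hp : 1 < p) (u : Bool → ℝ) (i : Bool) : |u i| ≤ N p u := by
  rw [← Real.rpow_le_rpow_iff (abs_nonneg _) (N_nonneg u) (by linarith : 0 < p), N_pow hp]
  exact Finset.single_le_sum (f := fun i => |u i| ^ p) (fun j _ => by positivity) (Finset.mem_univ i)

theorem eq_zero_of_N (hp : 1 < p) {u : Bool → ℝ} (h : N p u = 0) : u = 0 := by
  ext i
  have := abs_le_N hp u i
  rw [h] at this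
  simpa using this

theorem N_pos (hp : 1 < p) {u : Bool → ℝ} (h : u ≠ 0) : 0 < N p u :=
  (N_nonneg u).lt_of_ne fun e => h (eq_zero_of_N hp e.symm)

theorem N_mono (hp : 1 < p) {u v : Bool → ℝ} (h0 : ∀ i, 0 ≤ u i) (h : ∀ i, u i ≤ v i) :
    N p u ≤ N p v := by
  unfold N
  refine Real.rpow_le_rpow (by positivity) (Finset.sum_le_sum fun i _ => ?_) (by positivity)
  refine Real.rpow_le_rpow (abs_nonneg _) ?_ (by linarith)
  rw [abs_of_nonneg (h0 i), abs_of_nonneg ((h0 i).trans (h i))]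
  exact h i

theorem N_mono_eq (hp : 1 < p) {u v : Bool → ℝ} (h0 : ∀ i, 0 ≤ u i) (h : ∀ i, u i ≤ v i)
    (e : N p u = N p v) : u = v := by
  have e2 : ∑ i, |u i| ^ p = ∑ i, |v i| ^ p := by rw [← N_pow hp, ← N_pow hp, e]
  have hle : ∀ i ∈ Finset.univ, |u i| ^ p ≤ |v i| ^ p := fun i _ => by
    refine Real.rpow_le_rpow (abs_nonneg _) ?_ (by linarith)
    rw [abs_of_nonneg (h0 i), abs_of_nonneg ((h0 i).trans (h i))]
    exact h i
  ext i
  have := (Finset.sum_eq_sum_iff_of_le hle).1 e2 i (Finset.mem_univ i)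
  rw [Real.rpow_left_inj (abs_nonneg _) (abs_nonneg _) (by linarith), abs_of_nonneg (h0 i),
    abs_of_nonneg ((h0 i).trans (h i))] at this
  exact this

theorem conv_le (hp : 1 < p) {a b : ℝ} (ha : 0 < a) (hb : 0 < b) (hab : a + b = 1) (x y : ℝ) :
    |a * x + b * y| ^ p ≤ a * |x| ^ p + b * |y| ^ p ∧
      (x ≠ y → |a * x + b * y| ^ p < a * |x| ^ p + b * |y| ^ p) := by
  have h1 : |a * x + b * y| ≤ a * |x| + b * |y| := by
    refine (abs_add_le _ _).trans ?_
    rw [abs_mul, abs_mul, abs_of_pos ha, abs_of_pos hb]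
  have h2 : |a * x + b * y| ^ p ≤ (a * |x| + b * |y|) ^ p :=
    Real.rpow_le_rpow (abs_nonneg _) h1 (by linarith)
  have hc := strictConvexOn_rpow hp
  have h3 := hc.convexOn.2 (mem_Ici.2 (abs_nonneg x)) (mem_Ici.2 (abs_nonneg y)) ha.le hb.le hab
  simp only [smul_eq_mul] at h3
  refine ⟨h2.trans h3, fun hne => ?_⟩
  by_cases hxy : |x| = |y|
  · have hx : y = -x := by
      rcases abs_eq_abs.1 hxy with h | h
      · exact absurd h hne
      · linarith
    subst hx
    have hx0 : 0 < |x| := abs_pos.2 fun e => hne (by simp [e])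
    have h4 : |a * x + b * -x| < |x| := by
      rw [show a * x + b * -x = (a - b) * x by ring, abs_mul]
      have : |a - b| < 1 := by rw [abs_lt]; constructor <;> linarith
      nlinarith
    have h5 := Real.rpow_lt_rpow (abs_nonneg _) h4 (by linarith : 0 < p)
    rw [abs_neg, ← add_mul, hab, one_mul]
    exact h5
  · have h4 := hc.2 (mem_Ici.2 (abs_nonneg x)) (mem_Ici.2 (abs_nonneg y)) hxy ha hb hab
    simp only [smul_eq_mul] at h4
    exact h2.trans_lt h4

theorem N_strict (hp : 1 < p) {u v : Bool → ℝ} (h : N p (u + v) = N p u + N p v) :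
    N p v • u = N p u • v := by
  by_cases hu : u = 0
  · simp [hu, N_zero hp]
  by_cases hv : v = 0
  · simp [hv, N_zero hp]
  have ha := N_pos hp hu
  have hb := N_pos hp hv
  set a := N p u with ha'
  set b := N p v with hb'
  by_contra hne
  obtain ⟨j, hj⟩ := Function.ne_iff.1 hne
  have hs : 0 < a + b := by linarith
  have nrm : ∀ (w : Bool → ℝ), 0 < N p w → ∑ i, |(N p w)⁻¹ * w i| ^ p = 1 := fun w hw => by
    have := N_pow hp ((N p w)⁻¹ • w)
    rw [N_smul hp, abs_of_pos (inv_pos.2 hw), inv_mul_cancel₀ hw.ne', Real.one_rpow] at this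
    exact this.symm
  have k := fun i => conv_le hp (a := a / (a + b)) (b := b / (a + b)) (by positivity) (by positivity)
    (by field_simp) (a⁻¹ * u i) (b⁻¹ * v i)
  have hlt : ∑ i, |a / (a + b) * (a⁻¹ * u i) + b / (a + b) * (b⁻¹ * v i)| ^ p
      < ∑ i, (a / (a + b) * |a⁻¹ * u i| ^ p + b / (a + b) * |b⁻¹ * v i| ^ p) := by
    refine Finset.sum_lt_sum (fun i _ => (k i).1) ⟨j, Finset.mem_univ j, (k j).2 fun e => hj ?_⟩
    simp only [Pi.smul_apply, smul_eq_mul]
    field_simp at e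
    linarith
  rw [Finset.sum_add_distrib, ← Finset.mul_sum, ← Finset.mul_sum, nrm u ha, nrm v hb] at hlt
  have e3 := nrm (u + v) (by rw [h]; exact hs)
  rw [h] at e3
  have e4 : ∀ i, a / (a + b) * (a⁻¹ * u i) + b / (a + b) * (b⁻¹ * v i) = (a + b)⁻¹ * (u + v) i := by
    intro i
    simp only [Pi.add_apply]
    field_simp
  simp only [e4, e3] at hlt
  have : a / (a + b) * 1 + b / (a + b) * 1 = 1 := by field_simp
  linarith

theorem N_side (hp : 1 < p) (a : ℝ) : N p (fun i => if i then 0 else a) = |a| := by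
  unfold N
  rw [Fintype.sum_bool]
  simp only [if_true, abs_zero, Real.zero_rpow (by linarith : p ≠ 0), zero_add, Bool.false_eq_true,
    if_false]
  rw [← Real.rpow_mul (abs_nonneg _), mul_one_div_cancel (by linarith), Real.rpow_one]

theorem N_diag {u : Bool → ℝ} (h : ∀ i, |u i| = 1) : N p u = 2 ^ (1 / p) := by
  unfold N
  rw [Fintype.sum_bool, h, h, Real.one_rpow, one_add_one_eq_two]

end Pool.Agent.H659Z.Cub
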