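import Mathlib

set_option autoImplicit false

open Set

namespace Pool.Agent.H659Z.Cub

abbrev G := FreeGroup Bool

/-- first letter -/
def hd (a : G) : Bool × Bool := a.toWord.headD (false, false)

def lt (s : Bool × Bool) : G := FreeGroup.mk [s]

theorem hd_lt (s : Bool × Bool) : hd (lt s) = s := rfl

theorem lt_inv (s : Bool × Bool) : (lt s)⁻¹ = lt (s.1, !s.2) := by
  simp [lt, FreeGroup.inv_mk, FreeGroup.invRev]

theorem hd_T {a b : G} (ha : a ≠ 1) (hb : b ≠ 1) (h : hd a ≠ hd b) : hd (b⁻¹ * a) = hd b⁻¹ := by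
  have ra := FreeGroup.isReduced_toWord (x := a)
  have rb := FreeGroup.isReduced_toWord (x := b⁻¹)
  have hr : FreeGroup.IsReduced (b⁻¹.toWord ++ a.toWord) := by
    unfold FreeGroup.IsReduced at *
    rw [List.isChain_append]
    refine ⟨rb, ra, fun x hx y hy => ?_⟩
    rw [FreeGroup.toWord_inv] at hx
    unfold hd at h
    rcases hwa : a.toWord with _ | ⟨s, wa⟩
    · exact absurd (FreeGroup.toWord_eq_nil_iff.1 hwa) ha
    rcases hwb : b.toWord with _ | ⟨t, wb⟩
    · exact absurd (FreeGroup.toWord_eq_nil_iff.1 hwb) hb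
    rw [hwa, hwb] at h
    rw [hwa] at hy
    rw [hwb] at hx
    simp [FreeGroup.invRev] at hx hy h
    subst hx hy
    intro h1
    simp only at h1 ⊢
    by_contra h2
    apply h
    ext
    · exact h1.symm
    · revert h2; cases t.2 <;> cases s.2 <;> simp
  unfold hd
  rw [FreeGroup.toWord_mul, hr.reduce_eq]
  rcases hw : b⁻¹.toWord with _ | ⟨t, w⟩
  · exact absurd (inv_eq_one.1 (FreeGroup.toWord_eq_nil_iff.1 hw)) hb
  · rfl

theorem hd_N {a : G} {s : Bool × Bool} (ha : a ≠ 1) (hs : a ≠ lt s) (h : hd a = s) :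
    hd ((lt s)⁻¹ * a) ≠ (s.1, !s.2) := by
  have ra := FreeGroup.isReduced_toWord (x := a)
  have e := FreeGroup.mk_toWord (x := a)
  unfold hd at h
  rcases hwa : a.toWord with _ | ⟨t, _ | ⟨u, w⟩⟩
  · exact absurd (FreeGroup.toWord_eq_nil_iff.1 hwa) ha
  · rw [hwa] at h e
    exact absurd (by rw [← e, ← h]; rfl) hs
  · rw [hwa] at h e ra
    obtain rfl : t = s := h
    have h1 := FreeGroup.isReduced_cons_cons.1 ra
    have : (lt t)⁻¹ * a = FreeGroup.mk (u :: w) := by
      rw [← e, inv_mul_eq_iff_eq_mul, lt, FreeGroup.mul_mk]; rfl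
    rw [this, hd, FreeGroup.toWord_mk, h1.2.reduce_eq]
    intro h2
    obtain rfl : u = (t.1, !t.2) := h2
    have := h1.1 rfl
    simp at this

/-- direction from `q` to `q'` -/
def dir (q q' : G) : Bool × Bool := hd (q⁻¹ * q')

theorem dir_mul (g q q' : G) : dir (g * q) (g * q') = dir q q' := by simp [dir, mul_assoc]

theorem dir_T {q q' g : G} (h1 : q ≠ q') (h2 : q ≠ g) : dir q g = dir q q' ∨ dir q' g = dir q' q := by
  by_cases h : dir q g = dir q q'
  · exact Or.inl h
  · have := hd_T (a := q⁻¹ * g) (b := q⁻¹ * q') (fun e => h2 (inv_mul_eq_one.1 e))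
      (fun e => h1 (inv_mul_eq_one.1 e)) h
    right
    simpa [dir, mul_assoc] using this

theorem dir_lt (g : G) (s : Bool × Bool) : dir g (g * lt s) = s := by simp [dir, hd_lt]

theorem dir_lt' (g : G) (s : Bool × Bool) : dir (g * lt s) g = (s.1, !s.2) := by
  simp [dir, lt_inv, hd_lt]

theorem dir_N {g q : G} {s : Bool × Bool} (h1 : q ≠ g) (h2 : q ≠ g * lt s) (h : dir g q = s) :
    dir (g * lt s) q ≠ (s.1, !s.2) := by
  have := hd_N (a := g⁻¹ * q) (s := s) (fun e => h1 (inv_mul_eq_one.1 e).symm)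
    (fun e => h2 (inv_mul_eq_iff_eq_mul.1 e)) h
  simpa [dir, mul_assoc] using this

theorem dir_adj {g q : G} {s : Bool × Bool} (h1 : q ≠ g) (h2 : q ≠ g * lt s) :
    dir q (g * lt s) = dir q g := by
  rcases dir_T h1 h2 with h | h
  · exact h
  rcases dir_T h2 h1 with h' | h'
  · exact h'.symm
  rw [dir_lt] at h
  rw [dir_lt'] at h'
  exact absurd h'.symm (dir_N h1 h2 h.symm)

theorem dir_fin' (L : List (Bool × Bool)) : ∀ g : G, {q | dir q (g * FreeGroup.mk L) ≠ dir q g}.Finite := by
  induction L with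
  | nil => intro g; simp [← FreeGroup.one_eq_mk]
  | cons s L ih =>
    intro g
    have e : g * FreeGroup.mk (s :: L) = g * lt s * FreeGroup.mk L := by
      rw [mul_assoc, lt, FreeGroup.mul_mk]; rfl
    refine ((ih (g * lt s)).union (toFinite {g, g * lt s})).subset fun q hq => ?_
    by_contra hn
    simp only [mem_union, mem_ofPred_eq, mem_insert_iff, mem_singleton_iff, not_or, not_not] at hn hq
    exact hq (by rw [e, hn.1, dir_adj hn.2.1 hn.2.2])

theorem dir_fin (g : G) : {q | dir q g ≠ dir q 1}.Finite := by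
  have := dir_fin' g.toWord 1
  rwa [FreeGroup.mk_toWord, one_mul] at this

/-- the ray of squares spelled by `s` -/
def gs (s : ℕ → Bool) : ℕ → G
  | 0 => 1
  | n + 1 => gs s n * lt (s n, true)

theorem gs_inj (s : ℕ → Bool) : Function.Injective (gs s) := by
  have : ∀ n, FreeGroup.lift (fun _ => Multiplicative.ofAdd (1 : ℤ)) (gs s n)
      = Multiplicative.ofAdd (n : ℤ) := by
    intro n
    induction n with
    | zero => simp [gs]
    | succ n ih =>
      rw [gs, map_mul, ih, show lt (s n, true) = FreeGroup.of (s n) from rfl, FreeGroup.lift_apply_of,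
        ← ofAdd_add]
      simp
  intro a b h
  have h1 := this a
  rw [h, this b] at h1
  exact_mod_cast (Multiplicative.ofAdd.injective h1).symm

theorem dir_gs_out (s : ℕ → Bool) (q : G) (n : ℕ) (h : ∀ j ≤ n, q ≠ gs s j) :
    dir q (gs s n) = dir q 1 := by
  induction n with
  | zero => rfl
  | succ n ih =>
    rw [gs, dir_adj (h n (by omega)) (h (n + 1) le_rfl), ih fun j hj => h j (by omega)]

theorem dir_gs_lt (s : ℕ → Bool) {k n : ℕ} (h : k < n) : dir (gs s k) (gs s n) = (s k, true) := by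
  induction n, h using Nat.le_induction with
  | base => exact dir_lt _ _
  | succ n hn ih =>
    rw [gs, dir_adj (fun e => by have := gs_inj s e; omega)
      (fun e => by have := gs_inj s (a₂ := n + 1) e; omega), ih]

theorem dir_gs_one (s : ℕ → Bool) (k : ℕ) : dir (gs s (k + 1)) 1 = (s k, false) := by
  rw [← dir_gs_out s _ k fun j hj e => by have := gs_inj s e; omega]
  exact dir_lt' _ _

section generic

variable {β : Type} (f : Bool × Bool → β)

/-- the tree clauses -/
def Cl (x : G → β) : Prop := ∀ q q', q ≠ q' → x q = f (dir q q') ∨ x q' = f (dir q' q)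

/-- `x` lies in the square `g` -/
def InSq (x : G → β) (g : G) : Prop := ∀ q, q ≠ g → x q = f (dir q g)

variable {f}

theorem InSq.cl {x : G → β} {g : G} (h : InSq f x g) : Cl f x := by
  intro q q' hq
  by_cases h1 : q = g
  · subst h1; exact Or.inr (h q' hq.symm)
  by_cases h2 : q' = g
  · subst h2; exact Or.inl (h q hq)
  rcases dir_T hq h1 with e | e
  · left; rw [h q h1, e]
  · right; rw [h q' h2, e]

theorem min_block {x y : G → β} (hx : Cl f x) (hy : Cl f y) (hf : {q | x q ≠ y q}.Finite)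
    (hne : x ≠ y) : ∃ g, x g ≠ y g ∧ InSq f x g := by
  let r : G → G → Prop := fun q' q => q' ≠ q ∧ x q' ≠ f (dir q' q)
  have tr : ∀ a b c, r a b → r b c → r a c := by
    rintro a b c ⟨h1, h2⟩ ⟨h3, h4⟩
    have h5 : x b = f (dir b a) := (hx a b h1).resolve_left h2
    have h6 : dir b c ≠ dir b a := fun e => h4 (by rw [h5, e])
    refine ⟨fun e => h6 (by rw [e]), ?_⟩
    rw [(dir_T h1.symm h3).resolve_left h6]
    exact h2
  have : IsTrans G r := ⟨tr⟩
  have : Std.Irrefl r := ⟨fun a h => h.1 rfl⟩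
  have : IsStrictOrder G r := {}
  obtain ⟨g, hg, hmin⟩ := (Set.Finite.wellFoundedOn (r := r) hf).has_min univ
    (by obtain ⟨q, hq⟩ := Function.ne_iff.1 hne; exact ⟨⟨q, hq⟩, trivial⟩)
  refine ⟨g.1, g.2, fun q hq => ?_⟩
  by_contra hc
  have h1 : x g.1 = f (dir g.1 q) := (hx q g.1 hq).resolve_left hc
  have h2 : y q = f (dir q g.1) := (hy q g.1 hq).resolve_right fun e => g.2 (h1.trans e.symm)
  exact hmin ⟨q, fun e => hc (e.trans h2)⟩ trivial ⟨hq, hc⟩

theorem exists_sq {x : G → β} (hx : Cl f x) (hf : {q | x q ≠ f (dir q 1)}.Finite) :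
    ∃ g, InSq f x g := by
  by_cases h : x = fun q => f (dir q 1)
  · exact ⟨1, fun q _ => by rw [h]⟩
  · obtain ⟨g, -, hg⟩ := min_block hx (InSq.cl (g := 1) fun q _ => rfl) hf h
    exact ⟨g, hg⟩

theorem sq_fin (hf : Function.Injective f) (x : G → β) : {g | InSq f x g}.Finite := by
  rcases eq_empty_or_nonempty {g | InSq f x g} with h | ⟨g, hg⟩
  · rw [h]; exact finite_empty
  refine ((finite_range fun s => g * lt s).insert g).subset fun g' hg' => ?_
  by_contra hn
  simp only [mem_insert_iff, mem_range, not_or, not_exists] at hn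
  have h1 : g * lt (dir g g') ≠ g := by
    intro e
    have := congrArg FreeGroup.toWord (mul_eq_left.1 e)
    simp [lt] at this
  have h2 := hg _ h1
  have h3 := hg' _ (hn.2 (dir g g'))
  rw [dir_lt'] at h2
  exact dir_N hn.1 (Ne.symm (hn.2 _)) rfl (hf (h3.symm.trans h2))

end generic

end Pool.Agent.H659Z.Cub
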