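import Mathlib
import Pool.Agent.H659Z.CubDefs
import Pool.Agent.H659Z.CubTree
import Pool.Agent.H659Z.CubNorm

set_option autoImplicit false

open Set

namespace Pool.Agent.H659Z.Cub

abbrev HH := Bool × G × Bool

def cor (s : Bool × Bool) : Bool → Bool := fun i => if i then s.1 else s.2

theorem cor_inj : Function.Injective cor := fun s t h =>
  Prod.ext (congrFun h true) (congrFun h false)

def corR (s : Bool × Bool) : Bool → ℝ := fun i => if cor s i then 1 else 0

def blk {α : Type} (x : HH → α) (c : Bool) (q : G) : Bool → α := fun i => x (c, q, i)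

theorem InSq.fin {β : Type} {f : Bool × Bool → β} {x : G → β} {g : G} (h : InSq f x g) :
    {q | x q ≠ f (dir q 1)}.Finite := by
  refine ((dir_fin g).insert g).subset fun q hq => ?_
  by_contra hn
  simp only [mem_insert_iff, mem_ofPred_eq, not_or, not_not] at hn
  exact hq (by rw [h q hn.1, hn.2])

def VV : Set (HH → Bool) := {v | ∀ c, Cl cor (blk v c) ∧ {q | blk v c q ≠ cor (dir q 1)}.Finite}

theorem diff_fin {u v : HH → Bool} (hu : u ∈ VV) (hv : v ∈ VV) : {h | u h ≠ v h}.Finite := by
  refine (finite_iUnion fun c : Bool => finite_iUnion fun i : Bool =>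
    (((hu c).2.union (hv c).2).image fun q => ((c, q, i) : HH))).subset ?_
  rintro ⟨c, q, i⟩ hh
  simp only [mem_iUnion, mem_image]
  refine ⟨c, i, q, ?_, rfl⟩
  by_contra hn
  simp only [mem_union, mem_ofPred_eq, not_or, not_not] at hn
  exact hh (congrFun (hn.1.trans hn.2.symm) i)

theorem blk_fin {β : Type} {f : Bool × Bool → β} {x y : G → β} (hx : {q | x q ≠ f (dir q 1)}.Finite)
    (hy : {q | y q ≠ f (dir q 1)}.Finite) : {q | x q ≠ y q}.Finite := by
  refine (hx.union hy).subset fun q hq => ?_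
  by_contra hn
  simp only [mem_union, mem_ofPred_eq, not_or, not_not] at hn
  exact hq (hn.1.trans hn.2.symm)

theorem conn (v : HH → Bool) (hv : v ∈ VV) : ∀ (n : ℕ) (u : HH → Bool), u ∈ VV →
    {h | u h ≠ v h}.ncard = n → Relation.ReflTransGen (fun a b => b ∈ VV ∧ Adj a b) u v := by
  intro n
  induction n using Nat.strong_induction_on with
  | _ n ih =>
    intro u hu hn
    by_cases e : u = v
    · rw [e]
    obtain ⟨⟨c, q, i⟩, hh⟩ := Function.ne_iff.1 e
    obtain ⟨g, hg, hs⟩ := min_block (hu c).1 (hv c).1 (blk_fin (hu c).2 (hv c).2)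
      (fun e => hh (congrFun (congrFun e q) i))
    obtain ⟨j, hj⟩ := Function.ne_iff.1 hg
    let w := Function.update u (c, g, j) (v (c, g, j))
    have hw : w ∈ VV := by
      intro c'
      by_cases hc : c' = c
      · subst hc
        have : InSq cor (blk w c') g := fun q hq => by
          rw [← hs q hq]; ext k; simp [w, blk, hq]
        exact ⟨this.cl, this.fin⟩
      · have : blk w c' = blk u c' := by ext q k; simp [w, blk, hc]
        rw [this]; exact hu c'
    refine Relation.ReflTransGen.head ⟨hw, (c, g, j), fun k hk => by simp [w, hk]⟩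
      (ih _ ?_ w hw rfl)
    rw [← hn]
    refine ncard_lt_ncard ⟨fun k hk => ?_, fun hsub => ?_⟩ (diff_fin hu hv)
    · by_cases e : k = (c, g, j)
      · subst e; simp [w] at hk
      · simpa [w, e] using hk
    · have := hsub (show (c, g, j) ∈ {h | u h ≠ v h} from hj)
      simp [w] at this

theorem maj_blk {u v w : HH → Bool} {c : Bool} {q : G} {a : Bool → Bool}
    (h : (blk u c q = a ∧ blk v c q = a) ∨ (blk v c q = a ∧ blk w c q = a) ∨
      (blk w c q = a ∧ blk u c q = a)) : blk (fun h => maj (u h) (v h) (w h)) c q = a := by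
  ext i
  rcases h with ⟨h1, h2⟩ | ⟨h1, h2⟩ | ⟨h1, h2⟩ <;>
  · have e1 := congrFun h1 i
    have e2 := congrFun h2 i
    simp only [blk, maj] at e1 e2 ⊢
    rw [e1, e2]
    cases a i <;> simp

def vtx (g : Bool → G) : HH → Bool := fun h => cor (dir h.2.1 (g h.1)) h.2.2

theorem mem_VV {v : HH → Bool} {g : Bool → G} (h : ∀ c, InSq cor (blk v c) (g c)) : v ∈ VV :=
  fun c => ⟨(h c).cl, (h c).fin⟩

/-- the product of two trees of squares -/
def CC : CubeComplex HH where
  V := VV
  nonempty := ⟨vtx 1, mem_VV (g := 1) fun _ _ _ => rfl⟩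
  median u hu v hv w hw c := by
    refine ⟨fun q q' hq => ?_, (((hu c).2.union (hv c).2).subset fun q hq => ?_)⟩
    · have h1 := (hu c).1 q q' hq
      have h2 := (hv c).1 q q' hq
      have h3 := (hw c).1 q q' hq
      by_contra hn
      rw [not_or] at hn
      have n1 := fun h => hn.1 (maj_blk h)
      have n2 := fun h => hn.2 (maj_blk h)
      tauto
    · by_contra hn
      simp only [mem_union, mem_ofPred_eq, not_or, not_not] at hn
      exact hq (maj_blk (Or.inl hn))
  connected u hu v hv := conn v hv _ u hu rfl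

noncomputable def bigA (g : Bool → G) : Finset HH :=
  Finset.univ.image fun ci : Bool × Bool => (ci.1, g ci.1, ci.2)

theorem mem_bigA {g : Bool → G} {h : HH} : h ∈ bigA g ↔ h.2.1 = g h.1 := by
  obtain ⟨c, q, i⟩ := h
  simp only [bigA, Finset.mem_image, Finset.mem_univ, true_and, Prod.mk.injEq, Prod.exists]
  constructor
  · rintro ⟨a, b, rfl, rfl, rfl⟩; rfl
  · intro e; exact ⟨c, i, rfl, e.symm, rfl⟩

theorem isCube_big (g : Bool → G) : CC.IsCube (vtx g) (bigA g) := fun w hw =>
  mem_VV (g := g) fun c q hq => funext fun i => hw (c, q, i) fun e => hq (mem_bigA.1 e)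

theorem mem_big {g : Bool → G} {x : HH → ℝ} (h1 : ∀ h, x h ∈ Icc (0 : ℝ) 1)
    (h2 : ∀ c, InSq corR (blk x c) (g c)) : x ∈ cell (vtx g) (bigA g) :=
  ⟨fun h _ => h1 h, fun h hh => congrFun (h2 h.1 h.2.1 fun e => hh (mem_bigA.2 e)) h.2.2⟩

theorem cube_cl {v : HH → Bool} {A : Finset HH} (hc : CC.IsCube v A) (c : Bool) {q q' : G}
    (hq : q ≠ q') : (∀ i, (c, q, i) ∉ A ∧ v (c, q, i) = cor (dir q q') i) ∨
      (∀ i, (c, q', i) ∉ A ∧ v (c, q', i) = cor (dir q' q) i) := by
  let w : HH → Bool := fun h => if h ∈ A then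
    (if h.2.1 = q then !cor (dir q q') h.2.2 else !cor (dir q' q) h.2.2) else v h
  have hw : w ∈ VV := hc w fun h hh => by simp [w, hh]
  rcases (hw c).1 q q' hq with h | h
  · refine Or.inl fun i => ?_
    have := congrFun h i
    by_cases hA : (c, q, i) ∈ A
    · simp [blk, w, hA] at this
    · exact ⟨hA, by simpa [blk, w, hA] using this⟩
  · refine Or.inr fun i => ?_
    have := congrFun h i
    by_cases hA : (c, q', i) ∈ A
    · simp [blk, w, hA, hq.symm] at this
    · exact ⟨hA, by simpa [blk, w, hA] using this⟩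

theorem cube_block {v : HH → Bool} {A : Finset HH} (hc : CC.IsCube v A) :
    ∃ g : Bool → G, A ⊆ bigA g := by
  have : ∀ c, ∃ g, ∀ h ∈ A, h.1 = c → h.2.1 = g := by
    intro c
    by_cases h0 : ∃ h ∈ A, h.1 = c
    · obtain ⟨⟨c0, q0, i0⟩, hA, rfl⟩ := h0
      refine ⟨q0, ?_⟩
      rintro ⟨c1, q, i⟩ hA' rfl
      by_contra hq
      rcases cube_cl hc c1 hq with h | h
      · exact (h i).1 hA'
      · exact (h i0).1 hA
    · exact ⟨1, fun h hA e => absurd ⟨h, hA, e⟩ h0⟩
  choose g hg using this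
  exact ⟨g, fun h hA => mem_bigA.2 (hg _ h hA rfl)⟩

abbrev PP := CC.Pt

theorem pt_Icc (x : PP) (h : HH) : x.1 h ∈ Icc (0 : ℝ) 1 := by
  obtain ⟨v, A, -, h1, h2⟩ := x.2
  by_cases hA : h ∈ A
  · exact h1 h hA
  · rw [h2 h hA]; split_ifs <;> simp

theorem pt_cl (x : PP) (c : Bool) : Cl corR (blk x.1 c) := by
  obtain ⟨v, A, hc, -, h2⟩ := x.2
  intro q q' hq
  rcases cube_cl hc c hq with h | h
  · left; ext i; rw [blk, h2 _ (h i).1, (h i).2]; rfl
  · right; ext i; rw [blk, h2 _ (h i).1, (h i).2]; rfl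

theorem pt_fin (x : PP) (c : Bool) : {q | blk x.1 c q ≠ corR (dir q 1)}.Finite := by
  obtain ⟨v, A, hc, -, h2⟩ := x.2
  have hv : v ∈ VV := hc v fun _ _ => rfl
  refine ((hv c).2.union (A.finite_toSet.image fun h => h.2.1)).subset fun q hq => ?_
  by_contra hn
  simp only [mem_union, mem_ofPred_eq, not_or, not_not, mem_image, not_exists, not_and] at hn
  apply hq
  ext i
  rw [blk, h2 _ fun e => hn.2 _ e rfl]
  have := congrFun hn.1 i
  rw [blk] at this
  rw [this]; rfl

theorem pt_sq (x : PP) (c : Bool) : ∃ g, InSq corR (blk x.1 c) g := exists_sq (pt_cl x c) (pt_fin x c)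

def mkPt (g : Bool → G) (x : HH → ℝ) (h1 : ∀ h, x h ∈ Icc (0 : ℝ) 1)
    (h2 : ∀ c, InSq corR (blk x c) (g c)) : PP := ⟨x, _, _, isCube_big g, mem_big h1 h2⟩

theorem locFin : CC.LocallyFinite := by
  intro v hv
  have hf : (⋃ c : Bool, ⋃ i : Bool, (fun q => ((c, q, i) : HH)) '' {g | InSq cor (blk v c) g}).Finite :=
    finite_iUnion fun c => finite_iUnion fun i => (sq_fin cor_inj _).image _
  refine ((hf.image fun h => Function.update v h (!v h)).insert v).subset ?_
  rintro w ⟨hw, ⟨c, q, i⟩, hh⟩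
  by_cases e : w (c, q, i) = v (c, q, i)
  · left
    ext k
    by_cases hk : k = (c, q, i)
    · rw [hk, e]
    · exact (hh k hk).symm
  · right
    refine ⟨(c, q, i), ?_, ?_⟩
    · simp only [mem_iUnion, mem_image]
      refine ⟨c, i, q, fun q' hq' => ?_, rfl⟩
      have e1 : blk w c q' = blk v c q' := funext fun j => (hh _ (by simp [hq'])).symm
      rcases (hv c).1 q' q hq' with h1 | h1
      · exact h1
      rcases (hw c).1 q' q hq' with h2 | h2
      · rw [← e1, h2]
      exact absurd (congrFun (h2.trans h1.symm) i) e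
    · ext k
      by_cases hk : k = (c, q, i)
      · subst hk
        simp only [Function.update_self]
        revert e
        cases w (c, q, i) <;> cases v (c, q, i) <;> simp
      · simp only [Function.update_of_ne hk]; exact hh k hk

def tr (g : Bool → G) : Equiv.Perm HH where
  toFun h := (h.1, g h.1 * h.2.1, h.2.2)
  invFun h := (h.1, (g h.1)⁻¹ * h.2.1, h.2.2)
  left_inv h := by simp
  right_inv h := by simp

theorem InSq.tr {α : Type} {f : Bool × Bool → Bool → α} {x : HH → α} {g : Bool → G} {c : Bool} {k : G}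
    (h : InSq f (blk x c) (g c * k)) : InSq f (blk (x ∘ tr g) c) k := fun q hq => by
  rw [← dir_mul (g c), ← h _ fun e => hq (mul_left_cancel e)]; rfl

theorem tr_mem {v : HH → Bool} (hv : v ∈ VV) (g : Bool → G) : v ∘ tr g ∈ VV := by
  choose k hk using fun c => exists_sq (hv c).1 (hv c).2
  exact mem_VV (g := fun c => (g c)⁻¹ * k c) fun c => InSq.tr (by simpa using hk c)

theorem cocompact : CC.Cocompact := by
  refine ⟨{(vtx 1, bigA 1)}, finite_singleton _, ?_, fun x => ?_⟩
  · rintro _ rfl; exact isCube_big 1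
  choose g hg using pt_sq x
  refine ⟨tr g, fun v => ⟨fun hv => ?_, fun hv => tr_mem hv g⟩, _, rfl,
    mem_big (fun h => pt_Icc x _) fun c => InSq.tr (by simpa using hg c)⟩
  have : v = (v ∘ tr g) ∘ tr g⁻¹ := by
    ext h; simp [tr]
  rw [this]
  exact tr_mem hv _

end Pool.Agent.H659Z.Cub
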