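import Mathlib
import Pool.Agent.H659Z.CubCx

set_option autoImplicit false

open Set

namespace Pool.Agent.H659Z.Cub

variable {p : ℝ}

noncomputable def FF (p : ℝ) (x y : PP) (c : Bool) : ℝ := ∑ᶠ q, N p (blk x.1 c q - blk y.1 c q)

noncomputable def DD (p : ℝ) (x y : PP) : ℝ := N p (FF p x y)

theorem FF_eq (hp : 1 < p) {x y : PP} {c : Bool} {S : Finset G}
    (h : ∀ q, q ∉ S → blk x.1 c q = blk y.1 c q) :
    FF p x y c = ∑ q ∈ S, N p (blk x.1 c q - blk y.1 c q) := by
  refine finsum_eq_sum_of_support_subset _ fun q hq => ?_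
  by_contra hn
  exact hq (by simp only [h q hn, sub_self, N_zero hp])

theorem exS (x y z : PP) (c : Bool) (g : G) : ∃ S : Finset G, g ∈ S ∧ ∀ q, q ∉ S →
    blk x.1 c q = blk y.1 c q ∧ blk y.1 c q = blk z.1 c q := by
  refine ⟨((((pt_fin x c).union (pt_fin y c)).union (pt_fin z c)).insert g).toFinset, by simp,
    fun q hq => ?_⟩
  simp only [Finite.mem_toFinset, mem_insert_iff, mem_union, mem_ofPred_eq, not_or, not_not] at hq
  exact ⟨hq.2.1.1.trans hq.2.1.2.symm, hq.2.1.2.trans hq.2.2.symm⟩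

theorem le_FF (hp : 1 < p) (x y : PP) (c : Bool) (g : G) :
    N p (blk x.1 c g - blk y.1 c g) ≤ FF p x y c := by
  obtain ⟨S, hg, hS⟩ := exS x y y c g
  rw [FF_eq hp fun q hq => (hS q hq).1]
  exact Finset.single_le_sum (f := fun q => N p (blk x.1 c q - blk y.1 c q)) (fun q _ => N_nonneg _) hg

theorem FF_nonneg (hp : 1 < p) (x y : PP) (c : Bool) : 0 ≤ FF p x y c :=
  (N_nonneg _).trans (le_FF hp x y c 1)

theorem FF_comm (x y : PP) : FF p x y = FF p y x := by
  ext c; simp only [FF]; congr 1; ext q; exact N_sub_comm _ _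

theorem DD_comm (x y : PP) : DD p x y = DD p y x := by rw [DD, FF_comm]; rfl

theorem FF_tri (hp : 1 < p) (x y z : PP) (c : Bool) : FF p x z c ≤ FF p x y c + FF p y z c ∧
    (FF p x z c = FF p x y c + FF p y z c → ∀ q, N p (blk x.1 c q - blk z.1 c q)
      = N p (blk x.1 c q - blk y.1 c q) + N p (blk y.1 c q - blk z.1 c q)) := by
  have h1 : ∀ q, N p (blk x.1 c q - blk z.1 c q)
      ≤ N p (blk x.1 c q - blk y.1 c q) + N p (blk y.1 c q - blk z.1 c q) := fun q => by
    simpa using N_add hp (blk x.1 c q - blk y.1 c q) (blk y.1 c q - blk z.1 c q)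
  constructor
  · obtain ⟨S, -, hS⟩ := exS x y z c 1
    rw [FF_eq hp fun q hq => (hS q hq).1, FF_eq hp fun q hq => (hS q hq).2,
      FF_eq hp fun q hq => (hS q hq).1.trans (hS q hq).2, ← Finset.sum_add_distrib]
    exact Finset.sum_le_sum fun q _ => h1 q
  · intro e q
    obtain ⟨S, hq, hS⟩ := exS x y z c q
    rw [FF_eq hp fun q hq => (hS q hq).1.trans (hS q hq).2, FF_eq hp fun q hq => (hS q hq).1,
      FF_eq hp fun q hq => (hS q hq).2, ← Finset.sum_add_distrib] at e
    exact (Finset.sum_eq_sum_iff_of_le fun q _ => h1 q).1 e q hq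

theorem DD_nonneg (x y : PP) : 0 ≤ DD p x y := N_nonneg _

theorem DD_tri (hp : 1 < p) (x y z : PP) : DD p x z ≤ DD p x y + DD p y z :=
  (N_mono hp (FF_nonneg hp x z) fun c => (FF_tri hp x y z c).1).trans (N_add hp _ _)

theorem FF_self (hp : 1 < p) (x : PP) : FF p x x = 0 := by
  ext c; rw [FF_eq hp (S := ∅) fun _ _ => rfl]; simp

theorem DD_self (hp : 1 < p) (x : PP) : DD p x x = 0 := by rw [DD, FF_self hp, N_zero hp]

theorem FF_le_DD (hp : 1 < p) (x y : PP) (c : Bool) : FF p x y c ≤ DD p x y :=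
  (le_abs_self _).trans (abs_le_N hp _ c)

theorem blk_eq_of_FF (hp : 1 < p) {x y : PP} {c : Bool} (h : FF p x y c = 0) (q : G) :
    blk x.1 c q = blk y.1 c q :=
  sub_eq_zero.1 (eq_zero_of_N hp (le_antisymm (h ▸ le_FF hp x y c q) (N_nonneg _)))

theorem pt_ext {x y : PP} (h : ∀ c q, blk x.1 c q = blk y.1 c q) : x = y :=
  Subtype.ext (funext fun k => congrFun (h k.1 k.2.1) k.2.2)

theorem eq_of_DD (hp : 1 < p) {x y : PP} (h : DD p x y = 0) : x = y :=
  pt_ext fun c => blk_eq_of_FF hp (congrFun (eq_zero_of_N hp h) c)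

theorem DD_cell (hp : 1 < p) {x y : PP} {v : HH → Bool} {A : Finset HH} (hc : CC.IsCube v A)
    (hx : x.1 ∈ cell v A) (hy : y.1 ∈ cell v A) :
    (∑ h ∈ A, |x.1 h - y.1 h| ^ p) ^ (1 / p) = DD p x y := by
  obtain ⟨g, hg⟩ := cube_block hc
  have hxy : ∀ h, h ∉ A → x.1 h = y.1 h := fun h hh => (hx.2 h hh).trans (hy.2 h hh).symm
  have hF : ∀ c, FF p x y c = N p (blk x.1 c (g c) - blk y.1 c (g c)) := fun c => by
    rw [FF_eq hp (S := {g c}) fun q hq => funext fun i => hxy _ fun hA =>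
      hq (Finset.mem_singleton.2 (mem_bigA.1 (hg hA))), Finset.sum_singleton]
  rw [DD, N]
  congr 1
  rw [Finset.sum_subset hg fun h _ hh => by
    rw [hxy h hh, sub_self, abs_zero, Real.zero_rpow (by linarith)]]
  rw [bigA, Finset.sum_image fun a _ b _ e => by
    simp only [Prod.mk.injEq] at e; exact Prod.ext e.1 e.2.2, Fintype.sum_prod_type]
  refine Finset.sum_congr rfl fun c _ => ?_
  rw [hF, abs_of_nonneg (N_nonneg _), N_pow hp]
  rfl

theorem chain_ge (hp : 1 < p) {x y : PP} {l : ℝ} (h : CC.Chain p x y l) : DD p x y ≤ l := by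
  induction h with
  | refl x => exact (DD_self hp x).le
  | step x y z l v A hc hx hy _ ih =>
    rw [DD_cell hp hc hx hy]
    exact (DD_tri hp x y z).trans (by linarith)

def dset (x y : PP) : Set (Bool × G) := {k | blk x.1 k.1 k.2 ≠ blk y.1 k.1 k.2}

theorem dset_fin (x y : PP) : (dset x y).Finite := by
  refine (finite_iUnion fun c : Bool =>
    ((blk_fin (pt_fin x c) (pt_fin y c)).image fun q => (c, q))).subset ?_
  rintro ⟨c, q⟩ h
  simp only [mem_iUnion, mem_image]
  exact ⟨c, q, h, rfl⟩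

theorem step (hp : 1 < p) {x y : PP} (hne : x ≠ y) : ∃ μ : ℝ, 0 < μ ∧ μ ≤ 1 ∧ ∀ ν, 0 ≤ ν → ν ≤ μ →
    ∃ z : PP, (∃ v A, CC.IsCube v A ∧ x.1 ∈ cell v A ∧ z.1 ∈ cell v A) ∧
      DD p x z = ν * DD p x y ∧ DD p z y = (1 - ν) * DD p x y ∧ (ν = μ → dset z y ⊂ dset x y) := by
  have hg : ∀ c, ∃ g, InSq corR (blk x.1 c) g ∧ (blk x.1 c g = blk y.1 c g → FF p x y c = 0) := by
    intro c
    by_cases e : blk x.1 c = blk y.1 c
    · obtain ⟨g, hg⟩ := pt_sq x c
      refine ⟨g, hg, fun _ => ?_⟩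
      rw [FF_eq hp (S := ∅) fun q _ => congrFun e q]; simp
    · obtain ⟨g, h1, h2⟩ := min_block (pt_cl x c) (pt_cl y c) (blk_fin (pt_fin x c) (pt_fin y c)) e
      exact ⟨g, h2, fun h => absurd h h1⟩
  choose g hg hz using hg
  set f := FF p x y with hf
  set l : Bool → ℝ := fun c => N p (blk x.1 c (g c) - blk y.1 c (g c)) with hl
  have f0 : ∀ c, 0 ≤ f c := FF_nonneg hp x y
  have lf : ∀ c, l c ≤ f c := fun c => le_FF hp x y c _
  have l0 : ∀ c, 0 ≤ l c := fun c => N_nonneg _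
  have lp : ∀ c, 0 < f c → 0 < l c := fun c h => N_pos hp fun e => h.ne' (hz c (sub_eq_zero.1 e))
  obtain ⟨c0, hc0, hmin⟩ := Finset.exists_min_image (Finset.univ.filter fun c => 0 < f c)
    (fun c => l c / f c) (by
      by_contra hn
      rw [Finset.not_nonempty_iff_eq_empty, Finset.filter_eq_empty_iff] at hn
      exact hne (pt_ext fun c => blk_eq_of_FF hp
        (le_antisymm (not_lt.1 (hn (Finset.mem_univ c))) (f0 c))))
  have hf0 : 0 < f c0 := (Finset.mem_filter.1 hc0).2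
  refine ⟨l c0 / f c0, div_pos (lp c0 hf0) hf0, (div_le_one hf0).2 (lf c0), fun ν h0 h1 => ?_⟩
  have hνl : ∀ c, ν * f c ≤ l c := fun c => by
    rcases (f0 c).eq_or_lt with h | h
    · rw [← h, mul_zero]; exact l0 c
    · exact (le_div_iff₀ h).1 (h1.trans (hmin c (Finset.mem_filter.2 ⟨Finset.mem_univ c, h⟩)))
  set θ : Bool → ℝ := fun c => ν * f c / l c with hθ
  have θ0 : ∀ c, 0 ≤ θ c := fun c => div_nonneg (mul_nonneg h0 (f0 c)) (l0 c)
  have θ1 : ∀ c, θ c ≤ 1 := fun c => div_le_one_of_le₀ (hνl c) (l0 c)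
  have θl : ∀ c, θ c * l c = ν * f c := fun c => by
    rcases (f0 c).eq_or_lt with h | h
    · simp [hθ, ← h]
    · exact div_mul_cancel₀ _ (lp c h).ne'
  let w : HH → ℝ := fun h => if h.2.1 = g h.1 then x.1 h + θ h.1 * (y.1 h - x.1 h) else x.1 h
  have w1 : ∀ h, w h ∈ Icc (0 : ℝ) 1 := fun h => by
    have a := pt_Icc x h
    have b := pt_Icc y h
    have c := θ0 h.1
    have d := θ1 h.1
    simp only [w]
    split_ifs
    · constructor <;> nlinarith [a.1, a.2, b.1, b.2]
    · exact a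
  have w2 : ∀ c q, q ≠ g c → blk w c q = blk x.1 c q := fun c q hq => by
    ext i; simp [blk, w, hq]
  have w3 : ∀ c, blk w c (g c) = blk x.1 c (g c) - θ c • (blk x.1 c (g c) - blk y.1 c (g c)) :=
    fun c => by ext i; simp [blk, w]; ring
  have w4 : ∀ c, InSq corR (blk w c) (g c) := fun c q hq => by rw [w2 c q hq, hg c q hq]
  let z : PP := mkPt g w w1 w4
  have hz1 : z.1 = w := rfl
  have F1 : FF p x z = ν • f := by
    ext c
    rw [FF_eq hp (S := {g c}) fun q hq => (w2 c q (by simpa using hq)).symm, Finset.sum_singleton, hz1,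
      w3, sub_sub_cancel, N_smul hp, abs_of_nonneg (θ0 c)]
    exact θl c
  have F2 : FF p z y = (1 - ν) • f := by
    ext c
    obtain ⟨S, hS, hS'⟩ := exS z x y c (g c)
    have e1 : f c = ∑ q ∈ S, N p (blk x.1 c q - blk y.1 c q) := FF_eq hp fun q hq => (hS' q hq).2
    rw [← Finset.add_sum_erase _ _ hS] at e1
    rw [FF_eq hp fun q hq => (hS' q hq).1.trans (hS' q hq).2, ← Finset.add_sum_erase _ _ hS, hz1,
      Finset.sum_congr rfl fun q hq => by rw [w2 c q (Finset.ne_of_mem_erase hq)], w3]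
    have e2 : blk x.1 c (g c) - θ c • (blk x.1 c (g c) - blk y.1 c (g c)) - blk y.1 c (g c)
        = (1 - θ c) • (blk x.1 c (g c) - blk y.1 c (g c)) := by module
    rw [e2, N_smul hp, abs_of_nonneg (by linarith [θ1 c])]
    have := θl c
    simp only [hl, Pi.smul_apply, smul_eq_mul] at this ⊢
    linarith
  have hν1 : ν ≤ 1 := h1.trans ((div_le_one hf0).2 (lf c0))
  refine ⟨z, ⟨_, _, isCube_big g, mem_big (pt_Icc x) hg, mem_big w1 w4⟩, ?_, ?_, fun e => ⟨?_, ?_⟩⟩
  · rw [DD, F1, N_smul hp, abs_of_nonneg h0]; rfl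
  · rw [DD, F2, N_smul hp, abs_of_nonneg (by linarith)]; rfl
  · rintro ⟨c, q⟩ h e'
    apply h
    simp only at e' ⊢
    rw [hz1]
    by_cases hq : q = g c
    · subst hq; rw [w3, e']; simp
    · rw [w2 c q hq, e']
  · intro hsub
    have h2 : (c0, g c0) ∈ dset x y := fun e' => hf0.ne' (hz c0 e')
    apply hsub h2
    have : θ c0 = 1 := by
      simp only [hθ, e]
      have := lp c0 hf0
      field_simp
    simp only [hz1, w3, this]
    simp

theorem main_ind (hp : 1 < p) (y : PP) : ∀ (n : ℕ) (x : PP), (dset x y).ncard = n →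
    CC.Chain p x y (DD p x y) ∧ ∀ t, 0 ≤ t → t ≤ 1 →
      ∃ m, DD p x m = t * DD p x y ∧ DD p m y = (1 - t) * DD p x y := by
  intro n
  induction n using Nat.strong_induction_on with
  | _ n ih =>
    intro x hn
    by_cases e : x = y
    · subst e
      rw [DD_self hp]
      exact ⟨CubeComplex.Chain.refl x, fun t _ _ => ⟨x, by simp [DD_self hp]⟩⟩
    obtain ⟨μ, h0, h1, H⟩ := step hp e
    obtain ⟨z, ⟨v, A, hc, hx, hz⟩, e1, e2, hs⟩ := H μ h0.le le_rfl
    obtain ⟨i1, i2⟩ := ih _ (hn ▸ ncard_lt_ncard (hs rfl) (dset_fin x y)) z rfl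
    constructor
    · have := CubeComplex.Chain.step x z y _ v A hc hx hz i1
      rwa [DD_cell hp hc hx hz, e1, e2, ← add_mul, add_sub_cancel, one_mul] at this
    · intro t t0 t1
      by_cases ht : t ≤ μ
      · obtain ⟨m, -, a, b, -⟩ := H t t0 ht
        exact ⟨m, a, b⟩
      have hμ : 0 < 1 - μ := by linarith
      obtain ⟨m, a, b⟩ := i2 ((t - μ) / (1 - μ)) (div_nonneg (by linarith) hμ.le)
        ((div_le_one hμ).2 (by linarith))
      rw [e2] at a b
      have a' : DD p z m = (t - μ) * DD p x y := by rw [a]; field_simp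
      have b' : DD p m y = (1 - t) * DD p x y := by rw [b]; field_simp; ring
      refine ⟨m, le_antisymm ?_ ?_, b'⟩
      · have := DD_tri hp x z m; linarith
      · have := DD_tri hp x m y; linarith

theorem dist_eq (hp : 1 < p) : CC.dist p = DD p := by
  ext x y
  exact IsLeast.csInf_eq ⟨(main_ind hp y _ x rfl).1, fun l hl => chain_ge hp hl⟩

theorem btw_FF (hp : 1 < p) {x m y : PP} (h : DD p x m + DD p m y = DD p x y) (c : Bool) :
    FF p x y c = FF p x m c + FF p m y c ∧ FF p x m c * DD p x y = DD p x m * FF p x y c := by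
  have h1 : N p (FF p x y) ≤ N p (FF p x m + FF p m y) :=
    N_mono hp (FF_nonneg hp x y) fun c => (FF_tri hp x m y c).1
  have h2 := N_add hp (FF p x m) (FF p m y)
  unfold DD at h ⊢
  have h3 := congrFun (N_mono_eq hp (FF_nonneg hp x y) (v := FF p x m + FF p m y)
    (fun c => (FF_tri hp x m y c).1) (by linarith)) c
  have h4 := congrFun (N_strict hp (u := FF p x m) (v := FF p m y) (by linarith)) c
  simp only [Pi.add_apply, Pi.smul_apply, smul_eq_mul] at h3 h4
  refine ⟨h3, ?_⟩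
  rw [h3, ← h]
  linarith

theorem seg_of_N (hp : 1 < p) {a b m : Bool → ℝ} (h : N p (a - b) = N p (a - m) + N p (m - b)) :
    N p (a - b) • (a - m) = N p (a - m) • (a - b) := by
  have := N_strict hp (u := a - m) (v := m - b) (by simpa using h)
  rw [h, add_smul, this]
  module

theorem btw_unique (hp : 1 < p) {x y m m' : PP} (h : DD p x m + DD p m y = DD p x y)
    (h' : DD p x m' + DD p m' y = DD p x y) (e : DD p x m = DD p x m') : m = m' := by
  by_cases hxy : DD p x y = 0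
  · have a := DD_nonneg (p := p) m y
    have b := DD_nonneg (p := p) x m
    have c := DD_nonneg (p := p) m' y
    rw [← eq_of_DD hp (show DD p x m = 0 by linarith), ← eq_of_DD hp (show DD p x m' = 0 by linarith)]
  refine pt_ext fun c => ?_
  have eF : FF p x m c = FF p x m' c :=
    mul_right_cancel₀ hxy (by rw [(btw_FF hp h c).2, (btw_FF hp h' c).2, e])
  have s1 := (FF_tri hp x m y c).2 (btw_FF hp h c).1
  have s2 := (FF_tri hp x m' y c).2 (btw_FF hp h' c).1
  have key : ∀ {m m' : PP}, (∀ q, N p (blk x.1 c q - blk y.1 c q)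
      = N p (blk x.1 c q - blk m.1 c q) + N p (blk m.1 c q - blk y.1 c q)) →
      (∀ q, N p (blk x.1 c q - blk y.1 c q)
      = N p (blk x.1 c q - blk m'.1 c q) + N p (blk m'.1 c q - blk y.1 c q)) → ∀ q q', q ≠ q' →
      N p (blk x.1 c q - blk m.1 c q) < N p (blk x.1 c q - blk m'.1 c q) →
      N p (blk x.1 c q' - blk m'.1 c q') < N p (blk x.1 c q' - blk m.1 c q') →
      blk x.1 c q ≠ corR (dir q q') := by
    intro m m' s1 s2 q q' hq l1 l2 hx
    have n1 := N_nonneg (p := p) (blk x.1 c q - blk m.1 c q)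
    have n2 := N_nonneg (p := p) (blk m'.1 c q - blk y.1 c q)
    have n3 := N_nonneg (p := p) (blk m.1 c q' - blk y.1 c q')
    have y1 : blk y.1 c q' = corR (dir q' q) := (pt_cl y c q q' hq).resolve_left fun e => by
      have := s2 q
      rw [hx, e, sub_self, N_zero hp] at this
      rw [hx] at l1 n1
      rw [e] at n2
      linarith
    have y2 : blk m'.1 c q' = corR (dir q' q) := (pt_cl m' c q q' hq).resolve_left fun e => by
      rw [hx, e, sub_self, N_zero hp] at l1
      rw [hx] at n1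
      linarith
    have := s1 q'
    rw [y1] at this n3
    rw [y2] at l2
    linarith
  have tot : ∀ {m m' : PP}, FF p x m c = FF p x m' c →
      (∀ q, N p (blk x.1 c q - blk m.1 c q) ≤ N p (blk x.1 c q - blk m'.1 c q)) → ∀ q,
      N p (blk x.1 c q - blk m.1 c q) = N p (blk x.1 c q - blk m'.1 c q) := by
    intro m m' eF hle q
    obtain ⟨S, hq, hS⟩ := exS m x m' c q
    rw [FF_eq hp fun q hq => (hS q hq).1.symm, FF_eq hp fun q hq => (hS q hq).2] at eF
    exact (Finset.sum_eq_sum_iff_of_le fun q _ => hle q).1 eF q hq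
  have all : ∀ q, N p (blk x.1 c q - blk m.1 c q) = N p (blk x.1 c q - blk m'.1 c q) := by
    by_cases h1 : ∀ q, N p (blk x.1 c q - blk m.1 c q) ≤ N p (blk x.1 c q - blk m'.1 c q)
    · exact tot eF h1
    by_cases h2 : ∀ q, N p (blk x.1 c q - blk m'.1 c q) ≤ N p (blk x.1 c q - blk m.1 c q)
    · exact fun q => (tot eF.symm h2 q).symm
    push Not at h1 h2
    obtain ⟨q', l2⟩ := h1
    obtain ⟨q, l1⟩ := h2
    have hq : q ≠ q' := fun e => by subst e; linarith
    rcases pt_cl x c q q' hq with hx | hx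
    · exact absurd hx (key s1 s2 q q' hq l1 l2)
    · exact absurd hx (key s2 s1 q' q hq.symm l2 l1)
  intro q
  have t1 := seg_of_N hp (s1 q)
  have t2 := seg_of_N hp (s2 q)
  by_cases h0 : N p (blk x.1 c q - blk y.1 c q) = 0
  · have a := s1 q
    have n1 := N_nonneg (p := p) (blk x.1 c q - blk m.1 c q)
    have n2 := N_nonneg (p := p) (blk m.1 c q - blk y.1 c q)
    have z1 : N p (blk x.1 c q - blk m.1 c q) = 0 := by linarith
    have z2 := eq_zero_of_N hp z1
    have z3 := eq_zero_of_N hp ((all q).symm.trans z1)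
    rw [sub_eq_zero] at z2 z3
    rw [← z2, ← z3]
  · rw [all q, ← t2] at t1
    exact sub_right_injective (smul_right_injective _ h0 t1)

end Pool.Agent.H659Z.Cub
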