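import Mathlib
import Pool.Agent.H659Z.CubMet

set_option autoImplicit false

open Set Filter Topology
open scoped NNReal

namespace Pool.Agent.H659Z.Cub

variable {p : ℝ} {σ : PP → PP → ℝ → PP}

theorem bic_btw (hσ : IsBicombing (DD p) σ) (x y : PP) {t : ℝ} (t0 : 0 ≤ t) (t1 : t ≤ 1) :
    DD p x (σ x y t) = t * DD p x y ∧ DD p (σ x y t) y = (1 - t) * DD p x y := by
  obtain ⟨h0, h1, h⟩ := hσ x y
  have a := h 0 ⟨le_rfl, zero_le_one⟩ t ⟨t0, t1⟩
  have b := h t ⟨t0, t1⟩ 1 ⟨zero_le_one, le_rfl⟩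
  rw [h0, zero_sub, abs_neg, abs_of_nonneg t0] at a
  rw [h1, abs_sub_comm, abs_of_nonneg (by linarith)] at b
  exact ⟨a, b⟩

theorem bic_eq (hp : 1 < p) (hσ : IsBicombing (DD p) σ) {x y m : PP} {t : ℝ} (t0 : 0 ≤ t) (t1 : t ≤ 1)
    (a : DD p x m = t * DD p x y) (b : DD p m y = (1 - t) * DD p x y) : σ x y t = m := by
  obtain ⟨a', b'⟩ := bic_btw hσ x y t0 t1
  exact btw_unique hp (y := y) (by linarith) (by linarith) (a'.trans a.symm)

theorem exists_bic (hp : 1 < p) : ∃ σ, IsBicombing (DD p) σ := by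
  have h : ∀ (x y : PP) (t : ℝ), ∃ m, 0 ≤ t → t ≤ 1 →
      DD p x m = t * DD p x y ∧ DD p m y = (1 - t) * DD p x y := fun x y t => by
    by_cases ht : 0 ≤ t ∧ t ≤ 1
    · obtain ⟨m, hm⟩ := (main_ind hp y _ x rfl).2 t ht.1 ht.2
      exact ⟨m, fun _ _ => hm⟩
    · exact ⟨x, fun a b => absurd ⟨a, b⟩ ht⟩
  choose σ hσ using h
  refine ⟨σ, fun x y => ⟨?_, ?_, ?_⟩⟩
  · exact (eq_of_DD hp (by simpa using (hσ x y 0 le_rfl zero_le_one).1)).symm
  · exact eq_of_DD hp (by simpa using (hσ x y 1 zero_le_one le_rfl).2)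
  have key : ∀ s t : ℝ, 0 ≤ s → s ≤ t → t ≤ 1 → DD p (σ x y s) (σ x y t) = (t - s) * DD p x y := by
    intro s t s0 st t1
    rcases st.eq_or_lt with rfl | hlt
    · simp [DD_self hp]
    have t0 : 0 < t := by linarith
    obtain ⟨a, b⟩ := hσ x y s s0 (by linarith)
    obtain ⟨a', b'⟩ := hσ x y t t0.le t1
    obtain ⟨c, d⟩ := hσ x (σ x y t) (s / t) (by positivity) ((div_le_one t0).2 st)
    rw [a'] at c d
    have c' : DD p x (σ x (σ x y t) (s / t)) = s * DD p x y := by rw [c]; field_simp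
    have d' : DD p (σ x (σ x y t) (s / t)) (σ x y t) = (t - s) * DD p x y := by rw [d]; field_simp
    have e1 := DD_tri hp (σ x (σ x y t) (s / t)) (σ x y t) y
    have e2 := DD_tri hp x (σ x (σ x y t) (s / t)) y
    rw [← d', btw_unique hp (x := x) (y := y) (m := σ x y s) (m' := σ x (σ x y t) (s / t))
      (by linarith) (by linarith) (a.trans c'.symm)]
  intro s hs t ht
  rcases le_total s t with h | h
  · rw [key s t hs.1 h ht.2, abs_sub_comm, abs_of_nonneg (by linarith)]
  · rw [DD_comm, key t s ht.1 h hs.2, abs_of_nonneg (by linarith)]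

theorem conv (hp : 1 < p) (hσ : IsBicombing (DD p) σ) (x : ℕ → PP) (δ : ℕ → ℝ) (h0 : δ 0 = 0)
    (hx : ∀ m n, m ≤ n → DD p (x m) (x n) = δ n - δ m) (hδ : Tendsto δ atTop atTop) :
    ∃ z, Tendsto (fun n => (Sum.inl (x n) : Bar (DD p) σ (x 0))) atTop
      (@nhds _ (coneTop (DD p) σ (x 0)) z) := by
  have d0 : ∀ n, DD p (x 0) (x n) = δ n := fun n => by rw [hx 0 n n.zero_le, h0, sub_zero]
  have P1 : ∀ (n : ℕ) (t : ℝ≥0), t < δ n → DD p (x 0) (σ (x 0) (x n) (t / δ n)) = t ∧
      DD p (σ (x 0) (x n) (t / δ n)) (x n) = δ n - t := fun n t ht => by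
    have hn : 0 < δ n := t.2.trans_lt ht
    obtain ⟨a, b⟩ := bic_btw hσ (x 0) (x n) (t := t / δ n) (by positivity) ((div_le_one hn).2 ht.le)
    rw [a, b, d0]
    constructor <;> field_simp
  have P2 : ∀ (m n : ℕ) (t : ℝ≥0), m ≤ n → t < δ m → t < δ n →
      σ (x 0) (x m) (t / δ m) = σ (x 0) (x n) (t / δ n) := fun m n t h a b => by
    obtain ⟨a1, a2⟩ := P1 m t a
    obtain ⟨b1, b2⟩ := P1 n t b
    have e1 := DD_tri hp (σ (x 0) (x m) (t / δ m)) (x m) (x n)
    have e2 := DD_tri hp (x 0) (σ (x 0) (x m) (t / δ m)) (x n)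
    have e3 := hx m n h
    have e4 := d0 n
    exact btw_unique hp (x := x 0) (y := x n) (by linarith) (by linarith) (a1.trans b1.symm)
  choose k hk using fun t : ℝ≥0 => (hδ.eventually_gt_atTop t).exists
  let γ : ℝ≥0 → PP := fun t => σ (x 0) (x (k t)) (t / δ (k t))
  have hγ : ∀ (t : ℝ≥0) (n : ℕ), t < δ n → γ t = σ (x 0) (x n) (t / δ n) := fun t n h => by
    rcases le_total (k t) n with h' | h'
    · exact P2 _ _ t h' (hk t) h
    · exact (P2 _ _ t h' h (hk t)).symm
  have γ0 : γ 0 = x 0 := (eq_of_DD hp (P1 _ 0 (hk 0)).1).symm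
  have γd : ∀ s t : ℝ≥0, DD p (γ s) (γ t) = |(s : ℝ) - t| := fun s t => by
    obtain ⟨n, h1, h2⟩ := ((hδ.eventually_gt_atTop s).and (hδ.eventually_gt_atTop t)).exists
    have hn : 0 < δ n := t.2.trans_lt h2
    rw [hγ s n h1, hγ t n h2, (hσ (x 0) (x n)).2.2 _ ⟨by positivity, (div_le_one hn).2 h1.le⟩ _
      ⟨by positivity, (div_le_one hn).2 h2.le⟩, d0, ← sub_div, abs_div, abs_of_pos hn,
      div_mul_cancel₀ _ hn.ne']
  let c : Ray (DD p) σ (x 0) := ⟨γ, γ0, γd, fun T hT s hs => by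
    have hT' : (0 : ℝ) < T := hT
    have hs' : (s : ℝ) ≤ T := hs
    have a := γd 0 s
    have b := γd 0 T
    rw [γ0] at a b
    simp only [NNReal.coe_zero, zero_sub, abs_neg, NNReal.abs_eq] at a b
    refine (bic_eq hp hσ (by positivity) ((div_le_one hT').2 hs') ?_ ?_).symm
    · rw [a, b]; field_simp
    · rw [γd, b, abs_sub_comm, abs_of_nonneg (by linarith)]; field_simp⟩
  refine ⟨Sum.inr c, TopologicalSpace.tendsto_nhds_generateFrom_iff.2 ?_⟩
  rintro U (⟨y, ε, -, rfl⟩ | ⟨c', R, ε, -, -, rfl⟩) hU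
  · obtain ⟨_, -, h⟩ := hU
    cases h
  · have h1 : DD p (γ R) (c'.1 R) < ε := by
      rcases hU with ⟨_, -, h⟩ | ⟨c2, h, e⟩
      · cases h
      · obtain rfl : c2 = c := Sum.inr_injective e
        exact h
    filter_upwards [hδ.eventually_gt_atTop R] with n hn
    refine Or.inl ⟨x n, ⟨by rw [d0]; exact hn, ?_⟩, rfl⟩
    rw [d0, ← hγ R n hn]
    exact h1

theorem noconv (hp : 1 < p) (hσ : IsBicombing (DD p) σ) (o : PP) (x : ℕ → PP)
    (hinf : Tendsto (fun n => FF p o (x n) true) atTop atTop) {a b a' b' : ℝ}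
    (hab : a * b' ≠ a' * b)
    (h1 : ∃ᶠ n in atTop, a * FF p o (x n) false = b * FF p o (x n) true)
    (h2 : ∃ᶠ n in atTop, a' * FF p o (x n) false = b' * FF p o (x n) true) (z : Bar (DD p) σ o) :
    ¬ Tendsto (fun n => (Sum.inl (x n) : Bar (DD p) σ o)) atTop (@nhds _ (coneTop (DD p) σ o) z) := by
  intro h
  have h' := TopologicalSpace.tendsto_nhds_generateFrom_iff.1 h
  rcases z with y | c
  · have := h' _ (Or.inl ⟨y, 1, one_pos, rfl⟩) ⟨y, by simp [DD_self hp], rfl⟩
    have h3 : ∀ᶠ n in atTop, DD p y (x n) < 1 := by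
      filter_upwards [this] with n ⟨w, hw, e⟩
      obtain rfl : w = x n := Sum.inl_injective e
      exact hw
    obtain ⟨n, h4, h5⟩ := (h3.and (hinf.eventually_gt_atTop (DD p o y + 1))).exists
    have := DD_tri hp o y (x n)
    have := FF_le_DD hp o (x n) true
    linarith
  · let m : ℕ → PP := fun n => σ o (x n) (1 / DD p o (x n))
    have hm : ∀ ε : ℝ, 0 < ε → ∀ᶠ n in atTop, 1 < DD p o (x n) ∧ DD p (m n) (c.1 1) < ε := by
      intro ε hε
      have := h' _ (Or.inr ⟨c, 1, ε, one_pos, hε, rfl⟩) (Or.inr ⟨c, by simpa [DD_self hp] using hε, rfl⟩)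
      filter_upwards [this] with n hn
      rcases hn with ⟨w, hw, e⟩ | ⟨_, -, e⟩
      · obtain rfl : w = x n := Sum.inl_injective e
        simpa [m] using hw
      · cases e
    have lim : ∀ i, Tendsto (fun n => FF p o (m n) i) atTop (𝓝 (FF p o (c.1 1) i)) := fun i => by
      rw [Metric.tendsto_nhds]
      intro ε hε
      filter_upwards [hm ε hε] with n hn
      have t1 := (FF_tri hp o (m n) (c.1 1) i).1
      have t2 := (FF_tri hp o (c.1 1) (m n) i).1
      have t3 := FF_le_DD hp (m n) (c.1 1) i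
      rw [FF_comm (c.1 1)] at t2
      rw [Real.dist_eq, abs_lt]
      constructor <;> linarith [hn.2]
    have key : ∀ a b : ℝ, (∃ᶠ n in atTop, a * FF p o (x n) false = b * FF p o (x n) true) →
        a * FF p o (c.1 1) false = b * FF p o (c.1 1) true := fun a b hf => by
      refine tendsto_nhds_unique_of_frequently_eq ((lim false).const_mul a) ((lim true).const_mul b) ?_
      refine (hf.and_eventually (hm 1 one_pos)).mono fun n ⟨e, hn, _⟩ => ?_
      have hD : 0 < DD p o (x n) := by linarith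
      obtain ⟨u, v⟩ := bic_btw hσ o (x n) (t := 1 / DD p o (x n)) (by positivity)
        ((div_le_one hD).2 hn.le)
      have w := fun i => (btw_FF hp (x := o) (m := m n) (y := x n) (by simp only [m]; linarith) i).2
      apply mul_right_cancel₀ hD.ne'
      rw [mul_assoc, mul_assoc, w, w]
      linear_combination DD p o (m n) * e
    have k1 := key a b h1
    have k2 := key a' b' h2
    have hne : a * b' - a' * b ≠ 0 := sub_ne_zero.2 hab
    have z0 : FF p o (c.1 1) = 0 := by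
      ext i
      apply mul_left_cancel₀ hne
      cases i
      · simp only [Pi.zero_apply]; linear_combination b' * k1 - b * k2
      · simp only [Pi.zero_apply]; linear_combination a' * k1 - a * k2
    have := c.2.2.1 0 1
    rw [c.2.1, DD, z0, N_zero hp] at this
    simp at this

noncomputable def cl (u : ℝ) : ℝ := max 0 (min 1 u)

theorem cl_mono {u v : ℝ} (h : u ≤ v) : cl u ≤ cl v := max_le_max le_rfl (min_le_min le_rfl h)
theorem cl_one {u : ℝ} (h : 1 ≤ u) : cl u = 1 := by simp [cl, h]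
theorem cl_zero {u : ℝ} (h : u ≤ 0) : cl u = 0 := by simp [cl, h]
theorem cl_mem (u : ℝ) : cl u ∈ Icc (0 : ℝ) 1 := ⟨le_max_left _ _, max_le zero_le_one (min_le_left _ _)⟩

theorem sum_cl {t : ℝ} (t0 : 0 ≤ t) (K : ℕ) : ∑ k ∈ Finset.range K, cl (t - k) = min t K := by
  induction K with
  | zero => simp [t0]
  | succ K ih =>
    rw [Finset.sum_range_succ, ih]
    push_cast
    simp only [cl, min_def, max_def]
    split_ifs <;> linarith

def pr (e : ℕ → Bool) : ℕ → Bool
  | 0 => false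
  | k + 1 => xor (pr e k) (e k)

def ray (e : ℕ → Bool) : ℕ → G := gs fun k => pr e (k + 1)

theorem dir_ray (e : ℕ → Bool) (k : ℕ) : dir (ray e k) 1 = (pr e k, false) := by
  cases k with
  | zero => rfl
  | succ k => exact dir_gs_one _ k

noncomputable def len (p : ℝ) (e : ℕ → Bool) (k : ℕ) : ℝ := if e k then 2 ^ (1 / p) else 1

theorem N_len (hp : 1 < p) (e : ℕ → Bool) (k : ℕ) :
    N p (corR (pr e (k + 1), true) - corR (pr e k, false)) = len p e k := by
  unfold len
  rw [pr]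
  cases e k
  · have : corR (xor (pr e k) false, true) - corR (pr e k, false) = fun i => if i then 0 else 1 := by
      ext i; cases i <;> simp [corR, cor]
    rw [this, N_side hp]; simp
  · rw [N_diag]
    · simp
    · intro i; cases i <;> cases pr e k <;> simp [corR, cor]

noncomputable def rp (e : ℕ → Bool) (t : ℝ) : G → Bool → ℝ :=
  Function.extend (ray e)
    (fun k => corR (pr e k, false) + cl (t - k) • (corR (pr e (k + 1), true) - corR (pr e k, false)))
    fun q => corR (dir q 1)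

theorem rp_ray (e : ℕ → Bool) (t : ℝ) (k : ℕ) : rp e t (ray e k) =
    corR (pr e k, false) + cl (t - k) • (corR (pr e (k + 1), true) - corR (pr e k, false)) :=
  (gs_inj _).extend_apply _ _ k

theorem rp_out (e : ℕ → Bool) (t : ℝ) {q : G} (h : ¬ ∃ k, ray e k = q) : rp e t q = corR (dir q 1) :=
  Function.extend_apply' _ _ _ h

theorem corR_mem (s : Bool × Bool) (i : Bool) : corR s i ∈ Icc (0 : ℝ) 1 := by
  unfold corR; split_ifs <;> simp

theorem rp_mem (e : ℕ → Bool) (t : ℝ) (q : G) (i : Bool) : rp e t q i ∈ Icc (0 : ℝ) 1 := by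
  by_cases h : ∃ k, ray e k = q
  · obtain ⟨k, rfl⟩ := h
    rw [rp_ray]
    have a := corR_mem (pr e k, false) i
    have b := corR_mem (pr e (k + 1), true) i
    have c := cl_mem (t - k)
    simp only [Pi.add_apply, Pi.smul_apply, Pi.sub_apply, smul_eq_mul]
    constructor <;> nlinarith [a.1, a.2, b.1, b.2, c.1, c.2]
  · rw [rp_out e t h]; exact corR_mem _ _

theorem rp_sq (e : ℕ → Bool) (t : ℝ) : InSq corR (rp e t) (ray e ⌊t⌋₊) := by
  intro q hq
  by_cases h : ∃ k, ray e k = q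
  · obtain ⟨k, rfl⟩ := h
    rw [rp_ray]
    rcases lt_or_gt_of_ne (show k ≠ ⌊t⌋₊ from fun e => hq (by rw [e])) with hk | hk
    · have : ((k + 1 : ℕ) : ℝ) ≤ t := (Nat.le_floor_iff' (by omega)).1 hk
      push_cast at this
      rw [cl_one (by linarith), ray, dir_gs_lt _ hk]; simp
    · rw [cl_zero (by linarith [Nat.lt_of_floor_lt hk]), ray,
        dir_gs_out _ _ _ fun j hj e => by have := gs_inj _ e; omega]
      simp [← dir_ray, ray]
  · rw [rp_out e t h, ray, dir_gs_out _ _ _ fun j _ e => h ⟨j, e.symm⟩]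

noncomputable def pt (E : Bool → ℕ → Bool) (T : Bool → ℝ) : PP :=
  mkPt (fun c => ray (E c) ⌊T c⌋₊) (fun h => rp (E h.1) (T h.1) h.2.1 h.2.2)
    (fun _ => rp_mem _ _ _ _) fun c => rp_sq (E c) (T c)

theorem FF_pt (hp : 1 < p) (E : Bool → ℕ → Bool) (T T' : Bool → ℝ) (c : Bool) (K : ℕ)
    (h : T c ≤ T' c) (hK : T' c ≤ K) : FF p (pt E T) (pt E T') c =
      ∑ k ∈ Finset.range K, cl (T' c - k) * len p (E c) k
        - ∑ k ∈ Finset.range K, cl (T c - k) * len p (E c) k := by
  have b : ∀ T, blk (pt E T).1 c = rp (E c) (T c) := fun _ => rfl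
  rw [FF_eq hp (S := (Finset.range K).image (ray (E c))) fun q hq => ?_,
    Finset.sum_image (g := ray (E c)) fun a _ b _ e => gs_inj _ e, ← Finset.sum_sub_distrib]
  · refine Finset.sum_congr rfl fun k _ => ?_
    rw [b, b, rp_ray, rp_ray, add_sub_add_left_eq_sub, ← sub_smul, N_smul hp, N_len hp, abs_sub_comm,
      abs_of_nonneg (sub_nonneg.2 (cl_mono (by linarith))), sub_mul]
  · rw [b, b]
    by_cases h' : ∃ k, ray (E c) k = q
    · obtain ⟨k, rfl⟩ := h'
      have hk : (K : ℝ) ≤ k := by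
        have : ¬ k < K := fun hk => hq (Finset.mem_image_of_mem _ (Finset.mem_range.2 hk))
        exact_mod_cast not_lt.1 this
      rw [rp_ray, rp_ray, cl_zero (by linarith), cl_zero (by linarith)]
    · rw [rp_out _ _ h', rp_out _ _ h']

open Classical in
noncomputable def ee (k : ℕ) : Bool := k = 0 ∨ ∃ j, 3 * 4 ^ j ≤ k ∧ k < 6 * 4 ^ j

noncomputable def LL (p : ℝ) (n : ℕ) : ℝ := ∑ k ∈ Finset.range n, len p ee k

theorem one_le_len (hp : 1 < p) (e : ℕ → Bool) (k : ℕ) : 1 ≤ len p e k := by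
  unfold len
  split_ifs
  · exact Real.one_le_rpow one_le_two (by positivity)
  · exact le_rfl

theorem le_LL (hp : 1 < p) (n : ℕ) : (n : ℝ) ≤ LL p n := by
  have := Finset.card_nsmul_le_sum (Finset.range n) (len p ee) 1 fun k _ => one_le_len hp ee k
  rwa [Finset.card_range, nsmul_one] at this

theorem LL_mono (hp : 1 < p) {m n : ℕ} (h : m ≤ n) : LL p m ≤ LL p n :=
  Finset.sum_le_sum_of_subset_of_nonneg (Finset.range_mono h) fun k _ _ =>
    zero_le_one.trans (one_le_len hp ee k)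

theorem LL_up (j : ℕ) : LL p (6 * 4 ^ j) = LL p (3 * 4 ^ j) + 3 * 4 ^ j * 2 ^ (1 / p) := by
  rw [show 6 * 4 ^ j = 3 * 4 ^ j + 3 * 4 ^ j by ring, LL, Finset.sum_range_add, LL]
  congr 1
  rw [Finset.sum_congr rfl (g := fun _ => (2 : ℝ) ^ (1 / p)) fun k hk => ?_]
  · simp
  · rw [Finset.mem_range] at hk
    rw [len, if_pos]
    simp only [ee, decide_eq_true_eq]
    exact Or.inr ⟨j, by omega, by omega⟩

theorem LL_down (j : ℕ) : LL p (3 * 4 ^ (j + 1)) = LL p (6 * 4 ^ j) + 6 * 4 ^ j := by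
  rw [show 3 * 4 ^ (j + 1) = 6 * 4 ^ j + 6 * 4 ^ j by ring, LL, Finset.sum_range_add, LL]
  congr 1
  rw [Finset.sum_congr rfl (g := fun _ => (1 : ℝ)) fun k hk => ?_]
  · simp
  · rw [Finset.mem_range] at hk
    rw [len, if_neg]
    simp only [ee, decide_eq_true_eq]
    rintro (h | ⟨i, h1, h2⟩)
    · omega
    rcases le_or_gt i j with h | h
    · have := Nat.pow_le_pow_right (show 0 < 4 by norm_num) h
      omega
    · have := Nat.pow_le_pow_right (show 0 < 4 by norm_num) (show j + 1 ≤ i from h)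
      rw [pow_succ] at this
      omega

theorem LL_val (j : ℕ) : LL p (3 * 4 ^ j) = 4 ^ j * (2 + 2 ^ (1 / p)) := by
  induction j with
  | zero =>
    have h : ∀ k, k = 1 ∨ k = 2 → ee k = false := by
      intro k hk
      simp only [ee, decide_eq_false_iff_not]
      rintro (h | ⟨i, h1, h2⟩)
      · omega
      · have := Nat.one_le_pow i 4 (by norm_num)
        omega
    have h0 : ee 0 = true := by simp [ee]
    simp [LL, Finset.sum_range_succ, len, h, h0]
    ring
  | succ j ih => rw [LL_down, LL_up, ih]; ring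

noncomputable def EE : Bool → ℕ → Bool := fun c => if c then fun _ => false else ee

noncomputable def xs (p : ℝ) (n : ℕ) : PP := pt EE fun c => if c then LL p n else n

theorem FF_xs0 {r : ℝ} (hr : 1 < r) {m n : ℕ} (h : m ≤ n) :
    FF r (xs p m) (xs p n) false = LL r n - LL r m := by
  have : ∀ m ≤ n, ∑ k ∈ Finset.range n, cl ((m : ℝ) - k) * len r ee k = LL r m := fun m h => by
    rw [LL, ← Finset.sum_subset (Finset.range_mono h) fun k _ hk => ?_]
    · refine Finset.sum_congr rfl fun k hk => ?_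
      have : ((k + 1 : ℕ) : ℝ) ≤ m := by exact_mod_cast Finset.mem_range.1 hk
      push_cast at this
      rw [cl_one (by linarith), one_mul]
    · have : (m : ℝ) ≤ k := by exact_mod_cast not_lt.1 (mt Finset.mem_range.2 hk)
      rw [cl_zero (by linarith), zero_mul]
  rw [xs, xs, FF_pt hr _ _ _ _ n (by simpa using h) (by simp), ← this m h, ← this n le_rfl]
  rfl

theorem FF_xs1 {r : ℝ} (hp : 1 < p) (hr : 1 < r) {m n : ℕ} (h : m ≤ n) :
    FF r (xs p m) (xs p n) true = LL p n - LL p m := by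
  have h0 : ∀ n, 0 ≤ LL p n := fun n => (Nat.cast_nonneg n).trans (le_LL hp n)
  have h1 := Nat.le_ceil (LL p n)
  have h2 := LL_mono hp h
  rw [xs, xs, FF_pt hr _ _ _ _ ⌈LL p n⌉₊ (by simpa using h2) (by simpa using h1)]
  simp only [EE, len, if_true, Bool.false_eq_true, if_false, mul_one]
  rw [sum_cl (h0 n), sum_cl (h0 m), min_eq_left h1, min_eq_left (h2.trans h1)]

noncomputable def oo : PP := pt EE 0

theorem xs_zero : xs p 0 = oo := by
  unfold xs oo
  congr 1
  ext c; simp [LL]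

theorem not_ext {r : ℝ} (hp : 1 < p) (hr : 1 < r) (hne : p ≠ r) {τ : PP → PP → ℝ → PP}
    (hσ : IsBicombing (DD p) σ) (hτ : IsBicombing (DD r) τ) : ¬ IdExtends (DD p) σ (DD r) τ oo := by
  rw [← xs_zero (p := p)]
  rintro ⟨F, hF, hF'⟩
  have hL : Tendsto (LL p) atTop atTop := tendsto_atTop_mono (le_LL hp) tendsto_natCast_atTop_atTop
  have L0 : ∀ p, LL p 0 = 0 := fun p => by simp [LL]
  obtain ⟨z, hz⟩ := conv hp hσ (xs p) (fun n => 2 ^ (1 / p) * LL p n) (by simp [L0]) (fun m n h => by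
    have : FF p (xs p m) (xs p n) = (LL p n - LL p m) • fun _ => (1 : ℝ) := by
      ext c; cases c
      · simp [FF_xs0 hp h]
      · simp [FF_xs1 hp hp h]
    rw [DD, this, N_smul hp, N_diag (by simp), abs_of_nonneg (sub_nonneg.2 (LL_mono hp h))]
    ring) (hL.const_mul_atTop (by positivity))
  have f0 : ∀ n, FF r (xs p 0) (xs p n) false = LL r n := fun n => by
    rw [FF_xs0 hr n.zero_le, L0, sub_zero]
  have f1 : ∀ n, FF r (xs p 0) (xs p n) true = LL p n := fun n => by
    rw [FF_xs1 hp hr n.zero_le, L0, sub_zero]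
  refine noconv hr hτ (xs p 0) (xs p) (by simpa only [f1] using hL) (a := 2 + 2 ^ (1 / p))
    (b := 2 + 2 ^ (1 / r)) (a' := 2 + 4 * 2 ^ (1 / p)) (b' := 2 + 4 * 2 ^ (1 / r)) (fun e => hne ?_)
    ?_ ?_ (F z) ?_
  · have : (2 : ℝ) ^ (1 / p) = 2 ^ (1 / r) := by linarith
    rw [Real.rpow_right_inj two_pos (by norm_num), one_div, one_div, inv_inj] at this
    exact this
  · refine frequently_atTop.2 fun j => ⟨3 * 4 ^ j, ?_, ?_⟩
    · have := Nat.lt_pow_self (n := j) (show 1 < 4 by norm_num)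
      omega
    · rw [f0, f1, LL_val, LL_val]; ring
  · refine frequently_atTop.2 fun j => ⟨6 * 4 ^ j, ?_, ?_⟩
    · have := Nat.lt_pow_self (n := j) (show 1 < 4 by norm_num)
      omega
    · rw [f0, f1, LL_up, LL_up, LL_val, LL_val]; ring
  · let _ := coneTop (DD p) σ (xs p 0)
    let _ := coneTop (DD r) τ (xs p 0)
    have := (hF.tendsto z).comp hz
    simp only [Function.comp_def, hF'] at this
    exact this

end Pool.Agent.H659Z.Cub
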