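import Mathlib
import Pool.Agent.Helper523.LL.Univ

set_option autoImplicit false
open Complex Metric Set Filter Topology

namespace Pool.Agent.H659Z.Cvx

variable {f : ℂ → ℂ}

theorem strict (hf : DifferentiableOn ℂ f (ball 0 1)) {z : ℂ} (hz : z ∈ ball (0 : ℂ) 1) :
    HasStrictDerivAt f (deriv f z) z :=
  (hf.analyticAt (isOpen_ball.mem_nhds hz)).hasStrictDerivAt

theorem dne (hf : DifferentiableOn ℂ f (ball 0 1)) (hi : InjOn f (ball 0 1)) {z : ℂ}
    (hz : z ∈ ball (0 : ℂ) 1) : deriv f z ≠ 0 :=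
  Pool.Agent.Helper523.LL.deriv_ne_zero_of_injOn isOpen_ball hf hi hz

theorem open_image (hf : DifferentiableOn ℂ f (ball 0 1)) (hi : InjOn f (ball 0 1)) :
    IsOpen (f '' ball 0 1) := by
  rw [isOpen_iff_mem_nhds]
  rintro _ ⟨z, hz, rfl⟩
  rw [← (strict hf hz).map_nhds_eq (dne hf hi hz)]
  exact image_mem_map (isOpen_ball.mem_nhds hz)

theorem inv_deriv (hf : DifferentiableOn ℂ f (ball 0 1)) (hi : InjOn f (ball 0 1)) {z : ℂ}
    (hz : z ∈ ball (0 : ℂ) 1) :
    HasDerivAt (Function.invFunOn f (ball 0 1)) (deriv f z)⁻¹ (f z) := by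
  refine ((strict hf hz).to_local_left_inverse (dne hf hi hz) ?_).hasDerivAt
  filter_upwards [isOpen_ball.mem_nhds hz] with x hx
  exact hi.leftInvOn_invFunOn hx

theorem ball_sub (hf : DifferentiableOn ℂ f (ball 0 1)) (hi : InjOn f (ball 0 1)) (h0 : f 0 = 0)
    {M : ℝ} (hM0 : 0 < M) (hM : ∀ z ∈ ball (0 : ℂ) 1, ‖z‖ ≤ M * ‖f z‖) :
    ball (0 : ℂ) (1 / M) ⊆ f '' ball 0 1 := by
  apply (convex_ball (0 : ℂ) (1 / M)).isPreconnected.subset_of_closure_inter_subset (open_image hf hi)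
  · exact ⟨0, mem_ball_self (by positivity), 0, mem_ball_self one_pos, h0⟩
  · rintro w ⟨hw1, hw2⟩
    have hw3 : M * ‖w‖ < 1 := by
      rw [mem_ball_zero_iff, lt_div_iff₀ hM0] at hw2
      linarith
    obtain ⟨ρ, hρ1, hρ2⟩ := exists_between hw3
    have hK : IsCompact (f '' closedBall 0 ρ) :=
      (isCompact_closedBall 0 ρ).image_of_continuousOn
        (hf.continuousOn.mono (closedBall_subset_ball hρ2))
    have hsub : f '' ball 0 1 ∩ ball 0 (ρ / M) ⊆ f '' closedBall 0 ρ := by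
      rintro _ ⟨⟨z, hz, rfl⟩, h2⟩
      refine ⟨z, ?_, rfl⟩
      rw [mem_ball_zero_iff, lt_div_iff₀ hM0] at h2
      rw [mem_closedBall_zero_iff]
      have := hM z hz
      linarith
    have hw4 : w ∈ closure (f '' ball 0 1 ∩ ball 0 (ρ / M)) := by
      apply isOpen_ball.closure_inter
      refine ⟨hw1, ?_⟩
      rw [mem_ball_zero_iff, lt_div_iff₀ hM0]
      linarith
    have hw5 := hK.isClosed.closure_subset_iff.2 hsub hw4
    exact image_mono (closedBall_subset_ball hρ2) hw5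

theorem key (hf : DifferentiableOn ℂ f (ball 0 1)) (hi : InjOn f (ball 0 1)) (h0 : f 0 = 0)
    (hc : Convex ℝ (f '' ball 0 1)) {c : ℂ} (hcu : ∀ u ∈ ball (0 : ℂ) 1, c * u ∈ f '' ball 0 1)
    {z : ℂ} (hz : z ∈ ball (0 : ℂ) 1) :
    ((starRingEnd ℂ) z * ((deriv f z)⁻¹ * (c * z - f z))).re ≤ 0 := by
  set g := Function.invFunOn f (ball 0 1) with hg
  have hgm : ∀ w ∈ f '' ball 0 1, g w ∈ ball (0 : ℂ) 1 := fun w hw => Function.invFunOn_mem hw
  have hgd : DifferentiableOn ℂ g (f '' ball 0 1) := by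
    rintro _ ⟨u, hu, rfl⟩
    exact (inv_deriv hf hi hu).differentiableAt.differentiableWithinAt
  have hgf : ∀ u ∈ ball (0 : ℂ) 1, g (f u) = u := fun u hu => hi.leftInvOn_invFunOn hu
  have hS : ∀ t : ℝ, 0 ≤ t → t ≤ 1 → ‖g (f z + (t : ℂ) * (c * z - f z))‖ ≤ ‖z‖ := by
    intro t ht0 ht1
    have hmem : ∀ u ∈ ball (0 : ℂ) 1, f u + (t : ℂ) * (c * u - f u) ∈ f '' ball 0 1 := by
      intro u hu
      have := hc.add_smul_sub_mem (mem_image_of_mem f hu) (hcu u hu) ⟨ht0, ht1⟩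
      simpa using this
    have hd : DifferentiableOn ℂ (fun u => g (f u + (t : ℂ) * (c * u - f u))) (ball 0 1) := by
      refine hgd.comp (f := fun u => f u + (t : ℂ) * (c * u - f u)) ?_ hmem
      exact hf.add (((differentiableOn_id.const_mul c).sub hf).const_mul _)
    refine norm_le_norm_of_mapsTo_ball (R := 1) hd ?_ ?_ (mem_ball_zero_iff.1 hz)
    · intro u hu
      exact ball_subset_closedBall (hgm _ (hmem u hu))
    · have := hgf 0 (mem_ball_self one_pos)
      simpa [h0] using this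
  have h1 : HasDerivAt (fun t : ℂ => f z + t * (c * z - f z)) (c * z - f z) 0 := by
    simpa using ((hasDerivAt_id (0 : ℂ)).mul_const (c * z - f z)).const_add (f z)
  have h2 : HasDerivAt (fun t : ℂ => (starRingEnd ℂ) z * g (f z + t * (c * z - f z)))
      ((starRingEnd ℂ) z * ((deriv f z)⁻¹ * (c * z - f z))) 0 := by
    refine HasDerivAt.const_mul _ ?_
    have h3 : HasDerivAt g (deriv f z)⁻¹ (f z + 0 * (c * z - f z)) := by
      simpa using inv_deriv hf hi hz
    exact h3.comp (0 : ℂ) h1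
  have h3 := HasDerivAt.real_of_complex (z := (0 : ℝ)) (by simpa using h2)
  have h4 := (hasDerivWithinAt_iff_tendsto_slope' (s := Ioi (0 : ℝ)) (by simp)).1 h3.hasDerivWithinAt
  refine le_of_tendsto h4 ?_
  filter_upwards [Ioo_mem_nhdsGT (show (0 : ℝ) < 1 by norm_num)] with t ht
  rw [slope_def_field]
  apply div_nonpos_of_nonpos_of_nonneg _ (by linarith [ht.1])
  have h5 := hS t ht.1.le ht.2.le
  have h6 : ((starRingEnd ℂ) z * g (f z + (t : ℂ) * (c * z - f z))).re ≤ ‖z‖ * ‖z‖ := by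
    refine (Complex.re_le_norm _).trans ?_
    rw [norm_mul, Complex.norm_conj]
    exact mul_le_mul_of_nonneg_left h5 (norm_nonneg _)
  have h7 : ((starRingEnd ℂ) z * z).re = ‖z‖ * ‖z‖ := by
    rw [mul_comm, Complex.mul_conj, Complex.ofReal_re, Complex.normSq_eq_norm_sq]; ring
  simp only [ofReal_zero, zero_mul, add_zero, hgf z hz]
  linarith

theorem pointwise (hf : DifferentiableOn ℂ f (ball 0 1)) (hi : InjOn f (ball 0 1)) (h0 : f 0 = 0)
    (hc : Convex ℝ (f '' ball 0 1)) {M : ℝ} (hM0 : 0 < M)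
    (hM : ∀ z ∈ ball (0 : ℂ) 1, ‖z‖ ≤ M * ‖f z‖) {z : ℂ} (hz : z ∈ ball (0 : ℂ) 1) (hz0 : z ≠ 0) :
    ‖(deriv f z)⁻¹‖ ≤ M * (dslope f 0 z / deriv f z).re := by
  have hd := dne hf hi hz
  have hdn : 0 < ‖deriv f z‖ := norm_pos_iff.2 hd
  set c : ℂ := deriv f z / ((M * ‖deriv f z‖ : ℝ) : ℂ) with hcdef
  have hcn : ‖c‖ = 1 / M := by
    rw [hcdef, norm_div, Complex.norm_real, Real.norm_eq_abs, abs_of_pos (by positivity)]
    field_simp
  have hk := key hf hi h0 hc (c := c) (fun u hu => by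
    apply ball_sub hf hi h0 hM0 hM
    rw [mem_ball_zero_iff] at hu ⊢
    rw [norm_mul, hcn]
    exact mul_lt_of_lt_one_right (by positivity) hu) hz
  have he : (starRingEnd ℂ) z * ((deriv f z)⁻¹ * (c * z - f z))
      = ((Complex.normSq z : ℝ) : ℂ) * ((((M * ‖deriv f z‖)⁻¹ : ℝ) : ℂ) - dslope f 0 z / deriv f z) := by
    rw [dslope_of_ne _ hz0, slope_def_field, h0, ← Complex.mul_conj, hcdef]
    have : ((M * ‖deriv f z‖ : ℝ) : ℂ) ≠ 0 := by exact_mod_cast (by positivity : M * ‖deriv f z‖ ≠ 0)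
    rw [Complex.ofReal_inv]
    simp only [sub_zero]
    field_simp
  rw [he, Complex.re_ofReal_mul, Complex.sub_re, Complex.ofReal_re] at hk
  have hn : 0 < Complex.normSq z := Complex.normSq_pos.2 hz0
  have h2 : (M * ‖deriv f z‖)⁻¹ ≤ (dslope f 0 z / deriv f z).re := by
    by_contra hcon
    push Not at hcon
    have := mul_pos hn (sub_pos.2 hcon)
    linarith
  rw [norm_inv]
  have h3 := mul_le_mul_of_nonneg_left h2 hM0.le
  have h4 : M * (M * ‖deriv f z‖)⁻¹ = ‖deriv f z‖⁻¹ := by field_simp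
  linarith

theorem main (hf : DifferentiableOn ℂ f (ball 0 1)) (hi : InjOn f (ball 0 1)) (h0 : f 0 = 0)
    (hc : Convex ℝ (f '' ball 0 1)) {M : ℝ}
    (hM : ∀ z ∈ ball (0 : ℂ) 1, z ≠ 0 → ‖z / f z‖ ≤ M) {r : ℝ} (hr0 : 0 < r) (hr1 : r < 1) :
    (1 / (2 * Real.pi)) * ∫ θ in (0 : ℝ)..(2 * Real.pi), ‖(deriv f (circleMap 0 r θ))⁻¹‖ ≤ M := by
  have hfz : ∀ z ∈ ball (0 : ℂ) 1, z ≠ 0 → f z ≠ 0 := fun z hz hz0 h =>
    hz0 (hi hz (mem_ball_self one_pos) (h.trans h0.symm))
  have hM0 : 0 < M := by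
    have hz : ((1 / 2 : ℝ) : ℂ) ∈ ball (0 : ℂ) 1 := by
      rw [mem_ball_zero_iff, Complex.norm_real]; norm_num
    have hz0 : ((1 / 2 : ℝ) : ℂ) ≠ 0 := by norm_num
    exact (norm_pos_iff.2 (div_ne_zero hz0 (hfz _ hz hz0))).trans_le (hM _ hz hz0)
  have hM' : ∀ z ∈ ball (0 : ℂ) 1, ‖z‖ ≤ M * ‖f z‖ := by
    intro z hz
    by_cases hz0 : z = 0
    · rw [hz0, norm_zero]; positivity
    · have := hM z hz hz0
      rwa [norm_div, div_le_iff₀ (norm_pos_iff.2 (hfz z hz hz0))] at this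
  have hdd : DifferentiableOn ℂ (deriv f) (ball 0 1) := hf.deriv isOpen_ball
  have hF : DifferentiableOn ℂ (fun z => dslope f 0 z / deriv f z) (ball 0 1) :=
    ((differentiableOn_dslope (isOpen_ball.mem_nhds (mem_ball_self one_pos))).2 hf).div hdd
      (fun z hz => dne hf hi hz)
  have hmem : ∀ θ : ℝ, circleMap 0 r θ ∈ ball (0 : ℂ) 1 := fun θ => by
    rw [mem_ball_zero_iff, norm_circleMap_zero, abs_of_pos hr0]; exact hr1
  have havg : Real.circleAverage (fun z => dslope f 0 z / deriv f z) 0 r = 1 := by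
    rw [DiffContOnCl.circleAverage]
    · simp only [dslope_same]
      exact div_self (dne hf hi (mem_ball_self one_pos))
    · rw [abs_of_pos hr0]
      apply DifferentiableOn.diffContOnCl
      rw [closure_ball _ hr0.ne']
      exact hF.mono (closedBall_subset_ball hr1)
  have hcont : Continuous fun θ : ℝ => dslope f 0 (circleMap 0 r θ) / deriv f (circleMap 0 r θ) :=
    hF.continuousOn.comp_continuous (continuous_circleMap 0 r) hmem
  have hcont2 : Continuous fun θ : ℝ => ‖(deriv f (circleMap 0 r θ))⁻¹‖ :=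
    ((hdd.continuousOn.comp_continuous (continuous_circleMap 0 r) hmem).inv₀
      (fun θ => dne hf hi (hmem θ))).norm
  have hre : ∫ θ in (0 : ℝ)..(2 * Real.pi), (dslope f 0 (circleMap 0 r θ) / deriv f (circleMap 0 r θ)).re
      = 2 * Real.pi := by
    have h1 := Complex.reCLM.intervalIntegral_comp_comm (μ := MeasureTheory.volume)
      (hcont.intervalIntegrable (0 : ℝ) (2 * Real.pi))
    simp only [reCLM_apply] at h1
    rw [h1]
    rw [Real.circleAverage_def] at havg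
    have h2 := congrArg Complex.re havg
    rw [Complex.smul_re, smul_eq_mul, Complex.one_re] at h2
    have hp : (0 : ℝ) < 2 * Real.pi := by positivity
    field_simp at h2
    linarith
  have hle : ∫ θ in (0 : ℝ)..(2 * Real.pi), ‖(deriv f (circleMap 0 r θ))⁻¹‖ ≤
      ∫ θ in (0 : ℝ)..(2 * Real.pi), M * (dslope f 0 (circleMap 0 r θ) / deriv f (circleMap 0 r θ)).re := by
    apply intervalIntegral.integral_mono_on (by positivity) (hcont2.intervalIntegrable _ _)
      (((Complex.continuous_re.comp hcont).const_mul M).intervalIntegrable _ _)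
    intro θ _
    exact pointwise hf hi h0 hc hM0 hM' (hmem θ) (circleMap_ne_center hr0.ne')
  rw [intervalIntegral.integral_const_mul, hre] at hle
  have hp : (0 : ℝ) < 2 * Real.pi := by positivity
  rw [one_div, inv_mul_le_iff₀ hp]
  linarith

end Pool.Agent.H659Z.Cvx
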