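import Mathlib

set_option autoImplicit false

namespace Pool.Agent.H659Z.HD

universe u

variable (K : Type u) [Field K]

/-- A derivation is locally nilpotent when every element is killed by some iterate. -/
def IsLND {A : Type u} [CommRing A] [Algebra K A] (D : Derivation K A A) : Prop :=
  ∀ a : A, ∃ n : ℕ, D^[n] a = 0

/-- The modified Derksen invariant: the subalgebra generated by the kernels of all locally
nilpotent derivations that have a slice. -/
def HDstar (A : Type u) [CommRing A] [Algebra K A] : Subalgebra K A :=
  Algebra.adjoin K {a : A | ∃ D : Derivation K A A, IsLND K D ∧ (∃ s : A, D s = 1) ∧ D a = 0}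

/-- The variety with coordinate ring `A` is of type B: the modified Derksen invariant of the
cylinder, whose coordinate ring is `A[u]`, is a proper subalgebra that is not finitely
generated. -/
def TypeB (A : Type u) [CommRing A] [Algebra K A] : Prop :=
  HDstar K (Polynomial A) ≠ ⊤ ∧ ¬ (HDstar K (Polynomial A)).FG

end Pool.Agent.H659Z.HD
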