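import Mathlib
import Pool.Agent.H659Z.HDDefs

set_option autoImplicit false
open Polynomial

namespace Pool.Agent.H659Z.HD

universe u

variable (K : Type u) [Field K] (k : ℕ)

noncomputable def DD : K[X][X] := C (4 * X ^ (k + 1) * (X - 1)) * X + C ((X - 1) ^ 2)

def Rel {S : Type*} [CommRing S] (a b c : S) : Prop :=
  b ^ 2 = 4 * a ^ (k + 1) * (a - 1) * c + (a - 1) ^ 2

def GX {S : Type*} [CommRing S] (a c : S) : S :=
  2 * ((k + 1) * a ^ k * (a - 1) + a ^ (k + 1)) * c + (a - 1)

def GZ {S : Type*} [CommRing S] (a : S) : S := 2 * a ^ (k + 1) * (a - 1)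

namespace Q

/-- the coordinate ring of the surface `y^2 = 4 x^(k+1) (x-1) z + (x-1)^2` -/
abbrev O := QuadraticAlgebra K[X][X] (DD K k) 0

noncomputable def ox : O K k := algebraMap K[X][X] _ (C X)
noncomputable def oz : O K k := algebraMap K[X][X] _ X
noncomputable def oy : O K k := QuadraticAlgebra.omega

theorem rel : Rel k (ox K k) (oy K k) (oz K k) := by
  unfold Rel oy ox oz
  rw [sq, QuadraticAlgebra.omega_mul_omega_eq_algebraMap, map_zero, zero_mul, add_zero]
  have : DD K k = 4 * C X ^ (k + 1) * (C X - 1) * X + (C X - 1) ^ 2 := by simp [DD, map_ofNat]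
  refine (congrArg (algebraMap K[X][X] (O K k)) this).trans ?_
  simp only [map_add, map_mul, map_pow, map_sub, map_one, map_ofNat]

variable {K k}

section lift
variable {S : Type*} [CommRing S] [Algebra K S]

noncomputable def base (a c : S) : K[X][X] →ₐ[K] S := aevalTower (aeval a) c

theorem base_DD {a b c : S} (h : Rel k a b c) : base a c (DD K k) = b ^ 2 := by
  rw [h]
  simp [base, DD, map_ofNat]

noncomputable def lift (a b c : S) (h : Rel k a b c) : O K k →ₐ[K] S where
  toFun g := base a c g.re + base a c g.im * b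
  map_one' := by simp [QuadraticAlgebra.re_one, QuadraticAlgebra.im_one]
  map_mul' g g' := by
    simp only [QuadraticAlgebra.re_mul, QuadraticAlgebra.im_mul, map_add, map_mul, base_DD h,
      map_zero]
    ring
  map_zero' := by simp
  map_add' g g' := by
    simp only [QuadraticAlgebra.re_add, QuadraticAlgebra.im_add, map_add]
    ring
  commutes' r := by
    rw [IsScalarTower.algebraMap_apply K K[X][X] (O K k)]
    simp only [QuadraticAlgebra.algebraMap_re, QuadraticAlgebra.algebraMap_im, map_zero, zero_mul,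
      add_zero, AlgHom.commutes]

@[simp] theorem lift_x (a b c : S) (h : Rel k a b c) : lift (K := K) a b c h (ox K k) = a := by
  simp [lift, ox, base]

@[simp] theorem lift_y (a b c : S) (h : Rel k a b c) : lift (K := K) a b c h (oy K k) = b := by
  simp [lift, oy, base]

@[simp] theorem lift_z (a b c : S) (h : Rel k a b c) : lift (K := K) a b c h (oz K k) = c := by
  simp [lift, oz, base]

end lift

theorem ind (P : O K k → Prop) (hc : ∀ c : K, P (algebraMap K _ c)) (hx : P (ox K k))
    (hy : P (oy K k)) (hz : P (oz K k)) (hadd : ∀ a b, P a → P b → P (a + b))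
    (hmul : ∀ a b, P a → P b → P (a * b)) (g : O K k) : P g := by
  have h1 : ∀ p : K[X], P (algebraMap K[X][X] _ (C p)) := by
    intro p
    induction p using Polynomial.induction_on with
    | C a => exact hc a
    | add p q hp hq => rw [map_add, map_add]; exact hadd _ _ hp hq
    | monomial n a h => rw [pow_succ, ← mul_assoc, map_mul, map_mul]; exact hmul _ _ h hx
  have h2 : ∀ p : K[X][X], P (algebraMap K[X][X] _ p) := by
    intro p
    induction p using Polynomial.induction_on with
    | C a => exact h1 a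
    | add p q hp hq => rw [map_add]; exact hadd _ _ hp hq
    | monomial n a h => rw [pow_succ, ← mul_assoc, map_mul]; exact hmul _ _ h hz
  have : g = algebraMap K[X][X] _ g.re + algebraMap K[X][X] _ g.im * oy K k := by
    ext1 <;> simp [oy]
  rw [this]
  exact hadd _ _ (h2 _) (hmul _ _ (h2 _) hy)

theorem finiteType : Algebra.FiniteType K (O K k) :=
  Algebra.FiniteType.trans (S := K[X][X])
    (Algebra.FiniteType.trans (S := K[X]) inferInstance inferInstance) inferInstance

variable [CharZero K]

theorem lead_ne : (4 * X ^ (k + 1) * (X - 1) : K[X]) ≠ 0 := by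
  have h4 : (4 : K[X]) ≠ 0 := by exact_mod_cast (show (4 : ℕ) ≠ 0 by norm_num)
  have h1 : (X - 1 : K[X]) ≠ 0 := X_sub_C_ne_zero 1
  exact mul_ne_zero (mul_ne_zero h4 (pow_ne_zero _ X_ne_zero)) h1

theorem norm_deg (g : O K k) (h : g.im ≠ 0) : 1 ≤ g.norm.natDegree := by
  have hD : (DD K k).natDegree = 1 := natDegree_linear lead_ne
  have hD0 : DD K k ≠ 0 := fun h => by rw [h] at hD; simp at hD
  rw [QuadraticAlgebra.norm_def]
  simp only [zero_mul, add_zero]
  have h1 : (DD K k * g.im * g.im).natDegree = 1 + 2 * g.im.natDegree := by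
    rw [natDegree_mul (mul_ne_zero hD0 h) h, natDegree_mul hD0 h, hD]; ring
  have h2 : (g.re * g.re).natDegree = 2 * g.re.natDegree := by
    rw [← sq, natDegree_pow]
  rcases lt_or_gt_of_ne (show (g.re * g.re).natDegree ≠ (DD K k * g.im * g.im).natDegree by omega)
    with hlt | hlt
  · rw [natDegree_sub_eq_right_of_natDegree_lt hlt]; omega
  · rw [natDegree_sub_eq_left_of_natDegree_lt hlt]; omega

theorem norm_ne (g : O K k) (h : g ≠ 0) : g.norm ≠ 0 := by
  by_cases hi : g.im = 0
  · rw [QuadraticAlgebra.norm_def, hi]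
    have : g.re ≠ 0 := fun hr => h (QuadraticAlgebra.ext hr hi)
    simpa using this
  · intro h0
    have := norm_deg g hi
    rw [h0] at this
    simp at this

instance : IsDomain (O K k) := by
  have : NoZeroDivisors (O K k) := ⟨fun {a b} hab => by
    by_contra hne
    push Not at hne
    have := congrArg QuadraticAlgebra.norm hab
    rw [map_mul, QuadraticAlgebra.norm_zero] at this
    exact mul_ne_zero (norm_ne a hne.1) (norm_ne b hne.2) this⟩
  exact NoZeroDivisors.to_isDomain _

theorem unit_const (g : O K k) (h : IsUnit g) : ∃ c : K, c ≠ 0 ∧ g = algebraMap K _ c := by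
  have hn := QuadraticAlgebra.isUnit_iff_norm_isUnit.1 h
  have hi : g.im = 0 := by
    by_contra hi
    have := norm_deg g hi
    rw [natDegree_eq_zero_of_isUnit hn] at this
    omega
  rw [QuadraticAlgebra.norm_def, hi] at hn
  simp only [mul_zero, add_zero, sub_zero] at hn
  obtain ⟨r, hr, e⟩ := Polynomial.isUnit_iff.1 (isUnit_of_mul_isUnit_left hn)
  obtain ⟨c, hc, e'⟩ := Polynomial.isUnit_iff.1 hr
  refine ⟨c, hc.ne_zero, ?_⟩
  rw [IsScalarTower.algebraMap_apply K K[X][X] (O K k)]
  refine QuadraticAlgebra.ext ?_ hi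
  rw [← e, ← e']
  rfl

theorem GZ_ne : GZ k (ox K k) ≠ 0 := by
  have : 2 * GZ k (ox K k) = algebraMap K[X][X] _ (C (4 * X ^ (k + 1) * (X - 1))) := by
    simp only [GZ, ox, map_mul, map_sub, map_pow, map_one, map_ofNat]; ring
  intro h
  rw [h, mul_zero, eq_comm, map_eq_zero_iff _ QuadraticAlgebra.algebraMap_injective, C_eq_zero] at this
  exact lead_ne this

theorem dvd_base (g : K[X][X]) (h : GZ k (C X : K[X][X]) ∣ GX k (C X : K[X][X]) X * g) :
    GZ k (C X : K[X][X]) ∣ g := by
  have p1 : Prime (C X : K[X][X]) := prime_C_iff.2 prime_X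
  have p2 : Prime (C X - 1 : K[X][X]) := by
    have : (C X - 1 : K[X][X]) = C (X - C 1) := by simp
    rw [this]
    exact prime_C_iff.2 (prime_X_sub_C 1)
  have n1 : ¬ (C X : K[X][X]) ∣ GX k (C X : K[X][X]) X := by
    intro hd
    have := map_dvd (base (K := K) (0 : K) (0 : K)) hd
    simp [base, GX] at this
  have n2 : ¬ (C X - 1 : K[X][X]) ∣ GX k (C X : K[X][X]) X := by
    intro hd
    have := map_dvd (base (K := K) (1 : K) (1 : K)) hd
    simp [base, GX, map_ofNat] at this
  have u2 : IsUnit (2 : K[X][X]) := by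
    have : (2 : K[X][X]) = C (C 2) := by simp [map_ofNat]
    rw [this]
    exact isUnit_C.2 (isUnit_C.2 (by simp))
  unfold GZ at h ⊢
  rw [mul_assoc, u2.mul_left_dvd] at h ⊢
  obtain ⟨g', rfl⟩ := (p2.dvd_or_dvd ((Dvd.intro_left _ rfl).trans h)).resolve_left n2
  rw [mul_comm _ g', ← mul_assoc, mul_dvd_mul_iff_right p2.ne_zero] at h
  rw [mul_comm _ g', mul_dvd_mul_iff_right p2.ne_zero]
  exact p1.pow_dvd_of_dvd_mul_left _ n1 h

theorem dvd_O (g : O K k) (h : GZ k (ox K k) ∣ GX k (ox K k) (oz K k) * g) : GZ k (ox K k) ∣ g := by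
  have e1 : GZ k (ox K k) = algebraMap K[X][X] _ (GZ k (C X : K[X][X])) := by
    simp [GZ, ox, map_ofNat]
  have e2 : GX k (ox K k) (oz K k) = algebraMap K[X][X] _ (GX k (C X : K[X][X]) X) := by
    simp [GX, ox, oz, map_ofNat]
  rw [e1, QuadraticAlgebra.algebraMap_dvd_iff] at h ⊢
  rw [e2] at h
  simp only [QuadraticAlgebra.re_mul, QuadraticAlgebra.im_mul, QuadraticAlgebra.algebraMap_re,
    QuadraticAlgebra.algebraMap_im, mul_zero, zero_mul, add_zero] at h
  exact ⟨dvd_base _ h.1, dvd_base _ h.2⟩

end Q

end Pool.Agent.H659Z.HD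

namespace Pool.Agent.H659Z.HD

universe u

variable (K : Type u) [Field K] (k : ℕ)

/-- the coordinate ring of the surface `y^2 = 4 x^(k+1) (x-1) z + (x-1)^2` -/
def O : Type u := Q.O K k

noncomputable instance : CommRing (O K k) := inferInstanceAs (CommRing (Q.O K k))
noncomputable instance : Algebra K (O K k) := inferInstanceAs (Algebra K (Q.O K k))

noncomputable def ox : O K k := Q.ox K k
noncomputable def oy : O K k := Q.oy K k
noncomputable def oz : O K k := Q.oz K k

theorem rel : Rel k (ox K k) (oy K k) (oz K k) := Q.rel K k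

variable {K k}

section lift
variable {S : Type*} [CommRing S] [Algebra K S]

noncomputable def lift (a b c : S) (h : Rel k a b c) : O K k →ₐ[K] S := Q.lift a b c h

@[simp] theorem lift_x (a b c : S) (h : Rel k a b c) : lift (K := K) a b c h (ox K k) = a :=
  Q.lift_x a b c h

@[simp] theorem lift_y (a b c : S) (h : Rel k a b c) : lift (K := K) a b c h (oy K k) = b :=
  Q.lift_y a b c h

@[simp] theorem lift_z (a b c : S) (h : Rel k a b c) : lift (K := K) a b c h (oz K k) = c :=
  Q.lift_z a b c h

end lift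

theorem ind (P : O K k → Prop) (hc : ∀ c : K, P (algebraMap K _ c)) (hx : P (ox K k))
    (hy : P (oy K k)) (hz : P (oz K k)) (hadd : ∀ a b, P a → P b → P (a + b))
    (hmul : ∀ a b, P a → P b → P (a * b)) (g : O K k) : P g :=
  Q.ind P hc hx hy hz hadd hmul g

theorem hom_ext {S : Type*} [CommRing S] [Algebra K S] {f g : O K k →ₐ[K] S}
    (hx : f (ox K k) = g (ox K k)) (hy : f (oy K k) = g (oy K k)) (hz : f (oz K k) = g (oz K k)) :
    f = g := by
  ext a
  induction a using ind with
  | hc c => simp
  | hx => exact hx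
  | hy => exact hy
  | hz => exact hz
  | hadd a b ha hb => simp [ha, hb]
  | hmul a b ha hb => simp [ha, hb]

theorem der_ext {D D' : Derivation K (O K k) (O K k)}
    (hx : D (ox K k) = D' (ox K k)) (hy : D (oy K k) = D' (oy K k)) (hz : D (oz K k) = D' (oz K k)) :
    D = D' := by
  ext1 a
  induction a using ind with
  | hc c => simp
  | hx => exact hx
  | hy => exact hy
  | hz => exact hz
  | hadd a b ha hb => simp [ha, hb]
  | hmul a b ha hb => simp [ha, hb]

theorem finiteType : Algebra.FiniteType K (O K k) := Q.finiteType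

variable [CharZero K]

instance : IsDomain (O K k) := inferInstanceAs (IsDomain (Q.O K k))

theorem unit_const (g : O K k) (h : IsUnit g) : ∃ c : K, c ≠ 0 ∧ g = algebraMap K _ c :=
  Q.unit_const g h

theorem GZ_ne : GZ k (ox K k) ≠ 0 := Q.GZ_ne

theorem dvd_O (g : O K k) (h : GZ k (ox K k) ∣ GX k (ox K k) (oz K k) * g) : GZ k (ox K k) ∣ g :=
  Q.dvd_O g h

section der
variable {S : Type*} [CommRing S] [Algebra K S]

include K in
theorem two_cancel {a : S} (h : 2 * a = 0) : a = 0 := by
  have h2 : algebraMap K S 2⁻¹ * 2 = 1 := by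
    rw [← map_ofNat (algebraMap K S) 2, ← map_mul]; simp
  linear_combination algebraMap K S 2⁻¹ * h - a * h2

theorem der_rel {a b c : S} (h : Rel k a b c) (D : Derivation K S S) :
    GX k a c * D a - b * D b + GZ k a * D c = 0 := by
  have := congrArg D h
  have h4 : D 4 = 0 := by exact_mod_cast D.map_natCast 4
  simp only [Derivation.leibniz_pow, map_add, Derivation.leibniz, map_sub, Derivation.map_one_eq_zero,
    h4, smul_eq_mul, nsmul_eq_mul, Nat.add_sub_cancel] at this
  apply two_cancel (K := K)
  unfold GX GZ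
  push_cast at this
  linear_combination -this

/-- the dual number `a + p e` -/
def dn (a p : S) : DualNumber S := ⟨a, p⟩
@[simp] theorem dn_fst (a p : S) : (dn a p).fst = a := rfl
@[simp] theorem dn_snd (a p : S) : (dn a p).snd = p := rfl
theorem fst_nat (n : ℕ) : (n : DualNumber S).fst = n := rfl
theorem snd_nat (n : ℕ) : (n : DualNumber S).snd = 0 := rfl
theorem fst_two : (2 : DualNumber S).fst = 2 := by exact_mod_cast fst_nat (S := S) 2
theorem snd_two : (2 : DualNumber S).snd = 0 := by exact_mod_cast snd_nat (S := S) 2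
theorem fst_four : (4 : DualNumber S).fst = 4 := by exact_mod_cast fst_nat (S := S) 4
theorem snd_four : (4 : DualNumber S).snd = 0 := by exact_mod_cast snd_nat (S := S) 4

theorem rel_dual {a b c p q r : S} (h : Rel k a b c) (h' : GX k a c * p - b * q + GZ k a * r = 0) :
    Rel k (dn a p) (dn b q) (dn c r) := by
  unfold Rel GX GZ at *
  apply TrivSqZeroExt.ext
  · simpa [fst_four] using h
  · simp only [TrivSqZeroExt.snd_pow, TrivSqZeroExt.snd_add, DualNumber.snd_mul, TrivSqZeroExt.fst_mul,
      TrivSqZeroExt.fst_pow, dn_fst, dn_snd, TrivSqZeroExt.fst_sub,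
      TrivSqZeroExt.snd_sub, TrivSqZeroExt.fst_one, TrivSqZeroExt.snd_one, fst_four,
      snd_four, smul_eq_mul, nsmul_eq_mul, Nat.pred_succ]
    push_cast
    linear_combination (-2) * h'

omit [CharZero K] in
/-- the derivation attached to a section of the dual numbers -/
noncomputable def derOfHom (φ : S →ₐ[K] DualNumber S) (h : ∀ a, (φ a).fst = a) : Derivation K S S :=
  Derivation.mk'
    { toFun := fun a => (φ a).snd
      map_add' := fun a b => by simp
      map_smul' := fun c a => by simp }
    (fun a b => by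
      simp only [LinearMap.coe_mk, AddHom.coe_mk, map_mul, DualNumber.snd_mul, h, smul_eq_mul]
      ring)

omit [CharZero K] in
theorem derOfHom_apply (φ : S →ₐ[K] DualNumber S) (h : ∀ a, (φ a).fst = a) (a : S) :
    derOfHom φ h a = (φ a).snd := rfl

omit [Algebra K S] in
include K in
theorem sing {T : Type*} [CommRing T] [Algebra K T] {a b c A B C : S} (ev : S → T)
    (hτ : ∀ p q r : T, ∃ τ : S →+* DualNumber T, (∀ g, (τ g).fst = ev g) ∧ τ a = dn 1 p ∧
      τ b = dn 0 q ∧ τ c = dn 0 r)
    (h : GX k a c * A - b * B + GZ k a * C = 0) : ev A = 0 ∧ ev B = 0 ∧ ev C = 0 := by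
  have key : ∀ p q r : T, (2 * r + p) * ev A - q * ev B + 2 * p * ev C = 0 := by
    intro p q r
    obtain ⟨τ, h1, h2, h3, h4⟩ := hτ p q r
    have := congrArg (fun g => (τ g).snd) h
    simp only [GX, GZ, map_add, map_sub, map_mul, map_pow, map_one, map_ofNat, map_natCast, h2, h3, h4,
      map_zero, TrivSqZeroExt.snd_pow, TrivSqZeroExt.snd_add, DualNumber.snd_mul, TrivSqZeroExt.fst_mul,
      TrivSqZeroExt.fst_pow, dn_fst, dn_snd, TrivSqZeroExt.fst_sub,
      TrivSqZeroExt.fst_add, TrivSqZeroExt.snd_sub, TrivSqZeroExt.fst_one, TrivSqZeroExt.snd_one,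
      fst_two, snd_two, TrivSqZeroExt.snd_zero, h1, one_pow] at this
    linear_combination this
  have k1 := key 0 0 1
  have k2 := key 0 1 0
  have k3 := key 1 0 0
  have hA : ev A = 0 := two_cancel (K := K) (by linear_combination k1)
  exact ⟨hA, by linear_combination -k2, two_cancel (K := K) (by linear_combination k3 - hA)⟩

end der

omit [CharZero K] in
/-- the derivation of `O` with given values on the generators -/
noncomputable def mkDer (p q r : O K k)
    (h : GX k (ox K k) (oz K k) * p - oy K k * q + GZ k (ox K k) * r = 0) :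
    Derivation K (O K k) (O K k) :=
  derOfHom (lift _ _ _ (rel_dual (rel K k) h)) (fun a => by
    have : (TrivSqZeroExt.fstHom K (O K k) (O K k)).comp (lift _ _ _ (rel_dual (rel K k) h))
        = AlgHom.id K _ := hom_ext (by simp) (by simp) (by simp)
    exact DFunLike.congr_fun this a)

omit [CharZero K] in
@[simp] theorem mkDer_x (p q r : O K k) (h) : mkDer p q r h (ox K k) = p := by
  simp [mkDer, derOfHom_apply]

omit [CharZero K] in
@[simp] theorem mkDer_y (p q r : O K k) (h) : mkDer p q r h (oy K k) = q := by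
  simp [mkDer, derOfHom_apply]

omit [CharZero K] in
@[simp] theorem mkDer_z (p q r : O K k) (h) : mkDer p q r h (oz K k) = r := by
  simp [mkDer, derOfHom_apply]

end Pool.Agent.H659Z.HD
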