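import Mathlib
import Pool.Agent.H659Z.HDRing

set_option autoImplicit false
open Polynomial

namespace Pool.Agent.H659Z.HD

universe u

variable {K : Type u} [Field K] {k : ℕ}

section nil
variable {A : Type u} [CommRing A] [Algebra K A] (D : Derivation K A A)

theorem nil_mul : ∀ (n i j : ℕ) (a b : A), i + j = n → D^[i] a = 0 → D^[j] b = 0 →
    D^[n] (a * b) = 0 := by
  intro n
  induction n with
  | zero =>
    intro i j a b h ha _
    obtain rfl : i = 0 := by omega
    simp only [Function.iterate_zero, id_eq] at ha ⊢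
    rw [ha, zero_mul]
  | succ n ih =>
    intro i j a b h ha hb
    cases i with
    | zero =>
      simp only [Function.iterate_zero, id_eq] at ha
      rw [ha, zero_mul, iterate_map_zero]
    | succ i =>
      cases j with
      | zero =>
        simp only [Function.iterate_zero, id_eq] at hb
        rw [hb, mul_zero, iterate_map_zero]
      | succ j =>
        rw [Function.iterate_succ_apply, D.leibniz, smul_eq_mul, smul_eq_mul, iterate_map_add,
          ih (i + 1) j a (D b) (by omega) ha hb, mul_comm b, ih i (j + 1) (D a) b (by omega) ha hb,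
          add_zero]

theorem iter_le {i j : ℕ} {a : A} (h : i ≤ j) (ha : D^[i] a = 0) : D^[j] a = 0 := by
  obtain ⟨m, rfl⟩ := Nat.exists_eq_add_of_le' h
  rw [Function.iterate_add_apply, ha, iterate_map_zero]

/-- the elements killed by an iterate of `D` -/
def nilSub : Subalgebra K A where
  carrier := {a | ∃ n : ℕ, D^[n] a = 0}
  mul_mem' := fun ⟨i, hi⟩ ⟨j, hj⟩ => ⟨i + j, nil_mul D _ i j _ _ rfl hi hj⟩
  add_mem' := fun ⟨i, hi⟩ ⟨j, hj⟩ => ⟨i + j, by
    rw [iterate_map_add, iter_le D (by omega) hi, iter_le D (by omega) hj, add_zero]⟩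
  algebraMap_mem' c := ⟨1, by simp⟩

theorem nil_of_der {a : A} (h : D a ∈ nilSub D) : a ∈ nilSub D := by
  obtain ⟨n, hn⟩ := h
  exact ⟨n + 1, hn⟩

end nil

theorem rel_map {S T : Type*} [CommRing S] [CommRing T] (f : S →+* T) {a b c : S} (h : Rel k a b c) :
    Rel k (f a) (f b) (f c) := by
  have := congrArg f h
  simpa only [Rel, map_add, map_mul, map_pow, map_sub, map_one, map_ofNat] using this

theorem relC : Rel k (C (ox K k)) (C (oy K k)) (C (oz K k)) := rel_map C (rel K k)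

theorem indP (P : (O K k)[X] → Prop) (hc : ∀ c : K, P (algebraMap K _ c)) (hx : P (C (ox K k)))
    (hy : P (C (oy K k))) (hz : P (C (oz K k))) (hu : P X) (hadd : ∀ a b, P a → P b → P (a + b))
    (hmul : ∀ a b, P a → P b → P (a * b)) (g : (O K k)[X]) : P g := by
  have h1 : ∀ f, P (C f) := fun f => ind (fun f => P (C f)) hc hx hy hz
    (fun a b ha hb => by rw [map_add]; exact hadd _ _ ha hb)
    (fun a b ha hb => by rw [map_mul]; exact hmul _ _ ha hb) f
  induction g using Polynomial.induction_on with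
  | C a => exact h1 a
  | add p q hp hq => exact hadd _ _ hp hq
  | monomial n a h => rw [pow_succ, ← mul_assoc]; exact hmul _ _ h hu

theorem hom_extP {S : Type*} [CommRing S] [Algebra K S] {f g : (O K k)[X] →ₐ[K] S}
    (hx : f (C (ox K k)) = g (C (ox K k))) (hy : f (C (oy K k)) = g (C (oy K k)))
    (hz : f (C (oz K k)) = g (C (oz K k))) (hu : f X = g X) : f = g := by
  refine AlgHom.ext fun a => ?_
  induction a using indP with
  | hc c => rw [AlgHom.commutes, AlgHom.commutes]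
  | hx => exact hx
  | hy => exact hy
  | hz => exact hz
  | hu => exact hu
  | hadd a b ha hb => simp [ha, hb]
  | hmul a b ha hb => simp [ha, hb]

/-- the derivation `d/du + p H` of the cylinder -/
noncomputable def DP (p : (O K k)[X]) : Derivation K (O K k)[X] (O K k)[X] :=
  derOfHom (aevalTower (lift _ _ _ (rel_dual (p := 0) (q := p * GZ k (C (ox K k)))
    (r := p * C (oy K k)) relC (by ring))) (dn X 1)) (fun a => by
    have : (TrivSqZeroExt.fstHom K (O K k)[X] (O K k)[X]).comp (aevalTower (lift _ _ _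
      (rel_dual (p := 0) (q := p * GZ k (C (ox K k))) (r := p * C (oy K k)) relC (by ring))) (dn X 1))
        = AlgHom.id K _ := hom_extP (by simp) (by simp) (by simp) (by simp)
    exact DFunLike.congr_fun this a)

theorem DP_x (p : (O K k)[X]) : DP p (C (ox K k)) = 0 := by simp [DP, derOfHom_apply]
theorem DP_y (p : (O K k)[X]) : DP p (C (oy K k)) = p * GZ k (C (ox K k)) := by
  simp [DP, derOfHom_apply]
theorem DP_z (p : (O K k)[X]) : DP p (C (oz K k)) = p * C (oy K k) := by simp [DP, derOfHom_apply]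
theorem DP_u (p : (O K k)[X]) : DP p X = 1 := by simp [DP, derOfHom_apply]

theorem DP_lnd (c : K) (N : ℕ) : IsLND K (DP (K := K) (k := k) (algebraMap K _ c * X ^ N)) := by
  set D := DP (K := K) (k := k) (algebraMap K _ c * X ^ N) with hD
  have hu : X ∈ nilSub D := nil_of_der D (by rw [hD, DP_u]; exact one_mem _)
  have hx : C (ox K k) ∈ nilSub D := nil_of_der D (by rw [hD, DP_x]; exact zero_mem _)
  have hp : algebraMap K _ c * X ^ N ∈ nilSub D := mul_mem (Subalgebra.algebraMap_mem _ _) (pow_mem hu _)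
  have hy : C (oy K k) ∈ nilSub D := nil_of_der D (by
    rw [hD, DP_y, ← hD]
    exact mul_mem hp (mul_mem (mul_mem (ofNat_mem _ 2) (pow_mem hx _)) (sub_mem hx (one_mem _))))
  have hz : C (oz K k) ∈ nilSub D := nil_of_der D (by rw [hD, DP_z, ← hD]; exact mul_mem hp hy)
  intro a
  exact indP (fun a => a ∈ nilSub D) (Subalgebra.algebraMap_mem _) hx hy hz hu
    (fun _ _ => add_mem) (fun _ _ => mul_mem) a

theorem mem_HD (N : ℕ) : X ^ (N + 1) * GZ k (C (ox K k)) ∈ HDstar K (O K k)[X] := by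
  have h1 : C (oy K k) ∈ HDstar K (O K k)[X] :=
    Algebra.subset_adjoin ⟨_, DP_lnd 0 0, ⟨X, DP_u _⟩, by rw [DP_y]; simp⟩
  have h2 : ((N + 1 : ℕ) : (O K k)[X]) * C (oy K k) - X ^ (N + 1) * GZ k (C (ox K k))
      ∈ HDstar K (O K k)[X] := by
    refine Algebra.subset_adjoin ⟨_, DP_lnd 1 N, ⟨X, DP_u _⟩, ?_⟩
    have h4 : ∀ p, DP (K := K) (k := k) p 2 = 0 := fun p => by
      exact_mod_cast (DP (K := K) (k := k) p).map_natCast 2
    simp only [map_sub, Derivation.leibniz, Derivation.map_natCast, DP_y, DP_x, DP_u, GZ,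
      Derivation.leibniz_pow, Derivation.map_one_eq_zero, h4, smul_eq_mul, nsmul_eq_mul,
      Nat.add_sub_cancel, map_one]
    ring
  have := sub_mem (mul_mem (natCast_mem _ (N + 1)) h1) h2
  simpa using this

theorem rel_pt {S : Type*} [CommRing S] : Rel k (1 : S) 0 0 := by simp [Rel]

/-- evaluation at the singular point -/
noncomputable def ev0 : O K k →ₐ[K] K := lift 1 0 0 rel_pt

/-- restriction to the singular line -/
noncomputable def evL : (O K k)[X] →ₐ[K] K[X] := aevalTower (lift 1 0 0 rel_pt) X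

theorem evL_C (f : O K k) : evL (C f) = C (ev0 f) := by
  have : (lift 1 0 0 rel_pt : O K k →ₐ[K] K[X]) = (Algebra.ofId K K[X]).comp ev0 :=
    hom_ext (by simp [ev0]) (by simp [ev0]) (by simp [ev0])
  rw [evL, aevalTower_C, this]
  rfl

theorem evL_coeff (g : (O K k)[X]) (j : ℕ) : (evL g).coeff j = ev0 (g.coeff j) := by
  induction g using Polynomial.induction_on' with
  | add p q hp hq => simp [hp, hq]
  | monomial n a =>
    rw [← C_mul_X_pow_eq_monomial, map_mul, map_pow, evL_C]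
    simp only [evL, aevalTower_X, coeff_C_mul_X_pow]
    split_ifs <;> simp

variable [CharZero K]

theorem chain (D : Derivation K (O K k)[X] (O K k)[X]) (g : (O K k)[X]) :
    evL (D g) = derivative (evL g) * evL (D X) := by
  obtain ⟨h1, h2, h3⟩ := sing (K := K) (k := k) (evL (K := K) (k := k)) (fun p q r => by
    refine ⟨(aevalTower (lift (K := K) _ _ _ (rel_dual (p := p) (q := q) (r := r) rel_pt
      (by simp [GX, GZ]))) (dn X 0)).toRingHom, fun g => ?_, by simp, by simp, by simp⟩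
    have : (TrivSqZeroExt.fstHom K K[X] K[X]).comp (aevalTower (lift (K := K) (k := k) _ _ _
      (rel_dual (p := p) (q := q) (r := r) rel_pt (by simp [GX, GZ]))) (dn X 0)) = evL :=
      hom_extP (by simp [evL]) (by simp [evL]) (by simp [evL]) (by simp [evL])
    exact DFunLike.congr_fun this g) (der_rel relC D)
  induction g using indP with
  | hc c => rw [Derivation.map_algebraMap, AlgHom.commutes]; simp
  | hx => rw [h1, evL_C]; simp
  | hy => rw [h2, evL_C]; simp
  | hz => rw [h3, evL_C]; simp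
  | hu => simp [evL]
  | hadd a b ha hb => simp only [map_add, ha, hb]; ring
  | hmul a b ha hb =>
    simp only [Derivation.leibniz, smul_eq_mul, map_add, map_mul, ha, hb, derivative_mul]; ring

omit [CharZero K] in
/-- functions that are constant on the singular line -/
noncomputable def cst : Subalgebra K (O K k)[X] where
  carrier := {g | derivative (evL g) = 0}
  mul_mem' {a b} ha hb := by
    simp only [Set.mem_ofPred_eq] at ha hb ⊢
    rw [map_mul, derivative_mul, ha, hb]; simp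
  add_mem' {a b} ha hb := by
    simp only [Set.mem_ofPred_eq] at ha hb ⊢
    rw [map_add, derivative_add, ha, hb]; simp
  algebraMap_mem' c := by
    simp only [Set.mem_ofPred_eq]
    rw [AlgHom.commutes]; simp

theorem HD_le : HDstar K (O K k)[X] ≤ cst := by
  refine Algebra.adjoin_le ?_
  rintro a ⟨D, -, ⟨s, hs⟩, ha⟩
  have h1 := chain D s
  have h2 := chain D a
  rw [hs, map_one] at h1
  rw [ha, map_zero] at h2
  rcases mul_eq_zero.1 h2.symm with h | h
  · exact h
  · rw [h] at h1; simp at h1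

theorem typeB : TypeB K (O K k) := by
  refine ⟨fun h => ?_, ?_⟩
  · have : (X : (O K k)[X]) ∈ cst := HD_le (by rw [h]; trivial)
    have h2 : derivative (evL (X : (O K k)[X])) = 0 := this
    simp [evL] at h2
  · rintro ⟨s, hs⟩
    obtain ⟨d, hd⟩ : ∃ d : ℕ, ∀ g ∈ s, g.natDegree < d + 1 :=
      ⟨s.sup natDegree, fun g hg => Nat.lt_succ_of_le (Finset.le_sup (f := natDegree) hg)⟩
    have hr : Rel k (1 + X ^ (d + 1) : K[X]) (X ^ (d + 1)) 0 := by simp [Rel]
    let κ : O K k →ₐ[K] K[X] := lift _ _ _ hr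
    let θ : (O K k)[X] →ₐ[K] LaurentPolynomial K :=
      aevalTower (toLaurentAlg.comp κ) (LaurentPolynomial.T (-1))
    have hκ : ∀ f, X ^ (d + 1) ∣ κ f - C (ev0 f) := by
      intro f
      induction f using ind with
      | hc c => simp
      | hx => simp [κ, ev0]
      | hy => simp [κ, ev0]
      | hz => simp [κ, ev0]
      | hadd a b ha hb =>
        rw [map_add, map_add, map_add, add_sub_add_comm]; exact dvd_add ha hb
      | hmul a b ha hb =>
        have : κ (a * b) - C (ev0 (a * b)) = κ a * (κ b - C (ev0 b)) + (κ a - C (ev0 a)) * C (ev0 b) := by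
          simp only [map_mul]; ring
        rw [this]
        exact dvd_add (hb.mul_left _) (ha.mul_right _)
    have hle : HDstar K (O K k)[X] ≤ (toLaurentAlg (R := K)).range.comap θ := by
      rw [← hs]
      refine Algebra.adjoin_le fun g hg => ?_
      have hc : derivative (evL g) = 0 := HD_le (hs ▸ Algebra.subset_adjoin hg)
      have hc' := eq_C_of_derivative_eq_zero hc
      show θ g ∈ (toLaurentAlg (R := K)).range
      rw [g.as_sum_range' (d + 1) (hd g hg), map_sum]
      refine sum_mem fun j hj => ?_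
      rw [← C_mul_X_pow_eq_monomial, map_mul, map_pow]
      simp only [θ, aevalTower_C, aevalTower_X, AlgHom.comp_apply, LaurentPolynomial.T_pow]
      rcases Nat.eq_zero_or_pos j with rfl | hj0
      · exact ⟨κ (g.coeff 0), by simp⟩
      · have h0 : ev0 (g.coeff j) = 0 := by
          rw [← evL_coeff, hc', coeff_C, if_neg (by omega)]
        obtain ⟨q, hq⟩ := hκ (g.coeff j)
        rw [h0, map_zero, sub_zero] at hq
        rw [Finset.mem_range] at hj
        refine ⟨q * X ^ (d + 1 - j), ?_⟩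
        rw [hq]
        simp only [AlgHom.toRingHom_eq_coe, RingHom.coe_coe, map_mul, toLaurentAlg_apply,
          toLaurent_X_pow]
        rw [mul_comm (LaurentPolynomial.T _), LaurentPolynomial.mul_T_assoc]
        congr 2
        push_cast [Nat.cast_sub hj.le]
        ring
    obtain ⟨p, hp⟩ := hle (mem_HD (d + 1))
    have h1 : θ (GZ k (C (ox K k))) = toLaurent (GZ k (1 + X ^ (d + 1) : K[X])) := by
      simp only [GZ, θ, κ, map_mul, map_sub, map_pow, map_one, map_ofNat, aevalTower_C,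
        AlgHom.comp_apply, lift_x, toLaurentAlg_apply]
    have h2 : θ X = LaurentPolynomial.T (-1) := by simp [θ]
    replace hp : toLaurent p = θ (X ^ (d + 1 + 1) * GZ k (C (ox K k))) := hp
    rw [map_mul, h1, map_pow, h2, LaurentPolynomial.T_pow] at hp
    have h3 : toLaurent (p * X ^ (d + 1 + 1)) = toLaurent (GZ k (1 + X ^ (d + 1) : K[X])) := by
      rw [map_mul, toLaurent_X_pow]
      rw [hp, LaurentPolynomial.T_mul, LaurentPolynomial.mul_T_assoc,
        show ((d + 1 + 1 : ℕ) : ℤ) * -1 + ((d + 1 + 1 : ℕ) : ℤ) = 0 by ring, LaurentPolynomial.T_zero,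
        mul_one]
    have h4 := toLaurent_injective h3
    rw [GZ, add_sub_cancel_left, pow_succ' X (d + 1), ← mul_assoc] at h4
    have h5 := congrArg (eval 0) (mul_right_cancel₀ (pow_ne_zero _ X_ne_zero) h4)
    simp at h5

omit [CharZero K] in
theorem cylinder : Nonempty ((O K 0)[X] ≃ₐ[K] (O K 1)[X]) := by
  have r0 := relC (K := K) (k := 0)
  have r1 := relC (K := K) (k := 1)
  set x := C (ox K 0)
  set y := C (oy K 0)
  set z := C (oz K 0)
  set x' := C (ox K 1)
  set y' := C (oy K 1)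
  set z' := C (oz K 1)
  have h1 : Rel 1 x (y * (1 - 2 * x * (x - 1) * z) + 2 * x ^ 2 * (x - 1) * X)
      (z * (2 - x) + (x - 1) * z ^ 2 * ((x - 1) ^ 2 - 4) + 4 * x * (x - 1) ^ 2 * z ^ 3
        + X * y * (1 - 2 * x * (x - 1) * z) + x ^ 2 * (x - 1) * X ^ 2) := by
    unfold Rel at r0 ⊢
    linear_combination (1 - 2 * x * (x - 1) * z) ^ 2 * r0
  have h0 : Rel 0 x' (y' - 2 * (x' - 1) * x' * X) (x' * z' - X * y' + (x' - 1) * x' * X ^ 2) := by
    unfold Rel at r1 ⊢
    linear_combination r1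
  let Φ : (O K 1)[X] →ₐ[K] (O K 0)[X] := aevalTower (lift _ _ _ h1) (x * X - y * z)
  let Ψ : (O K 0)[X] →ₐ[K] (O K 1)[X] := aevalTower (lift _ _ _ h0)
    (X * (2 - x' - 4 * x' * (x' - 1) * z') + y' * z' + (x' - 1) * X ^ 2 * y'
      - 2 * (x' - 1) * X * (x' * z' - X * y' + (x' - 1) * x' * X ^ 2))
  have a1 : Φ x' = x := by simp [Φ, x']
  have a2 : Φ y' = y * (1 - 2 * x * (x - 1) * z) + 2 * x ^ 2 * (x - 1) * X := by simp [Φ, y']
  have a3 : Φ z' = z * (2 - x) + (x - 1) * z ^ 2 * ((x - 1) ^ 2 - 4) + 4 * x * (x - 1) ^ 2 * z ^ 3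
        + X * y * (1 - 2 * x * (x - 1) * z) + x ^ 2 * (x - 1) * X ^ 2 := by simp [Φ, z']
  have a4 : Φ X = x * X - y * z := by simp [Φ]
  have b1 : Ψ x = x' := by simp [Ψ, x]
  have b2 : Ψ y = y' - 2 * (x' - 1) * x' * X := by simp [Ψ, y]
  have b3 : Ψ z = x' * z' - X * y' + (x' - 1) * x' * X ^ 2 := by simp [Ψ, z]
  have b4 : Ψ X = X * (2 - x' - 4 * x' * (x' - 1) * z') + y' * z' + (x' - 1) * X ^ 2 * y'
      - 2 * (x' - 1) * X * (x' * z' - X * y' + (x' - 1) * x' * X ^ 2) := by simp [Ψ]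
  unfold Rel at r0 r1
  refine ⟨AlgEquiv.ofAlgHom Ψ Φ (hom_extP ?_ ?_ ?_ ?_) (hom_extP ?_ ?_ ?_ ?_)⟩
  all_goals
    simp only [AlgHom.comp_apply, AlgHom.id_apply]
  · show Ψ (Φ x') = x'
    rw [a1, b1]
  · show Ψ (Φ y') = y'
    simp only [a2, map_add, map_sub, map_mul, map_pow, map_one, map_ofNat, b1, b2, b3, b4]
    linear_combination ((-2) * x' ^ 1 * X ^ 1 + (2) * x' ^ 2 * X ^ 1) * r1
  · show Ψ (Φ z') = z'
    simp only [a3, map_add, map_sub, map_mul, map_pow, map_one, map_ofNat, b1, b2, b3, b4]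
    linear_combination ((1) * z' ^ 1 + (-2) * x' ^ 1 * X ^ 2 + (2) * x' ^ 1 * y' ^ 1 * X ^ 3 + (-2) * x' ^ 1 * y' ^ 1 * z' ^ 1 * X ^ 1 + (3) * x' ^ 2 * X ^ 2 + (1) * x' ^ 2 * X ^ 4 + (-6) * x' ^ 2 * z' ^ 1 * X ^ 2 + (1) * x' ^ 2 * z' ^ 2 + (-4) * x' ^ 2 * y' ^ 1 * X ^ 3 + (2) * x' ^ 2 * y' ^ 1 * z' ^ 1 * X ^ 1 + (-1) * x' ^ 3 * X ^ 2 + (-3) * x' ^ 3 * X ^ 4 + (12) * x' ^ 3 * z' ^ 1 * X ^ 2 + (-1) * x' ^ 3 * z' ^ 2 + (2) * x' ^ 3 * y' ^ 1 * X ^ 3 + (3) * x' ^ 4 * X ^ 4 + (-6) * x' ^ 4 * z' ^ 1 * X ^ 2 + (-1) * x' ^ 5 * X ^ 4) * r1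
  · simp only [a4, map_add, map_sub, map_mul, map_pow, map_one, map_ofNat, b1, b2, b3, b4]
    linear_combination ((1) * X ^ 1) * r1
  · show Φ (Ψ x) = x
    rw [b1, a1]
  · show Φ (Ψ y) = y
    simp only [b2, map_add, map_sub, map_mul, map_pow, map_one, map_ofNat, a1, a2, a3, a4]
    linear_combination (0) * r0
  · show Φ (Ψ z) = z
    simp only [b3, map_add, map_sub, map_mul, map_pow, map_one, map_ofNat, a1, a2, a3, a4]
    linear_combination ((1) * z ^ 1 + (1) * x ^ 1 * z ^ 2 + (-1) * x ^ 2 * z ^ 2) * r0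
  · simp only [b4, map_add, map_sub, map_mul, map_pow, map_one, map_ofNat, a1, a2, a3, a4]
    linear_combination ((1) * X ^ 1 + (-3) * y ^ 1 * z ^ 2 + (4) * x ^ 1 * z ^ 1 * X ^ 1 + (3) * x ^ 1 * y ^ 1 * z ^ 2 + (-4) * x ^ 1 * y ^ 1 * z ^ 3 + (-4) * x ^ 2 * z ^ 1 * X ^ 1 + (4) * x ^ 2 * z ^ 2 * X ^ 1 + (8) * x ^ 2 * y ^ 1 * z ^ 3 + (-8) * x ^ 3 * z ^ 2 * X ^ 1 + (-4) * x ^ 3 * y ^ 1 * z ^ 3 + (4) * x ^ 4 * z ^ 2 * X ^ 1) * r0

end Pool.Agent.H659Z.HD
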