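import Mathlib
import Pool.Agent.H659Z.HDTypeB

set_option autoImplicit false
open Polynomial

namespace Pool.Agent.H659Z.HD

universe u

variable {K : Type u} [Field K] {k : ℕ}

noncomputable def Hx : Derivation K (O K k) (O K k) := mkDer 0 (GZ k (ox K k)) (oy K k) (by ring)
noncomputable def Hy : Derivation K (O K k) (O K k) :=
  mkDer (-GZ k (ox K k)) 0 (GX k (ox K k) (oz K k)) (by ring)
noncomputable def Hz : Derivation K (O K k) (O K k) :=
  mkDer (-oy K k) (-GX k (ox K k) (oz K k)) 0 (by ring)

theorem H_rel (f : O K k) :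
    GX k (ox K k) (oz K k) * (-Hx f) - oy K k * (-Hy f) + GZ k (ox K k) * (-Hz f) = 0 := by
  have : GX k (ox K k) (oz K k) • Hx - oy K k • Hy + GZ k (ox K k) • Hz = (0 : Derivation K (O K k) _) :=
    der_ext (by simp [Hx, Hy, Hz]; ring) (by simp [Hx, Hy, Hz]; ring) (by simp [Hx, Hy, Hz]; ring)
  have h := DFunLike.congr_fun this f
  simp only [Derivation.coe_add, Derivation.coe_sub, Derivation.coe_smul, Pi.add_apply, Pi.sub_apply,
    Pi.smul_apply, smul_eq_mul, Derivation.coe_zero, Pi.zero_apply] at h
  linear_combination -h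

/-- the Poisson bracket -/
noncomputable def pb (f : O K k) : Derivation K (O K k) (O K k) :=
  mkDer (-Hx f) (-Hy f) (-Hz f) (H_rel f)

theorem pb_x : pb (ox K k) = Hx := der_ext (by simp [pb, Hx]) (by simp [pb, Hx, Hy]) (by simp [pb, Hx, Hz])
theorem pb_y : pb (oy K k) = Hy := der_ext (by simp [pb, Hx, Hy]) (by simp [pb, Hy]) (by simp [pb, Hy, Hz])
theorem pb_z : pb (oz K k) = Hz := der_ext (by simp [pb, Hx, Hz]) (by simp [pb, Hy, Hz]) (by simp [pb, Hz])

theorem pb_skew (f g : O K k) : pb f g = -pb g f := by
  induction g using ind with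
  | hc c =>
    have : pb (algebraMap K (O K k) c) = 0 := der_ext (by simp [pb]) (by simp [pb]) (by simp [pb])
    simp [this]
  | hx => rw [pb_x]; simp [pb]
  | hy => rw [pb_y]; simp [pb]
  | hz => rw [pb_z]; simp [pb]
  | hadd a b ha hb =>
    have : pb (a + b) = pb a + pb b :=
      der_ext (by simp [pb]; ring) (by simp [pb]; ring) (by simp [pb]; ring)
    simp only [this, map_add, ha, hb, Derivation.coe_add, Pi.add_apply]; ring
  | hmul a b ha hb =>
    have : pb (a * b) = a • pb b + b • pb a :=
      der_ext (by simp [pb]; ring) (by simp [pb]; ring) (by simp [pb]; ring)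
    simp only [this, Derivation.leibniz, ha, hb, Derivation.coe_add, Pi.add_apply, Derivation.coe_smul,
      Pi.smul_apply, smul_eq_mul]; ring

theorem pb_xy : pb (ox K k) (oy K k) = GZ k (ox K k) := by rw [pb_x]; simp [Hx]

variable [CharZero K]

theorem skew_zero (B : O K k → Derivation K (O K k) (O K k)) (hB : ∀ f g, B f g = -B g f)
    (h1 : B (ox K k) (oy K k) = 0) (h2 : B (oy K k) (oz K k) = 0) (h3 : B (oz K k) (ox K k) = 0)
    (f : O K k) : B f = 0 := by
  have d : ∀ a, B a a = 0 := fun a => two_cancel (K := K) (by linear_combination hB a a)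
  have bx : B (ox K k) = 0 := der_ext (by simp [d]) (by simp [h1]) (by rw [hB, h3]; simp)
  have bY : B (oy K k) = 0 := der_ext (by rw [hB, h1]; simp) (by simp [d]) (by simp [h2])
  have bz : B (oz K k) = 0 := der_ext (by simp [h3]) (by rw [hB, h2]; simp) (by simp [d])
  exact der_ext (by rw [hB, bx]; simp) (by rw [hB, bY]; simp) (by rw [hB, bz]; simp)

theorem skew_mul (B : O K k → Derivation K (O K k) (O K k)) (hB : ∀ f g, B f g = -B g f) :
    ∃ h : O K k, ∀ f g, B f g = h * pb f g := by
  have d : ∀ a, B a a = 0 := fun a => two_cancel (K := K) (by linear_combination hB a a)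
  have e1 := der_rel (rel K k) (B (ox K k))
  have e2 := der_rel (rel K k) (B (oy K k))
  rw [d] at e1 e2
  rw [hB (oy K k) (ox K k)] at e2
  obtain ⟨h, hh⟩ := dvd_O (B (ox K k) (oy K k)) ⟨B (oy K k) (oz K k), by linear_combination -e2⟩
  refine ⟨h, fun f g => ?_⟩
  have := skew_zero (fun f => B f - h • pb f) (fun f g => by
      simp only [Derivation.coe_sub, Derivation.coe_smul, Pi.sub_apply, Pi.smul_apply, smul_eq_mul]
      rw [hB f g, pb_skew f g]; ring)
    (by simp [pb_xy, hh, mul_comm])
    (by
      simp only [Derivation.coe_sub, Derivation.coe_smul, Pi.sub_apply, Pi.smul_apply, smul_eq_mul,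
        pb_y, Hy, mkDer_z]
      apply mul_left_cancel₀ (GZ_ne (K := K) (k := k))
      rw [hh] at e2
      linear_combination e2)
    (by
      simp only [Derivation.coe_sub, Derivation.coe_smul, Pi.sub_apply, Pi.smul_apply, smul_eq_mul,
        pb_z, Hz, mkDer_x]
      apply mul_left_cancel₀ (GZ_ne (K := K) (k := k))
      rw [hh, hB (ox K k) (oz K k)] at e1
      linear_combination -e1) f
  have h2 := DFunLike.congr_fun this g
  simp only [Derivation.coe_sub, Derivation.coe_smul, Pi.sub_apply, Pi.smul_apply, smul_eq_mul,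
    Derivation.coe_zero, Pi.zero_apply] at h2
  linear_combination h2

/-- a derivation of divergence one -/
def Liou (ξ : Derivation K (O K k) (O K k)) : Prop :=
  ∀ f g, ξ (pb f g) - pb f (ξ g) - pb (ξ f) g + pb f g = 0

theorem liou_one : ∃ ξ : Derivation K (O K 1) (O K 1), Liou ξ := by
  have r := rel K 1
  let ξ : Derivation K (O K 1) (O K 1) := mkDer (ox K 1 * (ox K 1 - 1)) (ox K 1 * oy K 1)
    ((2 - ox K 1) * oz K 1) (by
      unfold Rel at r
      unfold GX GZ
      push_cast
      linear_combination (-ox K 1) * r)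
  refine ⟨ξ, ?_⟩
  obtain ⟨h, hh⟩ := skew_mul (fun f => ⁅ξ, pb f⁆ - pb (ξ f) + pb f) (fun f g => by
    simp only [Derivation.coe_add, Derivation.coe_sub, Pi.add_apply, Pi.sub_apply,
      Derivation.commutator_apply]
    rw [pb_skew f g, pb_skew f (ξ g), pb_skew (ξ f) g, map_neg]; ring)
  simp only [Derivation.coe_add, Derivation.coe_sub, Pi.add_apply, Pi.sub_apply,
    Derivation.commutator_apply] at hh
  have h0 : h = 0 := by
    have h1 := hh (ox K 1) (oy K 1)
    have h2 : ξ 2 = 0 := by exact_mod_cast ξ.map_natCast 2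
    rw [pb_skew (ξ _), pb_xy, pb_x, pb_y] at h1
    simp only [GZ, Derivation.leibniz, Derivation.leibniz_pow, map_sub, h2, ξ, mkDer_x, mkDer_y,
      Hx, Hy, Derivation.map_one_eq_zero, smul_eq_mul, nsmul_eq_mul] at h1
    apply mul_right_cancel₀ (GZ_ne (K := K) (k := 1))
    unfold GZ
    push_cast at h1
    linear_combination -h1
  intro f g
  have := hh f g
  rw [h0, zero_mul] at this
  exact this

section laurent


noncomputable def th : LaurentPolynomial K[X] →+ LaurentPolynomial K[X] :=
  AddMonoidAlgebra.liftNC (LaurentPolynomial.C : K[X] →+* _)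
    (fun n => (n.toAdd : LaurentPolynomial K[X]) * LaurentPolynomial.T n.toAdd)

noncomputable def dv : LaurentPolynomial K[X] →+ LaurentPolynomial K[X] :=
  AddMonoidAlgebra.liftNC ((LaurentPolynomial.C : K[X] →+* _).toAddMonoidHom.comp
    (derivative : K[X] →ₗ[K] K[X]).toAddMonoidHom) (fun n => LaurentPolynomial.T n.toAdd)

omit [CharZero K] in
theorem th_CT (a : K[X]) (n : ℤ) : th (LaurentPolynomial.C a * LaurentPolynomial.T n)
    = (n : LaurentPolynomial K[X]) * (LaurentPolynomial.C a * LaurentPolynomial.T n) := by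
  rw [← LaurentPolynomial.single_eq_C_mul_T, th, AddMonoidAlgebra.liftNC_single,
    LaurentPolynomial.single_eq_C_mul_T]
  simp only [toAdd_ofAdd, AddMonoidHom.coe_coe]
  ring

omit [CharZero K] in
theorem dv_CT (a : K[X]) (n : ℤ) : dv (LaurentPolynomial.C a * LaurentPolynomial.T n)
    = LaurentPolynomial.C (derivative a) * LaurentPolynomial.T n := by
  rw [← LaurentPolynomial.single_eq_C_mul_T, dv, AddMonoidAlgebra.liftNC_single]
  rfl

omit [CharZero K] in
theorem CT_mul (a b : K[X]) (n m : ℤ) :
    (LaurentPolynomial.C a * LaurentPolynomial.T n) * (LaurentPolynomial.C b * LaurentPolynomial.T m)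
      = LaurentPolynomial.C (a * b) * LaurentPolynomial.T (n + m) := by
  rw [map_mul, LaurentPolynomial.T_add]; ring

omit [CharZero K] in
theorem th_mul (p q : LaurentPolynomial K[X]) : th (p * q) = p * th q + q * th p := by
  induction p using LaurentPolynomial.induction_on' with
  | add p p' h h' => simp only [add_mul, map_add, h, h']; ring
  | C_mul_T n a =>
    induction q using LaurentPolynomial.induction_on' with
    | add q q' h h' => simp only [mul_add, map_add, h, h']; ring
    | C_mul_T m b =>
      rw [CT_mul, th_CT, th_CT, th_CT, ← CT_mul]; push_cast; ring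

omit [CharZero K] in
theorem dv_mul (p q : LaurentPolynomial K[X]) : dv (p * q) = p * dv q + q * dv p := by
  induction p using LaurentPolynomial.induction_on' with
  | add p p' h h' => simp only [add_mul, map_add, h, h']; ring
  | C_mul_T n a =>
    induction q using LaurentPolynomial.induction_on' with
    | add q q' h h' => simp only [mul_add, map_add, h, h']; ring
    | C_mul_T m b =>
      rw [CT_mul, dv_CT, dv_CT, dv_CT, derivative_mul, map_add, map_mul, map_mul,
        LaurentPolynomial.T_add]; ring

omit [CharZero K] in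
theorem th_coeff (p : LaurentPolynomial K[X]) : (th p).coeff 0 = 0 := by
  induction p using LaurentPolynomial.induction_on' with
  | add p p' h h' => simp [h, h']
  | C_mul_T n a =>
    rw [th_CT, ← mul_assoc, ← map_intCast (LaurentPolynomial.C : K[X] →+* _), ← map_mul,
      ← LaurentPolynomial.single_eq_C_mul_T, AddMonoidAlgebra.coeff_single, Finsupp.single_apply]
    split_ifs with h <;> simp [h]

omit [CharZero K] in
theorem dv_coeff (p : LaurentPolynomial K[X]) : (dv p).coeff 0 = derivative (p.coeff 0) := by
  induction p using LaurentPolynomial.induction_on' with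
  | add p p' h h' => simp [h, h']
  | C_mul_T n a =>
    rw [dv_CT, ← LaurentPolynomial.single_eq_C_mul_T, ← LaurentPolynomial.single_eq_C_mul_T,
      AddMonoidAlgebra.coeff_single, AddMonoidAlgebra.coeff_single, Finsupp.single_apply,
      Finsupp.single_apply]
    split_ifs <;> simp

end laurent

theorem not_liou_zero (ξ : Derivation K (O K 0) (O K 0)) : ¬ Liou ξ := by
  intro hξ
  set x : LaurentPolynomial K[X] := LaurentPolynomial.T 1 with hx
  set i : LaurentPolynomial K[X] := LaurentPolynomial.T (-1) with hi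
  set v : LaurentPolynomial K[X] := LaurentPolynomial.C X with hv
  have xi : x * i = 1 := by rw [hx, hi, ← LaurentPolynomial.T_add]; simp
  have tx : th x = x := by simpa using th_CT (K := K) 1 1
  have ti : th i = -i := by
    have := th_CT (K := K) 1 (-1)
    rw [map_one, one_mul] at this
    rw [hi, this]; push_cast; ring
  have tv : th v = 0 := by simpa using th_CT (K := K) X 0
  have t1 : th (1 : LaurentPolynomial K[X]) = 0 := by simpa using th_CT (K := K) 1 0
  have dx : dv x = 0 := by simpa using dv_CT (K := K) 1 1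
  have di : dv i = 0 := by simpa using dv_CT (K := K) 1 (-1)
  have dvv : dv v = 1 := by simpa using dv_CT (K := K) X 0
  have d1 : dv (1 : LaurentPolynomial K[X]) = 0 := by simpa using dv_CT (K := K) 1 0
  have tc : ∀ c : K, th (algebraMap K (LaurentPolynomial K[X]) c) = 0 := fun c => by
    simpa using th_CT (K := K) (C c) 0
  have dc : ∀ c : K, dv (algebraMap K (LaurentPolynomial K[X]) c) = 0 := fun c => by
    simpa using dv_CT (K := K) (C c) 0
  have hr : Rel 0 x ((x - 1) * (v + v + 1)) ((x - 1) * v * (v + 1) * i) := by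
    unfold Rel
    linear_combination (-4 * (x - 1) ^ 2 * v * (v + 1)) * xi
  let ρ : O K 0 →ₐ[K] LaurentPolynomial K[X] := lift _ _ _ hr
  have ρx : ρ (ox K 0) = x := by simp [ρ]
  have ρy : ρ (oy K 0) = (x - 1) * (v + v + 1) := by simp [ρ]
  have ρz : ρ (oz K 0) = (x - 1) * v * (v + 1) * i := by simp [ρ]
  have hHx : ∀ f, ρ (Hx f) = x * dv (ρ f) := by
    intro f
    induction f using ind with
    | hc c => rw [Derivation.map_algebraMap, map_zero, AlgHom.commutes, dc, mul_zero]
    | hx => simp [Hx, ρx, dx]
    | hy =>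
      simp only [Hx, mkDer_y, GZ, map_mul, map_sub, map_pow, map_one, map_ofNat, ρx, ρy, dv_mul,
        map_add, dx, dvv, d1]
      ring
    | hz =>
      simp only [Hx, mkDer_z, ρy, ρz, dv_mul, map_add, map_sub, dx, dvv, d1, di]
      linear_combination (-(x - 1) * (v + v + 1)) * xi
    | hadd a b ha hb => simp only [map_add, ha, hb]; ring
    | hmul a b ha hb =>
      simp only [Derivation.leibniz, smul_eq_mul, map_add, map_mul, ha, hb, dv_mul]; ring
  have hHy : ∀ f, ρ (Hy f) = -2 * (x - 1) * th (ρ f) + x * (v + v + 1) * dv (ρ f) := by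
    intro f
    induction f using ind with
    | hc c => rw [Derivation.map_algebraMap, map_zero, AlgHom.commutes, dc, tc, mul_zero, mul_zero, add_zero]
    | hx =>
      simp only [Hy, mkDer_x, GZ, map_neg, map_mul, map_sub, map_pow, map_one, map_ofNat, ρx, tx, dx]
      ring
    | hy =>
      simp only [Hy, mkDer_y, map_zero, ρy, dv_mul, th_mul, map_add, map_sub, dx, dvv, d1, tx, tv, t1]
      ring
    | hz =>
      simp only [Hy, mkDer_z, GX, map_mul, map_sub, map_pow, map_one, map_ofNat, map_natCast, ρx, ρz,
        dv_mul, th_mul, map_add, dx, dvv, d1, di, tx, tv, t1, ti]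
      push_cast
      linear_combination (-(x - 1)) * xi
    | hadd a b ha hb => simp only [map_add, ha, hb]; ring
    | hmul a b ha hb =>
      simp only [Derivation.leibniz, smul_eq_mul, map_add, map_mul, ha, hb, dv_mul, th_mul]; ring
  have hrel := der_rel (rel K 0) ξ
  obtain ⟨s1, s2, s3⟩ := sing (K := K) (k := 0) (ev0 (K := K) (k := 0)) (fun p q r => by
    refine ⟨(lift (K := K) _ _ _ (rel_dual (p := p) (q := q) (r := r) rel_pt
      (by simp [GX, GZ]))).toRingHom, fun g => ?_, by simp, by simp, by simp⟩
    have : (TrivSqZeroExt.fstHom K K K).comp (lift (K := K) (k := 0) _ _ _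
      (rel_dual (p := p) (q := q) (r := r) rel_pt (by simp [GX, GZ]))) = ev0 :=
      hom_ext (by simp [ev0]) (by simp [ev0]) (by simp [ev0])
    exact DFunLike.congr_fun this g) hrel
  have hdv : ∀ f, (x - 1) ∣ ρ f - algebraMap K _ (ev0 f) := by
    intro f
    induction f using ind with
    | hc c => simp
    | hx => simp [ρx, ev0]
    | hy => simp [ρy, ev0]
    | hz => simp [ρz, ev0, mul_assoc]
    | hadd a b ha hb =>
      rw [map_add, map_add, map_add, add_sub_add_comm]; exact dvd_add ha hb
    | hmul a b ha hb =>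
      have : ρ (a * b) - algebraMap K _ (ev0 (a * b)) = ρ a * (ρ b - algebraMap K _ (ev0 b))
          + (ρ a - algebraMap K _ (ev0 a)) * algebraMap K _ (ev0 b) := by
        simp only [map_mul]; ring
      rw [this]
      exact dvd_add (hb.mul_left _) (ha.mul_right _)
  obtain ⟨A, hA⟩ := hdv (ξ (ox K 0))
  obtain ⟨B, hB⟩ := hdv (ξ (oy K 0))
  rw [s1, map_zero, sub_zero] at hA
  rw [s2, map_zero, sub_zero] at hB
  have h2 : ξ 2 = 0 := by exact_mod_cast ξ.map_natCast 2
  have e := hξ (ox K 0) (oy K 0)
  rw [pb_skew (ξ _), pb_xy, pb_x, pb_y] at e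
  simp only [GZ, Derivation.leibniz, map_sub, h2, Derivation.map_one_eq_zero, smul_eq_mul, zero_add,
    pow_one] at e
  have e' := congrArg ρ e
  simp only [map_add, map_sub, map_mul, map_neg, map_one, map_zero, map_ofNat, hHx, hHy, ρx, hA, hB,
    th_mul, dv_mul, tx, t1, dx, d1] at e'
  have x1 : x - 1 ≠ 0 := by
    intro h
    have := congrArg (fun p : LaurentPolynomial K[X] => p.coeff 1) (sub_eq_zero.1 h)
    simp [hx, ← LaurentPolynomial.T_zero] at this
  have e2 : dv ((v + v + 1) * A - B + v + v) = th ((x - 1) * A * i) + th ((x - 1) * A * i) := by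
    simp only [map_add, map_sub, th_mul, dv_mul, tx, t1, ti, dvv, d1]
    apply mul_left_cancel₀ x1
    linear_combination i * e' + (-(x - 1) * (2 + 2 * v * dv A + dv A + 2 * A - dv B)) * xi
  have e3 := congrArg (fun p : LaurentPolynomial K[X] => p.coeff 0) e2
  simp only [dv_coeff, AddMonoidAlgebra.coeff_add, Finsupp.add_apply, th_coeff, add_zero] at e3
  have e4 := eq_C_of_derivative_eq_zero e3
  have key : ∀ a : K, a * (a + 1) = 0 → eval a (((v + v + 1) * A - B).coeff 0) = 0 := by
    intro a ha
    have hr' : Rel 0 (X : K[X]) ((X - 1) * C (a + a + 1)) 0 := by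
      unfold Rel
      have : C (a + a + 1) ^ 2 = (1 : K[X]) := by
        rw [← map_pow, ← map_one C]; congr 1; linear_combination 4 * ha
      linear_combination (X - 1) ^ 2 * this
    let c : O K 0 →ₐ[K] K[X] := lift _ _ _ hr'
    let E : LaurentPolynomial K[X] →ₐ[K] LaurentPolynomial K :=
      AddMonoidAlgebra.mapAlgHom ℤ (aeval a)
    have Es : ∀ (n : ℤ) (b : K[X]), E (AddMonoidAlgebra.single n b) = AddMonoidAlgebra.single n (aeval a b) :=
      fun n b => AddMonoidAlgebra.mapAlgHom_single _ _ _
    have ET : ∀ n, E (LaurentPolynomial.T n) = LaurentPolynomial.T n := fun n => by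
      unfold LaurentPolynomial.T
      rw [Es, map_one]
    have EC : ∀ b, E (LaurentPolynomial.C b) = LaurentPolynomial.C (eval a b) := fun b => by
      rw [← LaurentPolynomial.single_eq_C, Es, ← LaurentPolynomial.single_eq_C, coe_aeval_eq_eval]
    have Ev : E v = LaurentPolynomial.C a := by
      rw [hv, EC, eval_X]
    have hE : E.comp ρ = toLaurentAlg.comp c := by
      refine hom_ext ?_ ?_ ?_
      · simp [ρx, hx, ET, c]
      · simp [ρy, hx, ET, Ev, c]
      · simp only [AlgHom.comp_apply, ρz, map_mul, map_add, Ev, map_one, c, lift_z, map_zero]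
        have : LaurentPolynomial.C a * (LaurentPolynomial.C a + 1) = 0 := by
          rw [← map_one LaurentPolynomial.C, ← map_add, ← map_mul, ha, map_zero]
        linear_combination E (x - 1) * E i * this
    have hE' : ∀ f, E (ρ f) = toLaurent (c f) := fun f => DFunLike.congr_fun hE f
    have hc1 : (aeval (1 : K)).comp c = ev0 := hom_ext (by simp [c, ev0]) (by simp [c, ev0]) (by simp [c, ev0])
    have hc2 : (X - C 1) ∣ c (ξ (oz K 0)) := by
      rw [dvd_iff_isRoot, IsRoot.def, ← s3, ← hc1]
      simp
    obtain ⟨q, hq⟩ := hc2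
    have r2 := congrArg c hrel
    have cx : c (ox K 0) = X := lift_x _ _ _ _
    have cy : c (oy K 0) = (X - 1) * C (a + a + 1) := lift_y _ _ _ _
    have cz : c (oz K 0) = 0 := lift_z _ _ _ _
    simp only [GX, GZ, map_add, map_sub, map_mul, map_pow, map_one, map_ofNat, map_zero, map_natCast,
      cx, cy, cz] at r2
    have hsq : (C a + C a + 1) ^ 2 = (1 : K[X]) := by
      have : C a * (C a + 1) = (0 : K[X]) := by rw [← map_one C, ← map_add, ← map_mul, ha, map_zero]
      linear_combination 4 * this
    have X1 : (X - 1 : K[X]) ≠ 0 := X_sub_C_ne_zero 1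
    have r3 : (C a + C a + 1) * c (ξ (ox K 0)) - c (ξ (oy K 0))
        = (X - 1) * (X * (-2 * (C a + C a + 1) * q)) := by
      apply mul_left_cancel₀ X1
      simp only [map_one] at hq
      rw [hq] at r2
      linear_combination (C a + C a + 1) * r2 + (X - 1) * (c (ξ (oy K 0))) * hsq
    have r4 := congrArg toLaurent r3
    simp only [map_sub, map_mul, map_add, map_one, ← hE', hA, hB, toLaurent_C, toLaurent_X, hx, ET] at r4
    have T1 : (LaurentPolynomial.T 1 - 1 : LaurentPolynomial K) ≠ 0 := by
      intro h
      have := congrArg (fun p : LaurentPolynomial K => p.coeff 1) (sub_eq_zero.1 h)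
      simp [← LaurentPolynomial.T_zero] at this
    have r5 : E ((v + v + 1) * A - B) = toLaurent (X * (-2 * (C a + C a + 1) * q)) := by
      apply mul_left_cancel₀ T1
      simp only [map_sub, map_mul, map_add, map_one, Ev, toLaurent_C, toLaurent_X]
      linear_combination r4
    have r6 := congrArg (fun p => (LaurentPolynomial.trunc p).coeff 0) r5
    simp only [trunc_toLaurent, mul_coeff_zero, coeff_X_zero, zero_mul] at r6
    have r7 : ∀ p : LaurentPolynomial K[X], (LaurentPolynomial.trunc (E p)).coeff 0 = eval a (p.coeff 0) := by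
      intro p
      induction p using LaurentPolynomial.induction_on' with
      | add p p' h h' => simp [h, h']
      | C_mul_T n b =>
        rw [map_mul, ET, EC, LaurentPolynomial.trunc_C_mul_T, ← LaurentPolynomial.single_eq_C_mul_T,
          AddMonoidAlgebra.coeff_single, Finsupp.single_apply]
        by_cases h0 : n = 0
        · simp [h0]
        · rw [if_neg h0]
          split_ifs with h1
          · rw [coeff_monomial, if_neg (by omega)]; simp
          · simp
    rw [← r7, r6]
  have k0 := key 0 (by simp)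
  have k1 := key (-1) (by simp)
  have hvc : v.coeff 0 = X := by simp [hv]
  simp only [AddMonoidAlgebra.coeff_add, Finsupp.add_apply, hvc] at e4
  have f0 := congrArg (eval 0) e4
  have f1 := congrArg (eval (-1)) e4
  simp only [eval_add, eval_X, eval_C, k0, k1] at f0 f1
  have : (2 : K) = 0 := by linear_combination f0 - f1
  exact two_ne_zero this

omit [CharZero K] in
/-- transport of a derivation along an isomorphism -/
noncomputable def transp {A B : Type u} [CommRing A] [CommRing B] [Algebra K A] [Algebra K B]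
    (φ : A ≃ₐ[K] B) (D : Derivation K B B) : Derivation K A A :=
  Derivation.mk'
    { toFun := fun a => φ.symm (D (φ a))
      map_add' := fun a b => by simp
      map_smul' := fun c a => by simp }
    (fun a b => by simp)

omit [CharZero K] in
theorem transp_apply {A B : Type u} [CommRing A] [CommRing B] [Algebra K A] [Algebra K B]
    (φ : A ≃ₐ[K] B) (D : Derivation K B B) (a : A) : transp φ D a = φ.symm (D (φ a)) := rfl

theorem not_iso : IsEmpty (O K 0 ≃ₐ[K] O K 1) := by
  refine ⟨fun φ => ?_⟩
  obtain ⟨ξ, hξ⟩ := liou_one (K := K)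
  obtain ⟨h, hh⟩ := skew_mul (fun f => transp φ (pb (φ f))) (fun f g => by
    simp only [transp_apply]; rw [pb_skew, map_neg])
  obtain ⟨h', hh'⟩ := skew_mul (fun f => transp φ.symm (pb (φ.symm f))) (fun f g => by
    simp only [transp_apply]; rw [pb_skew, map_neg])
  simp only [transp_apply, AlgEquiv.symm_symm] at hh hh'
  have hu : h * φ.symm h' = 1 := by
    have h1 := congrArg φ.symm (hh' (φ (ox K 0)) (φ (oy K 0)))
    simp only [AlgEquiv.symm_apply_apply, map_mul, hh, pb_xy] at h1
    apply mul_right_cancel₀ (GZ_ne (K := K) (k := 0))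
    linear_combination -h1
  obtain ⟨c, hc, rfl⟩ := unit_const h (IsUnit.of_mul_eq_one _ hu)
  refine not_liou_zero (transp φ ξ) fun f g => ?_
  have h1 := congrArg φ.symm (hξ (φ f) (φ g))
  have h2 : ∀ a b, pb (φ a) (φ b) = algebraMap K _ c * φ (pb a b) := fun a b => by
    have := congrArg φ (hh a b)
    simpa using this
  have h3 : ∀ a, ξ (φ a) = φ (transp φ ξ a) := fun a => by simp [transp_apply]
  rw [h3 f, h3 g, h2, h2, h2, Derivation.leibniz, h3] at h1
  simp only [map_add, map_sub, map_mul, smul_eq_mul, Derivation.map_algebraMap, mul_zero, add_zero,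
    AlgEquiv.commutes, AlgEquiv.symm_apply_apply, map_zero] at h1
  apply mul_left_cancel₀ ((map_ne_zero_iff _ (algebraMap K (O K 0)).injective).2 hc)
  linear_combination h1

end Pool.Agent.H659Z.HD
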