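import Mathlib

set_option autoImplicit false
open Filter Topology MeasureTheory Real

namespace Pool.Agent.H659Z.Lac

theorem J_tendsto :
    Tendsto (fun l : ℝ => ∫ t in (0 : ℝ)..1, Real.exp (l * (Real.cos (2 * π * t) - 1))) atTop (𝓝 0) := by
  have h := intervalIntegral.tendsto_integral_filter_of_dominated_convergence (μ := volume)
    (a := (0 : ℝ)) (b := 1) (l := atTop)
    (F := fun (l : ℝ) (t : ℝ) => Real.exp (l * (Real.cos (2 * π * t) - 1))) (f := fun _ => (0 : ℝ))
    (fun _ => 1) ?_ ?_ ?_ ?_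
  · simpa using h
  · refine Eventually.of_forall fun l => ?_
    exact (by fun_prop : Continuous fun t : ℝ => Real.exp (l * (Real.cos (2 * π * t) - 1))).aestronglyMeasurable
  · filter_upwards [eventually_ge_atTop (0 : ℝ)] with l hl
    refine Eventually.of_forall fun t _ => ?_
    rw [Real.norm_eq_abs, abs_of_pos (Real.exp_pos _)]
    apply Real.exp_le_one_iff.mpr
    exact mul_nonpos_of_nonneg_of_nonpos hl (by linarith [Real.cos_le_one (2 * π * t)])
  · simp
  · have h1 : ∀ᵐ t : ℝ, t ≠ 1 := by simp [ae_iff]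
    filter_upwards [h1] with t ht1 ht
    rw [Set.uIoc_of_le zero_le_one] at ht
    have hlt : t < 1 := lt_of_le_of_ne ht.2 ht1
    have hc : Real.cos (2 * π * t) - 1 < 0 := by
      have hne : Real.cos (2 * π * t) ≠ 1 := by
        intro h
        have h2 := (Real.cos_eq_one_iff_of_lt_of_lt (x := 2 * π * t) (by nlinarith [Real.pi_pos, ht.1])
          (by nlinarith [Real.pi_pos])).1 h
        nlinarith [Real.pi_pos, ht.1]
      have := lt_of_le_of_ne (Real.cos_le_one (2 * π * t)) hne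
      linarith
    exact Real.tendsto_exp_atBot.comp (tendsto_id.atTop_mul_const_of_neg hc)

theorem exists_l (K : ℝ) : ∃ l : ℝ, 1 ≤ l ∧
    Real.log (∫ t in (0 : ℝ)..1, Real.exp (l * Real.cos (2 * π * t))) ≤ l - K := by
  have h := (J_tendsto.eventually (gt_mem_nhds (Real.exp_pos (-K)))).and (eventually_ge_atTop (1 : ℝ))
  obtain ⟨l, h1, h2⟩ := h.exists
  refine ⟨l, h2, ?_⟩
  have he : (∫ t in (0 : ℝ)..1, Real.exp (l * Real.cos (2 * π * t)))
      = Real.exp l * ∫ t in (0 : ℝ)..1, Real.exp (l * (Real.cos (2 * π * t) - 1)) := by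
    rw [← intervalIntegral.integral_const_mul]
    congr 1
    ext t
    rw [← Real.exp_add]
    congr 1
    ring
  have hpos : 0 < ∫ t in (0 : ℝ)..1, Real.exp (l * Real.cos (2 * π * t)) := by
    apply intervalIntegral.intervalIntegral_pos_of_pos_on
    · exact (by fun_prop : Continuous fun t : ℝ => Real.exp (l * (Real.cos (2 * π * t)))).intervalIntegrable _ _
    · intro x _
      exact Real.exp_pos _
    · norm_num
  rw [Real.log_le_iff_le_exp hpos, he, sub_eq_add_neg, Real.exp_add]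
  exact mul_le_mul_of_nonneg_left h1.le (Real.exp_pos _).le

/-- If the frequencies grow at most exponentially, the upper large deviation bound with the
rate function of the independent case fails for a closed half line. -/
theorem upper_fails (a : ℕ → ℕ) (B : ℝ) (hB : 1 ≤ B) (ha : ∀ k, (a k : ℝ) ≤ B ^ (k + 1)) :
    ∃ c : ℝ, ¬ (limsup (fun n : ℕ => ((((n : ℝ)⁻¹ : ℝ)) : EReal) *
              ENNReal.log (volume (Set.Icc (0 : ℝ) 1 ∩
                {ω : ℝ | (∑ k ∈ Finset.range n, Real.cos (2 * π * (a k : ℝ) * ω)) / (n : ℝ) ∈ Set.Ici c})))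
            atTop
          ≤ - ⨅ x ∈ Set.Ici c, ⨆ l : ℝ,
              (((l * x - Real.log (∫ t in (0 : ℝ)..1, Real.exp (l * Real.cos (2 * π * t)))) : ℝ) : EReal)) := by
  obtain ⟨l, hl, hlog⟩ := exists_l (Real.log B + 2)
  refine ⟨1 - 1 / l, fun h => ?_⟩
  have hl0 : 0 < l := by linarith
  have hR : ((Real.log B + 1 : ℝ) : EReal) ≤ ⨅ x ∈ Set.Ici (1 - 1 / l), ⨆ l : ℝ,
      (((l * x - Real.log (∫ t in (0 : ℝ)..1, Real.exp (l * Real.cos (2 * π * t)))) : ℝ) : EReal) := by
    refine le_iInf₂ fun x hx => le_iSup_of_le l ?_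
    rw [EReal.coe_le_coe_iff]
    have : l * (1 - 1 / l) ≤ l * x := mul_le_mul_of_nonneg_left hx hl0.le
    have h2 : l * (1 - 1 / l) = l - 1 := by field_simp
    linarith
  have hR' := h.trans (EReal.neg_le_neg_iff.2 hR)
  set δ : ℝ := 1 / (2 * π * l) with hδ
  have hδ0 : 0 < δ := by positivity
  have hδ1 : δ ≤ 1 := by
    rw [hδ, div_le_one (by positivity)]
    nlinarith [Real.pi_gt_three]
  have hev : ∀ᶠ n : ℕ in atTop, ((-Real.log B - 1 / 2 : ℝ) : EReal) ≤ ((((n : ℝ)⁻¹ : ℝ)) : EReal) *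
      ENNReal.log (volume (Set.Icc (0 : ℝ) 1 ∩
        {ω : ℝ | (∑ k ∈ Finset.range n, Real.cos (2 * π * (a k : ℝ) * ω)) / (n : ℝ) ∈ Set.Ici (1 - 1 / l)})) := by
    have ht : Tendsto (fun n : ℕ => Real.log δ / (n : ℝ)) atTop (𝓝 0) :=
      tendsto_const_div_atTop_nhds_zero_nat _
    filter_upwards [ht.eventually (lt_mem_nhds (show (-1 / 2 : ℝ) < 0 by norm_num)), eventually_ge_atTop 1]
      with n hn hn1
    have hn0 : (0 : ℝ) < n := by exact_mod_cast hn1
    have hBn : 1 ≤ B ^ n := one_le_pow₀ hB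
    have hsub : Set.Icc (0 : ℝ) (δ / B ^ n) ⊆ Set.Icc (0 : ℝ) 1 ∩
        {ω : ℝ | (∑ k ∈ Finset.range n, Real.cos (2 * π * (a k : ℝ) * ω)) / (n : ℝ) ∈ Set.Ici (1 - 1 / l)} := by
      intro ω hω
      refine ⟨⟨hω.1, hω.2.trans ((div_le_self hδ0.le hBn).trans hδ1)⟩, ?_⟩
      simp only [Set.mem_ofPred_eq, Set.mem_Ici]
      rw [le_div_iff₀ hn0]
      have : ∀ k ∈ Finset.range n, 1 - 1 / l ≤ Real.cos (2 * π * (a k : ℝ) * ω) := by
        intro k hk
        have hk' : k + 1 ≤ n := Finset.mem_range.1 hk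
        have h1 : (a k : ℝ) ≤ B ^ n := (ha k).trans (pow_le_pow_right₀ hB hk')
        have h2 : (a k : ℝ) * ω ≤ δ := by
          calc (a k : ℝ) * ω ≤ B ^ n * (δ / B ^ n) :=
                mul_le_mul h1 hω.2 hω.1 (by positivity)
            _ = δ := by field_simp
        have h3 : 0 ≤ (a k : ℝ) * ω := mul_nonneg (Nat.cast_nonneg _) hω.1
        have h4 : 2 * π * (a k : ℝ) * ω ≤ 1 / l := by
          have : 2 * π * δ = 1 / l := by rw [hδ]; field_simp
          nlinarith [Real.pi_pos]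
        have h5 : 0 ≤ 2 * π * (a k : ℝ) * ω := by
          have := Real.pi_pos
          have h6 : 2 * π * (a k : ℝ) * ω = 2 * π * ((a k : ℝ) * ω) := by ring
          rw [h6]; positivity
        have h6 : 1 / l ≤ 1 := by rw [div_le_one hl0]; exact hl
        have h7 := Real.one_sub_sq_div_two_le_cos (x := 2 * π * (a k : ℝ) * ω)
        nlinarith
      have h8 := Finset.card_nsmul_le_sum _ _ _ this
      rw [Finset.card_range, nsmul_eq_mul] at h8
      linarith
    have hvol := measure_mono (μ := volume) hsub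
    rw [Real.volume_Icc, sub_zero] at hvol
    have hlogle := ENNReal.log_monotone hvol
    rw [ENNReal.log_ofReal_of_pos (by positivity)] at hlogle
    refine le_trans ?_ (mul_le_mul_of_nonneg_left hlogle (by
      exact_mod_cast (inv_nonneg.2 hn0.le)))
    rw [← EReal.coe_mul, EReal.coe_le_coe_iff, Real.log_div hδ0.ne' (by positivity), Real.log_pow]
    have : (n : ℝ)⁻¹ * (Real.log δ - n * Real.log B) = Real.log δ / n - Real.log B := by
      field_simp
    rw [this]
    linarith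
  have hls := le_limsup_of_frequently_le hev.frequently
  have := hls.trans hR'
  rw [← EReal.coe_neg, EReal.coe_le_coe_iff] at this
  linarith

theorem exists_eta : ∃ η : ℝ, 1 < η ∧ η < 2 ∧ Transcendental ℚ η := by
  by_contra h
  push Not at h
  have hsub : Set.Ioo (1 : ℝ) 2 ⊆ {x : ℝ | IsAlgebraic ℚ x} := by
    intro x hx
    have := h x hx.1 hx.2
    simpa [Transcendental] using this
  have hc := (Algebraic.countable ℚ ℝ).mono hsub
  have := hc.measure_zero volume
  norm_num at this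

theorem ratio (η : ℝ) (h : 1 < η) :
    Tendsto (fun k : ℕ => ((⌈η ^ (k + 1)⌉₊ : ℕ) : ℝ) / ((⌈η ^ k⌉₊ : ℕ) : ℝ)) atTop (𝓝 η) := by
  have h0 : Tendsto (fun k : ℕ => η ^ k) atTop atTop := tendsto_pow_atTop_atTop_of_one_lt h
  have h1 : Tendsto (fun k : ℕ => ((⌈η ^ k⌉₊ : ℕ) : ℝ) / η ^ k) atTop (𝓝 1) :=
    tendsto_nat_ceil_div_atTop.comp h0
  have h2 : Tendsto (fun k : ℕ => ((⌈η ^ (k + 1)⌉₊ : ℕ) : ℝ) / η ^ (k + 1)) atTop (𝓝 1) :=
    h1.comp (tendsto_add_atTop_nat 1)
  have h3 := (h2.div h1 one_ne_zero).const_mul η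
  simp only [div_one, mul_one] at h3
  refine h3.congr fun k => ?_
  have hp : 0 < η ^ k := by positivity
  have hc : (0 : ℝ) < ((⌈η ^ k⌉₊ : ℕ) : ℝ) := hp.trans_le (Nat.le_ceil _)
  simp only [Pi.div_apply]
  field_simp
  ring

end Pool.Agent.H659Z.Lac
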