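import Mathlib

set_option autoImplicit false
open Finset

namespace Pool.Agent.H659Z.Three

variable {V W : Type} [DecidableEq V] [DecidableEq W]

/-- two distinct points of one colour and two distinct points of the other colour -/
def Quad (col : V → Bool) (x x' y y' : V) : Prop :=
  x ≠ x' ∧ y ≠ y' ∧ col x = col x' ∧ col y = col y' ∧ col x ≠ col y

def sq (β : V → V → ZMod 2) (x x' y y' : V) : ZMod 2 := β x y + β x y' + β x' y + β x' y'

def Hyp (col : V → Bool) (β : V → V → ZMod 2) (e : Finset V) : Prop :=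
  ∃ x x' y y', Quad col x x' y y' ∧ e = {x, x', y, y'} ∧ sq β x x' y y' = 1

def wt (col : V → Bool) (β : V → V → ZMod 2) (e : Finset V) : ZMod 2 :=
  ∑ u ∈ e, ∑ v ∈ e, if col u = true ∧ col v = false then β u v else 0

omit [DecidableEq V] in
theorem Quad.ne {col : V → Bool} {x x' y y' : V} (h : Quad col x x' y y') :
    x ≠ y ∧ x ≠ y' ∧ x' ≠ y ∧ x' ≠ y' := by
  obtain ⟨_, _, h3, h4, h5⟩ := h
  refine ⟨?_, ?_, ?_, ?_⟩ <;> rintro rfl <;> simp_all

theorem wt_quad {col : V → Bool} {β : V → V → ZMod 2} (hβ : ∀ u v, β u v = β v u)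
    {x x' y y' : V} (h : Quad col x x' y y') : wt col β {x, x', y, y'} = sq β x x' y y' := by
  obtain ⟨n1, n2, n3, n4⟩ := h.ne
  obtain ⟨h1, h2, h3, h4, h5⟩ := h
  unfold wt sq
  have e1 : ∀ g : V → ZMod 2, ∑ u ∈ ({x, x', y, y'} : Finset V), g u = g x + g x' + g y + g y' := by
    intro g
    rw [sum_insert (by simp [*]), sum_insert (by simp [*]), sum_insert (by simp [*]), sum_singleton]
    ring
  simp only [e1, ← h3, ← h4]
  cases hx : col x <;> cases hy : col y
  · simp_all
  · simp [hβ y, hβ y']; ring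
  · simp; ring
  · simp_all

theorem quad_iff {col : V → Bool} {β : V → V → ZMod 2} (hβ : ∀ u v, β u v = β v u)
    {x x' y y' : V} (h : Quad col x x' y y') : Hyp col β {x, x', y, y'} ↔ sq β x x' y y' = 1 := by
  constructor
  · rintro ⟨a, a', b, b', hq, he, hs⟩
    rw [← wt_quad hβ h, he, wt_quad hβ hq, hs]
  · intro hs
    exact ⟨x, x', y, y', h, rfl, hs⟩

/-- the shape condition of the frozen statement -/
def Shape (col : V → Bool) (e : Finset V) : Prop :=
  e.card = 4 ∧ ∀ v ∈ e, (e.filter (fun w => col v = col w)).card = 2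

theorem shape_quad {col : V → Bool} {x x' y y' : V} (h : Quad col x x' y y') :
    Shape col {x, x', y, y'} := by
  obtain ⟨n1, n2, n3, n4⟩ := h.ne
  obtain ⟨h1, h2, h3, h4, h5⟩ := h
  have f1 : ({x, x', y, y'} : Finset V).filter (fun w => col x = col w) = {x, x'} := by
    ext w
    simp only [mem_filter, mem_insert, mem_singleton]
    constructor
    · rintro ⟨rfl | rfl | rfl | rfl, h⟩ <;> simp_all
    · rintro (rfl | rfl) <;> simp_all
  have f2 : ({x, x', y, y'} : Finset V).filter (fun w => col y = col w) = {y, y'} := by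
    ext w
    simp only [mem_filter, mem_insert, mem_singleton]
    constructor
    · rintro ⟨rfl | rfl | rfl | rfl, h⟩ <;> simp_all
    · rintro (rfl | rfl) <;> simp_all
  refine ⟨?_, ?_⟩
  · rw [card_insert_of_notMem (by simp [*]), card_insert_of_notMem (by simp [*]), card_pair h2]
  · intro v hv
    simp only [mem_insert, mem_singleton] at hv
    rcases hv with rfl | rfl | rfl | rfl
    · rw [f1, card_pair h1]
    · rw [← h3, f1, card_pair h1]
    · rw [f2, card_pair h2]
    · rw [← h4, f2, card_pair h2]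

theorem quad_of_shape {col : V → Bool} {e : Finset V} (h : Shape col e) :
    ∃ x x' y y', Quad col x x' y y' ∧ e = {x, x', y, y'} := by
  obtain ⟨h4, h2⟩ := h
  obtain ⟨v, hv⟩ : e.Nonempty := card_pos.1 (by omega)
  have h3 := card_filter_add_card_filter_not (s := e) (fun w => col v = col w)
  rw [h2 v hv, h4] at h3
  obtain ⟨x, x', hx, ex⟩ := card_eq_two.1 (h2 v hv)
  obtain ⟨y, y', hy, ey⟩ := card_eq_two.1 (show (e.filter (fun w => ¬ col v = col w)).card = 2 by omega)
  have m1 : x ∈ e.filter (fun w => col v = col w) := by rw [ex]; simp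
  have m2 : x' ∈ e.filter (fun w => col v = col w) := by rw [ex]; simp
  have m3 : y ∈ e.filter (fun w => ¬ col v = col w) := by rw [ey]; simp
  have m4 : y' ∈ e.filter (fun w => ¬ col v = col w) := by rw [ey]; simp
  simp only [mem_filter] at m1 m2 m3 m4
  refine ⟨x, x', y, y', ⟨hx, hy, m1.2.symm.trans m2.2, ?_, fun h => m3.2 (m1.2.trans h)⟩, ?_⟩
  · have a := m3.2; have b := m4.2
    revert a b; cases col v <;> cases col y <;> cases col y' <;> simp
  · rw [← filter_union_filter_not_eq (fun w => col v = col w) e, ex, ey]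
    ext w; simp only [mem_union, mem_insert, mem_singleton, or_assoc]

theorem five_shape {col : V → Bool} {S : Finset V} (h5 : S.card = 5)
    (h3 : ∀ v ∈ S, (S.filter (fun w => col v = col w)).card ≤ 3) :
    ∃ x1 x2 x3 y y', Quad col x1 x2 y y' ∧ Quad col x1 x3 y y' ∧ x2 ≠ x3 ∧
      S = {x1, x2, x3, y, y'} := by
  have key : ∀ s : Bool, (S.filter (fun w => s = col w)).card ≤ 3 := by
    intro s
    rcases (S.filter (fun w => s = col w)).eq_empty_or_nonempty with h | ⟨v, hv⟩
    · rw [h]; simp
    · rw [mem_filter] at hv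
      rw [hv.2]; exact h3 v hv.1
  have hs := card_filter_add_card_filter_not (s := S) (fun w => true = col w)
  have hn : S.filter (fun w => ¬ true = col w) = S.filter (fun w => false = col w) := by
    ext w; simp
  rw [hn, h5] at hs
  have main : ∀ s : Bool, (S.filter (fun w => s = col w)).card = 3 →
      (S.filter (fun w => (!s) = col w)).card = 2 →
      ∃ x1 x2 x3 y y', Quad col x1 x2 y y' ∧ Quad col x1 x3 y y' ∧ x2 ≠ x3 ∧
      S = {x1, x2, x3, y, y'} := by
    intro s c3 c2
    obtain ⟨x1, x2, x3, n1, n2, n3, ex⟩ := card_eq_three.1 c3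
    obtain ⟨y, y', hy, ey⟩ := card_eq_two.1 c2
    have m1 : x1 ∈ S.filter (fun w => s = col w) := by rw [ex]; simp
    have m2 : x2 ∈ S.filter (fun w => s = col w) := by rw [ex]; simp
    have m3 : x3 ∈ S.filter (fun w => s = col w) := by rw [ex]; simp
    have m4 : y ∈ S.filter (fun w => (!s) = col w) := by rw [ey]; simp
    have m5 : y' ∈ S.filter (fun w => (!s) = col w) := by rw [ey]; simp
    simp only [mem_filter] at m1 m2 m3 m4 m5
    have hxy : col x1 ≠ col y := by rw [← m1.2, ← m4.2]; cases s <;> simp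
    refine ⟨x1, x2, x3, y, y', ⟨n1, hy, m1.2.symm.trans m2.2, m4.2.symm.trans m5.2, hxy⟩,
      ⟨n2, hy, m1.2.symm.trans m3.2, m4.2.symm.trans m5.2, hxy⟩, n3, ?_⟩
    have hn' : S.filter (fun w => ¬ s = col w) = S.filter (fun w => (!s) = col w) := by
      ext w; cases s <;> simp
    rw [← filter_union_filter_not_eq (fun w => s = col w) S, hn', ex, ey]
    ext w; simp only [mem_union, mem_insert, mem_singleton, or_assoc]
  have k1 := key true
  have k2 := key false
  by_cases hc : (S.filter (fun w => true = col w)).card = 3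
  · exact main true hc (by simp only [Bool.not_true]; omega)
  · exact main false (by omega) (by simp only [Bool.not_false]; omega)

open Classical in
/-- indicator with values in the field of two elements -/
noncomputable def ind (P : Prop) : ZMod 2 := if P then 1 else 0

theorem ind_eq {P : Prop} {a : ZMod 2} (h : P ↔ a = 1) : ind P = a := by
  unfold ind
  split_ifs with hp
  · exact (h.1 hp).symm
  · have : a ≠ 1 := fun ha => hp (h.2 ha)
    clear h; revert this; revert a; decide

theorem five {col : V → Bool} {H : Finset (Finset V)} (hH : ∀ e ∈ H, Shape col e)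
    {x1 x2 x3 y y' : V} (q2 : Quad col x1 x2 y y') (q3 : Quad col x1 x3 y y') (n23 : x2 ≠ x3) :
    Even (H.filter (fun e => e ⊆ {x1, x2, x3, y, y'})).card ↔
      ind ({x1, x2, y, y'} ∈ H) + ind ({x1, x3, y, y'} ∈ H) + ind ({x2, x3, y, y'} ∈ H) = 0 := by
  obtain ⟨a1, a2, a3, a4⟩ := q2.ne
  obtain ⟨-, -, a5, a6⟩ := q3.ne
  obtain ⟨n12, ny, c12, cy, cxy⟩ := q2
  obtain ⟨n13, -, c13, -, -⟩ := q3
  have hS : ({x1, x2, x3, y, y'} : Finset V).card = 5 := by
    rw [card_insert_of_notMem (by simp [*]), card_insert_of_notMem (by simp [*]),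
      card_insert_of_notMem (by simp [*]), card_pair ny]
  have heq : H.filter (fun e => e ⊆ {x1, x2, x3, y, y'}) =
      ({{x1, x2, y, y'}, {x1, x3, y, y'}, {x2, x3, y, y'}} : Finset (Finset V)).filter (· ∈ H) := by
    ext e
    simp only [mem_filter, mem_insert, mem_singleton]
    constructor
    · rintro ⟨he, hsub⟩
      refine ⟨?_, he⟩
      obtain ⟨h4, h2⟩ := hH e he
      have hc : (({x1, x2, x3, y, y'} : Finset V) \ e).card = 1 := by
        rw [card_sdiff_of_subset hsub, hS, h4]
      obtain ⟨u, hu⟩ := card_eq_one.1 hc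
      have hmem : ∀ w, w ∈ e ↔ w ∈ ({x1, x2, x3, y, y'} : Finset V) ∧ w ≠ u := by
        intro w
        have : w ∈ ({x1, x2, x3, y, y'} : Finset V) \ e ↔ w = u := by rw [hu]; simp
        rw [mem_sdiff] at this
        have h6 := @hsub w
        tauto
      have hu' : u ∈ ({x1, x2, x3, y, y'} : Finset V) := by
        have : u ∈ ({x1, x2, x3, y, y'} : Finset V) \ e := by rw [hu]; simp
        exact (mem_sdiff.1 this).1
      have bad : x1 ∈ e → x2 ∈ e → x3 ∈ e → False := by
        intro b1 b2 b3
        have hsub3 : ({x1, x2, x3} : Finset V) ⊆ e.filter (fun w => col x1 = col w) := by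
          intro w hw
          simp only [mem_insert, mem_singleton] at hw
          rcases hw with rfl | rfl | rfl
          · exact mem_filter.2 ⟨b1, rfl⟩
          · exact mem_filter.2 ⟨b2, c12⟩
          · exact mem_filter.2 ⟨b3, c13⟩
        have := card_le_card hsub3
        rw [h2 x1 b1, card_insert_of_notMem (by simp [*]), card_pair n23] at this
        omega
      simp only [mem_insert, mem_singleton] at hu' hmem
      rcases hu' with rfl | rfl | rfl | rfl | rfl
      · right; right; ext w; rw [hmem]; simp only [mem_insert, mem_singleton]; grind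
      · right; left; ext w; rw [hmem]; simp only [mem_insert, mem_singleton]; grind
      · left; ext w; rw [hmem]; simp only [mem_insert, mem_singleton]; grind
      · exact (bad ((hmem _).2 (by simp [*])) ((hmem _).2 (by simp [*])) ((hmem _).2 (by simp [*]))).elim
      · exact (bad ((hmem _).2 (by simp [*])) ((hmem _).2 (by simp [*])) ((hmem _).2 (by simp [*]))).elim
    · rintro ⟨rfl | rfl | rfl, he⟩ <;> refine ⟨he, ?_⟩ <;> intro w <;>
        simp only [mem_insert, mem_singleton] <;> tauto
  have d1 : ({x1, x2, y, y'} : Finset V) ≠ {x1, x3, y, y'} := by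
    intro h
    have : x2 ∈ ({x1, x3, y, y'} : Finset V) := by rw [← h]; simp
    simp only [mem_insert, mem_singleton] at this; grind
  have d2 : ({x1, x2, y, y'} : Finset V) ≠ {x2, x3, y, y'} := by
    intro h
    have : x1 ∈ ({x2, x3, y, y'} : Finset V) := by rw [← h]; simp
    simp only [mem_insert, mem_singleton] at this; grind
  have d3 : ({x1, x3, y, y'} : Finset V) ≠ {x2, x3, y, y'} := by
    intro h
    have : x1 ∈ ({x2, x3, y, y'} : Finset V) := by rw [← h]; simp
    simp only [mem_insert, mem_singleton] at this; grind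
  rw [heq, ← ZMod.natCast_eq_zero_iff_even, card_filter,
    sum_insert (by simp [d1, d2]), sum_insert (by simp [d3]), sum_singleton]
  unfold ind
  split_ifs <;> decide

theorem hyp_five {col : V → Bool} {β : V → V → ZMod 2} (hβ : ∀ u v, β u v = β v u)
    {H : Finset (Finset V)} (hH : ∀ e, e ∈ H ↔ Hyp col β e) {S : Finset V} (h5 : S.card = 5)
    (h3 : ∀ v ∈ S, (S.filter (fun w => col v = col w)).card ≤ 3) :
    Even (H.filter (fun e => e ⊆ S)).card := by
  obtain ⟨x1, x2, x3, y, y', q2, q3, n23, rfl⟩ := five_shape h5 h3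
  have q4 : Quad col x2 x3 y y' :=
    ⟨n23, q2.2.1, q2.2.2.1.symm.trans q3.2.2.1, q2.2.2.2.1, by rw [← q2.2.2.1]; exact q2.2.2.2.2⟩
  rw [five (col := col) (fun e he => by
    obtain ⟨a, a', b, b', hq, rfl, -⟩ := (hH e).1 he
    exact shape_quad hq) q2 q3 n23]
  rw [ind_eq ((hH _).trans (quad_iff hβ q2)), ind_eq ((hH _).trans (quad_iff hβ q3)),
    ind_eq ((hH _).trans (quad_iff hβ q4))]
  unfold sq
  generalize β x1 y = a1, β x1 y' = a2, β x2 y = a3, β x2 y' = a4, β x3 y = a5, β x3 y' = a6
  revert a1 a2 a3 a4 a5 a6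
  decide

theorem cocycle {col : V → Bool} {H : Finset (Finset V)} (hH : ∀ e ∈ H, Shape col e)
    (hE : ∀ S : Finset V, S.card = 5 → (∀ v ∈ S, (S.filter (fun w => col v = col w)).card ≤ 3) →
      Even (H.filter (fun e => e ⊆ S)).card)
    {x1 x2 x3 y y' : V} (c12 : col x1 = col x2) (c13 : col x1 = col x3) (cy : col y = col y')
    (cxy : col x1 ≠ col y) :
    ind ({x2, x3, y, y'} ∈ H) = ind ({x1, x2, y, y'} ∈ H) + ind ({x1, x3, y, y'} ∈ H) := by
  have small : ∀ e : Finset V, e.card ≤ 3 → ind (e ∈ H) = 0 := by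
    intro e he
    unfold ind
    rw [if_neg]
    intro h
    have := (hH e h).1
    omega
  have sm1 : ∀ a b c : V, ind ({a, a, b, c} ∈ H) = 0 := fun a b c =>
    small _ (by rw [insert_eq_of_mem (by simp)]; exact card_le_three)
  have sm2 : ∀ a b c : V, ind ({a, b, c, c} ∈ H) = 0 := fun a b c =>
    small _ (by rw [pair_eq_singleton]; exact card_le_three)
  by_cases hy : y = y'
  · subst hy; rw [sm2, sm2, sm2, add_zero]
  by_cases h12 : x1 = x2
  · subst h12; rw [sm1, zero_add]
  by_cases h13 : x1 = x3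
  · subst h13
    rw [sm1, add_zero, Finset.insert_comm]
  by_cases h23 : x2 = x3
  · subst h23
    rw [sm1]
    generalize ind _ = a
    revert a; decide
  have q2 : Quad col x1 x2 y y' := ⟨h12, hy, c12, cy, cxy⟩
  have q3 : Quad col x1 x3 y y' := ⟨h13, hy, c13, cy, cxy⟩
  obtain ⟨a1, a2, a3, a4⟩ := q2.ne
  obtain ⟨-, -, a5, a6⟩ := q3.ne
  have hS : ({x1, x2, x3, y, y'} : Finset V).card = 5 := by
    rw [card_insert_of_notMem (by simp [*]), card_insert_of_notMem (by simp [*]),
      card_insert_of_notMem (by simp [*]), card_pair hy]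
  have := (five hH q2 q3 h23).1 (hE _ hS (by
    intro v _
    by_cases hv : col v = col x1
    · refine (card_le_card (t := {x1, x2, x3}) ?_).trans card_le_three
      intro w hw
      simp only [mem_filter, mem_insert, mem_singleton] at hw ⊢
      grind
    · refine (card_le_card (t := {y, y'}) ?_).trans (card_le_two.trans (by norm_num))
      intro w hw
      simp only [mem_filter, mem_insert, mem_singleton] at hw ⊢
      grind))
  revert this
  generalize ind ({x1, x2, y, y'} ∈ H) = a, ind ({x1, x3, y, y'} ∈ H) = b, ind ({x2, x3, y, y'} ∈ H) = c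
  revert a b c; decide

theorem represent {col : V → Bool} {H : Finset (Finset V)} (hH : ∀ e ∈ H, Shape col e)
    (hE : ∀ S : Finset V, S.card = 5 → (∀ v ∈ S, (S.filter (fun w => col v = col w)).card ≤ 3) →
      Even (H.filter (fun e => e ⊆ S)).card) :
    ∃ β : V → V → ZMod 2, (∀ u v, β u v = β v u) ∧ ∀ e, e ∈ H ↔ Hyp col β e := by
  by_cases hex : ∃ x0 y0, col x0 = true ∧ col y0 = false
  · obtain ⟨x0, y0, hx0, hy0⟩ := hex
    let σ : V → V → ZMod 2 := fun x y => ind ({y0, y, x0, x} ∈ H)
    let β : V → V → ZMod 2 := fun u v =>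
      (if col u = true then σ u v else 0) + (if col v = true then σ v u else 0)
    have hβ : ∀ u v, β u v = β v u := fun u v => add_comm _ _
    have sw : ∀ a b c d : V, ({a, b, c, d} : Finset V) = {c, d, a, b} := by
      intro a b c d; ext w; simp only [mem_insert, mem_singleton]; tauto
    have k1 : ∀ x x' y y', col x = true → col x' = true → col y = false → col y' = false →
        ind ({x, x', y, y'} ∈ H) = sq β x x' y y' := by
      intro x x' y y' h1 h2 h3 h4
      rw [cocycle hH hE (x1 := x0) (by simp [*]) (by simp [*]) (by simp [*]) (by simp [*]),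
        sw x0 x, sw x0 x',
        cocycle hH hE (x1 := y0) (x2 := y) (y' := x) (by simp [*]) (by simp [*]) (by simp [*]) (by simp [*]),
        cocycle hH hE (x1 := y0) (x2 := y) (y' := x') (by simp [*]) (by simp [*]) (by simp [*]) (by simp [*])]
      simp only [sq, β, σ, h1, h2, h3, h4]
      simp [add_assoc]
    have k2 : ∀ x x' y y', Quad col x x' y y' → ind ({x, x', y, y'} ∈ H) = sq β x x' y y' := by
      rintro x x' y y' ⟨-, -, h3, h4, h5⟩
      cases hx : col x
      · have hy : col y = true := by revert h5; rw [hx]; cases col y <;> simp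
        rw [sw, k1 y y' x x' hy (h4 ▸ hy) hx (h3 ▸ hx)]
        simp only [sq, hβ y, hβ y']; ring
      · have hy : col y = false := by revert h5; rw [hx]; cases col y <;> simp
        exact k1 x x' y y' hx (h3 ▸ hx) hy (h4 ▸ hy)
    refine ⟨β, hβ, fun e => ⟨fun he => ?_, ?_⟩⟩
    · obtain ⟨x, x', y, y', hq, rfl⟩ := quad_of_shape (hH e he)
      refine ⟨x, x', y, y', hq, rfl, ?_⟩
      rw [← k2 _ _ _ _ hq]; unfold ind; rw [if_pos he]
    · rintro ⟨x, x', y, y', hq, rfl, hs⟩
      rw [← k2 _ _ _ _ hq] at hs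
      unfold ind at hs
      by_contra hn
      rw [if_neg hn] at hs
      exact zero_ne_one hs
  · have no : ∀ x x' y y', ¬ Quad col x x' y y' := by
      rintro x x' y y' ⟨-, -, -, -, h5⟩
      apply hex
      cases hx : col x <;> cases hy : col y
      · simp_all
      · exact ⟨y, x, hy, hx⟩
      · exact ⟨x, y, hx, hy⟩
      · simp_all
    refine ⟨fun _ _ => 0, fun _ _ => rfl, fun e => ⟨fun he => ?_, ?_⟩⟩
    · obtain ⟨x, x', y, y', hq, -⟩ := quad_of_shape (hH e he)
      exact (no _ _ _ _ hq).elim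
    · rintro ⟨x, x', y, y', hq, -⟩
      exact (no _ _ _ _ hq).elim

theorem hyp_image {col : V → Bool} {β : V → V → ZMod 2} {col' : W → Bool} {β' : W → W → ZMod 2}
    {g : V → W} (hg : Function.Injective g) (hc : ∀ u v, col u = col v ↔ col' (g u) = col' (g v))
    (T : V → ZMod 2) (hT : ∀ u v, col u ≠ col v → β' (g u) (g v) = β u v + T u + T v)
    (e : Finset V) : Hyp col β e ↔ Hyp col' β' (e.image g) := by
  have hq : ∀ x x' y y', Quad col x x' y y' ↔ Quad col' (g x) (g x') (g y) (g y') := by
    intro x x' y y'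
    simp only [Quad, ne_eq, hg.eq_iff, hc]
  have hs : ∀ x x' y y', Quad col x x' y y' → sq β' (g x) (g x') (g y) (g y') = sq β x x' y y' := by
    rintro x x' y y' ⟨-, -, h3, h4, h5⟩
    unfold sq
    rw [hT x y h5, hT x y' (h4 ▸ h5), hT x' y (h3 ▸ h5), hT x' y' (h3 ▸ h4 ▸ h5)]
    generalize β x y = a1, β x y' = a2, β x' y = a3, β x' y' = a4, T x = a5, T x' = a6, T y = a7, T y' = a8
    revert a1 a2 a3 a4 a5 a6 a7 a8
    decide
  constructor
  · rintro ⟨x, x', y, y', h, rfl, h1⟩
    exact ⟨g x, g x', g y, g y', (hq _ _ _ _).1 h, by simp [image_insert], by rw [hs _ _ _ _ h, h1]⟩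
  · rintro ⟨a, a', b, b', h, he, h1⟩
    obtain ⟨x, -, rfl⟩ := mem_image.1 (show a ∈ e.image g by rw [he]; simp)
    obtain ⟨x', -, rfl⟩ := mem_image.1 (show a' ∈ e.image g by rw [he]; simp)
    obtain ⟨y, -, rfl⟩ := mem_image.1 (show b ∈ e.image g by rw [he]; simp)
    obtain ⟨y', -, rfl⟩ := mem_image.1 (show b' ∈ e.image g by rw [he]; simp)
    have h' := (hq _ _ _ _).2 h
    refine ⟨x, x', y, y', h', ?_, by rw [← hs _ _ _ _ h', h1]⟩
    apply image_injective hg
    rw [he]; simp [image_insert]

theorem exists_switch {col : V → Bool} (S : Finset V) (D : V → V → ZMod 2)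
    (hD : ∀ u v, D u v = D v u)
    (h : ∀ x ∈ S, ∀ x' ∈ S, ∀ y ∈ S, ∀ y' ∈ S, Quad col x x' y y' → sq D x x' y y' = 0) :
    ∃ t : V → ZMod 2, ∀ x ∈ S, ∀ y ∈ S, col x ≠ col y → D x y = t x + t y := by
  by_cases hex : ∃ x0 ∈ S, ∃ y0 ∈ S, col x0 = true ∧ col y0 = false
  · obtain ⟨x0, m0, y0, m1, hx0, hy0⟩ := hex
    refine ⟨fun u => if col u = true then D u y0 else D x0 u + D x0 y0, ?_⟩
    have k : ∀ x ∈ S, ∀ y ∈ S, col x = true → col y = false → D x y = D x y0 + (D x0 y + D x0 y0) := by
      intro x hx y hy c1 c2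
      by_cases e1 : x = x0
      · subst e1
        generalize D x y = a, D x y0 = b
        revert a b; decide
      by_cases e2 : y = y0
      · subst e2
        generalize D x y = a, D x0 y = b
        revert a b; decide
      have := h x hx x0 m0 y hy y0 m1 ⟨e1, e2, by simp [*], by simp [*], by simp [*]⟩
      unfold sq at this
      revert this
      generalize D x y = a, D x y0 = b, D x0 y = c, D x0 y0 = d
      revert a b c d; decide
    intro x hx y hy hxy
    cases c1 : col x <;> cases c2 : col y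
    · simp_all
    · simp only [c1, c2]
      rw [hD, k y hy x hx c2 c1]; simp [add_comm]
    · simp only [c1, c2]
      rw [k x hx y hy c1 c2]; simp
    · simp_all
  · refine ⟨fun _ => 0, fun x hx y hy hxy => (hex ?_).elim⟩
    cases c1 : col x <;> cases c2 : col y
    · simp_all
    · exact ⟨y, hy, x, hx, c2, c1⟩
    · exact ⟨x, hx, y, hy, c1, c2⟩
    · simp_all

omit [DecidableEq V] in
theorem exists_col {r : V → V → Prop} (hr : Equivalence r) (h3 : ∀ a b c, r a b ∨ r b c ∨ r a c) :
    ∃ col : V → Bool, ∀ x y, r x y ↔ col x = col y := by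
  classical
  rcases isEmpty_or_nonempty V with h | ⟨⟨x0⟩⟩
  · exact ⟨fun _ => true, fun x => (h.false x).elim⟩
  · refine ⟨fun x => decide (r x0 x), fun x y => ⟨fun h => ?_, fun h => ?_⟩⟩
    · simp only [decide_eq_decide]
      exact ⟨fun h1 => hr.trans h1 h, fun h1 => hr.trans h1 (hr.symm h)⟩
    · simp only [decide_eq_decide] at h
      by_cases h1 : r x0 x
      · exact hr.trans (hr.symm h1) (h.1 h1)
      · rcases h3 x0 x y with h2 | h2 | h2
        · exact (h1 h2).elim
        · exact h2
        · exact (h1 (h.2 h2)).elim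

/-- vertices of the extension: a side, an index and a valuation -/
abbrev Big (V : Type) := (Bool × V) × ((Bool × V) → ZMod 2)

def colB (w : Big V) : Bool := w.1.1

def betaB (u v : Big V) : ZMod 2 := u.2 v.1 + v.2 u.1

def emb (col : V → Bool) (β : V → V → ZMod 2) (x : V) : Big V :=
  ((col x, x), fun b => if col x = true then β x b.2 else 0)

omit [DecidableEq V] in
theorem emb_inj (col : V → Bool) (β : V → V → ZMod 2) : Function.Injective (emb col β) :=
  fun _ _ h => congrArg (fun w : Big V => w.1.2) h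

omit [DecidableEq V] in
theorem beta_emb {col : V → Bool} {β : V → V → ZMod 2} (hβ : ∀ u v, β u v = β v u) {x y : V}
    (h : col x ≠ col y) : betaB (emb col β x) (emb col β y) = β x y := by
  unfold betaB emb
  cases c1 : col x <;> cases c2 : col y
  · simp_all
  · simp [hβ y]
  · simp
  · simp_all

def theta (Ψ : Equiv.Perm (Bool × V)) (F : Bool × V → Bool × V → ZMod 2) : Equiv.Perm (Big V) where
  toFun w := (Ψ w.1, fun b => w.2 (Ψ.symm b) + F w.1 (Ψ.symm b))
  invFun w := (Ψ.symm w.1, fun b => w.2 (Ψ b) - F (Ψ.symm w.1) b)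
  left_inv w := by simp
  right_inv w := by simp

theorem extend [Finite V] {col : V → Bool} {β : V → V → ZMod 2} (hβ : ∀ u v, β u v = β v u)
    (S : Finset V) (p : V → V) (hp : Set.InjOn p S)
    (hc : ∀ x ∈ S, ∀ y ∈ S, col x = col y ↔ col (p x) = col (p y))
    (hH : ∀ e ⊆ S, Hyp col β e ↔ Hyp col β (e.image p)) :
    ∃ (θ : Equiv.Perm (Big V)) (T : Big V → ZMod 2),
      (∀ u v, colB u = colB v ↔ colB (θ u) = colB (θ v)) ∧
      (∀ u v, colB u ≠ colB v → betaB (θ u) (θ v) = betaB u v + T u + T v) ∧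
      ∀ x ∈ S, θ (emb col β x) = emb col β (p x) := by
  obtain ⟨ψ, hψ⟩ := Equiv.Perm.exists_extending_pair (fun x : S => (x : V)) (fun x : S => p x)
    Subtype.val_injective (fun x y h => Subtype.ext (hp x.2 y.2 h))
  obtain ⟨τ, hτ⟩ : ∃ τ : Equiv.Perm Bool, ∀ x ∈ S, τ (col x) = col (p x) := by
    rcases S.eq_empty_or_nonempty with rfl | ⟨x0, h0⟩
    · exact ⟨1, by simp⟩
    · refine ⟨Equiv.swap (col x0) (col (p x0)), fun x hx => ?_⟩
      have := hc x hx x0 h0
      revert this
      cases col x <;> cases col x0 <;> cases col (p x) <;> cases col (p x0) <;> decide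
  obtain ⟨t, ht⟩ := exists_switch (col := col) S (fun x y => β (p x) (p y) + β x y)
    (fun u v => by rw [hβ u, hβ (p u)]) (by
      intro x hx x' hx' y hy y' hy' hq
      have hq' : Quad col (p x) (p x') (p y) (p y') :=
        ⟨fun h => hq.1 (hp hx hx' h), fun h => hq.2.1 (hp hy hy' h), (hc x hx x' hx').1 hq.2.2.1,
          (hc y hy y' hy').1 hq.2.2.2.1, fun h => hq.2.2.2.2 ((hc x hx y hy).2 h)⟩
      have h1 := hH {x, x', y, y'} (by
        intro w hw
        simp only [mem_insert, mem_singleton] at hw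
        rcases hw with rfl | rfl | rfl | rfl <;> assumption)
      simp only [image_insert, image_singleton] at h1
      rw [quad_iff hβ hq, quad_iff hβ hq'] at h1
      simp only [sq] at h1 ⊢
      revert h1
      generalize β x y = a1, β x y' = a2, β x' y = a3, β x' y' = a4, β (p x) (p y) = a5,
        β (p x) (p y') = a6, β (p x') (p y) = a7, β (p x') (p y') = a8
      revert a1 a2 a3 a4 a5 a6 a7 a8
      decide)
  let Ψ : Equiv.Perm (Bool × V) := Equiv.prodCongr τ ψ
  have hΨ : ∀ x ∈ S, Ψ (col x, x) = (col (p x), p x) := fun x hx => by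
    simp only [Ψ, Equiv.prodCongr_apply, Prod.map_apply, hτ x hx, hψ ⟨x, hx⟩]
  let good : Bool × V → Prop := fun a => a.2 ∈ S ∧ col a.2 = a.1
  let G : Bool × V → Bool × V → ZMod 2 := fun a b =>
    (emb col β (p a.2)).2 (Ψ b) - (emb col β a.2).2 b
  let T0 : Bool × V → ZMod 2 := fun a => if good a then t a.2 else 0
  let F : Bool × V → Bool × V → ZMod 2 := fun a b =>
    if good a then G a b else if good b then T0 a + T0 b - G b a else 0
  have hF : ∀ a b, a.1 ≠ b.1 → F a b + F b a = T0 a + T0 b := by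
    intro a b hab
    by_cases ga : good a <;> by_cases gb : good b
    · simp only [F, T0, if_pos ga, if_pos gb]
      obtain ⟨s, x⟩ := a
      obtain ⟨s', y⟩ := b
      obtain ⟨hx, ga⟩ := ga
      obtain ⟨hy, gb⟩ := gb
      simp only at hx hy hab ga gb ⊢
      subst ga gb
      have e1 := beta_emb hβ hab
      have e2 := beta_emb hβ (fun h => hab ((hc x hx y hy).2 h))
      have e3 := ht x hx y hy hab
      simp only [G, hΨ x hx, hΨ y hy]
      unfold betaB at e1 e2
      rw [← e3, ← e1, ← e2]
      simp only [emb, CharTwo.sub_eq_add]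
      ring
    · simp only [F, if_pos ga, if_neg gb]; ring
    · simp only [F, if_neg ga, if_pos gb]; ring
    · simp only [F, T0, if_neg ga, if_neg gb]
  refine ⟨theta Ψ F, fun u => T0 u.1, ?_, ?_, ?_⟩
  · intro u v
    simp [colB, theta, Ψ]
  · intro u v huv
    have := hF u.1 v.1 huv
    simp only [betaB, theta, Equiv.coe_fn_mk, Equiv.symm_apply_apply]
    linear_combination this
  · intro x hx
    have gx : good (col x, x) := ⟨hx, rfl⟩
    refine Prod.ext (hΨ x hx) ?_
    funext b
    show (emb col β x).2 (Ψ.symm b) + F (col x, x) (Ψ.symm b) = _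
    simp only [F, if_pos gx, G, Equiv.apply_symm_apply]
    ring

end Pool.Agent.H659Z.Three
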